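import Mathlib

set_option autoImplicit false

namespace Pool.Agent.Helper514.Neu

variable {V : Type*} [NormedAddCommGroup V] [NormedSpace ℝ V]

/-- missing tip -/
theorem miss_core {A C' : V} {k kE kC θ d g m3 : ℝ} {T : V}
    (hk : 0 < k) (hk1 : k ≤ 1) (hC0 : 0 ≤ kC) (hCE : kC ≤ kE) (hEk : kE ≤ k)
    (hθ0 : 0 ≤ θ) (hθ1 : θ ≤ 1)
    (hT : T = (1 - θ) • (-k • A) + θ • (-kE • C'))
    (hd : ‖A - C'‖ = d) (hg : ‖C' - (-k • A)‖ = g)
    (up : m3 ≤ ‖(-k • A) - T‖ + ‖T - (-kC • C')‖) :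
    m3 ≤ 1.5 * d + 0.5 * g := by
  have e1 : (-k • A) - T = θ • (k • (C' - A) - (k - kE) • C') := by
    rw [hT]; module
  have e2 : T - (-kC • C') = (1 - θ) • (k • (C' - A) - (k - kE) • C') - (kE - kC) • C' := by
    rw [hT]; module
  set Q := k • (C' - A) - (k - kE) • C' with hQ
  have hQn : ‖Q‖ ≤ k * d + (k - kE) * ‖C'‖ := by
    calc ‖Q‖ ≤ ‖k • (C' - A)‖ + ‖(k - kE) • C'‖ := norm_sub_le _ _
      _ = k * d + (k - kE) * ‖C'‖ := by
        rw [norm_smul, norm_smul, Real.norm_of_nonneg hk.le,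
          Real.norm_of_nonneg (by linarith : 0 ≤ k - kE), norm_sub_rev, hd]
  have n1 : ‖(-k • A) - T‖ = θ * ‖Q‖ := by
    rw [e1, norm_smul, Real.norm_of_nonneg hθ0]
  have n2 : ‖T - (-kC • C')‖ ≤ (1 - θ) * ‖Q‖ + (kE - kC) * ‖C'‖ := by
    rw [e2]
    refine (norm_sub_le _ _).trans ?_
    rw [norm_smul, norm_smul, Real.norm_of_nonneg (by linarith : 0 ≤ 1 - θ),
      Real.norm_of_nonneg (by linarith : 0 ≤ kE - kC)]
  have hC : (1 + k) * ‖C'‖ ≤ g + k * d := by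
    have : (1 + k) • C' = (C' - (-k • A)) - k • (A - C') := by module
    calc (1 + k) * ‖C'‖ = ‖(1 + k) • C'‖ := by
          rw [norm_smul, Real.norm_of_nonneg (by linarith)]
      _ ≤ ‖C' - (-k • A)‖ + ‖k • (A - C')‖ := by rw [this]; exact norm_sub_le _ _
      _ = g + k * d := by rw [hg, norm_smul, Real.norm_of_nonneg hk.le, hd]
  have hd0 : 0 ≤ d := hd ▸ norm_nonneg _
  have hg0 : 0 ≤ g := hg ▸ norm_nonneg _
  have hN := norm_nonneg C'
  have s1 : m3 ≤ k * d + k * ‖C'‖ := by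
    have := mul_nonneg hC0 hN
    nlinarith
  have s2 : k * ((1 + k) * ‖C'‖) ≤ k * (g + k * d) := mul_le_mul_of_nonneg_left hC hk.le
  have s3 : (1 + k) * m3 ≤ (1 + k) * (1.5 * d + 0.5 * g) := by
    have s4 : (1 + k) * m3 ≤ (1 + k) * (k * d + k * ‖C'‖) :=
      mul_le_mul_of_nonneg_left s1 (by linarith)
    have s5 : 0 ≤ (1 - k) * d := mul_nonneg (by linarith) hd0
    have s6 : 0 ≤ (1 - k) * g := mul_nonneg (by linarith) hg0
    have s7 : 0 ≤ k * ((1 - k) * d) := mul_nonneg hk.le s5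
    nlinarith
  exact le_of_mul_le_mul_left s3 (by linarith)

/-- V case -/
theorem v_core {A C' : V} {k1 k2 X Z c d g m3 : ℝ} {T : V}
    (hk1 : 0 < k1) (hk2 : 0 ≤ k2) (hX : 0 ≤ X) (hZ : 0 ≤ Z)
    (hκ1 : k1 ≤ X + Z) (hκ2 : k2 ≤ X + Z) (hκ : X + Z ≤ 1) (hc : c ≤ 0.4)
    (hcond : 2 * (X + Z) + 1 - k2 < (2 - c) * (1 + k1))
    (hT : T = (-X) • A + (-Z) • C')
    (hd : ‖A - C'‖ = d) (hg : ‖C' - (-k1 • A)‖ = g) (gpos : 0 < g)
    (up : m3 ≤ ‖(-k1 • A) - T‖ + ‖T - (-k2 • C')‖) :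
    m3 < (2 - c) * d + (1 - c) * g := by
  set κ := X + Z with hκdef
  have e1 : (-k1 • A) - T = (κ - k1) • A + Z • (C' - A) := by
    rw [hT, hκdef]; module
  have e2 : T - (-k2 • C') = X • (C' - A) - (κ - k2) • C' := by
    rw [hT, hκdef]; module
  have hd' : ‖C' - A‖ = d := by rw [norm_sub_rev]; exact hd
  have n1 : ‖(-k1 • A) - T‖ ≤ (κ - k1) * ‖A‖ + Z * d := by
    rw [e1]
    refine (norm_add_le _ _).trans ?_
    rw [norm_smul, norm_smul, Real.norm_of_nonneg (by linarith : 0 ≤ κ - k1),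
      Real.norm_of_nonneg hZ, hd']
  have n2 : ‖T - (-k2 • C')‖ ≤ X * d + (κ - k2) * ‖C'‖ := by
    rw [e2]
    refine (norm_sub_le _ _).trans ?_
    rw [norm_smul, norm_smul, Real.norm_of_nonneg hX, Real.norm_of_nonneg (by linarith : 0 ≤ κ - k2),
      hd']
  have hA : (1 + k1) * ‖A‖ ≤ g + d := by
    have : (1 + k1) • A = (C' - (-k1 • A)) + (A - C') := by module
    calc (1 + k1) * ‖A‖ = ‖(1 + k1) • A‖ := by
          rw [norm_smul, Real.norm_of_nonneg (by linarith)]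
      _ ≤ ‖C' - (-k1 • A)‖ + ‖A - C'‖ := by rw [this]; exact norm_add_le _ _
      _ = g + d := by rw [hg, hd]
  have hC : (1 + k1) * ‖C'‖ ≤ g + k1 * d := by
    have : (1 + k1) • C' = (C' - (-k1 • A)) - k1 • (A - C') := by module
    calc (1 + k1) * ‖C'‖ = ‖(1 + k1) • C'‖ := by
          rw [norm_smul, Real.norm_of_nonneg (by linarith)]
      _ ≤ ‖C' - (-k1 • A)‖ + ‖k1 • (A - C')‖ := by rw [this]; exact norm_sub_le _ _
      _ = g + k1 * d := by rw [hg, norm_smul, Real.norm_of_nonneg hk1.le, hd]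
  have hd0 : 0 ≤ d := hd ▸ norm_nonneg _
  have s1 : (1 + k1) * m3 ≤ (κ - k1) * (g + d) + κ * d * (1 + k1) + (κ - k2) * (g + k1 * d) := by
    have t1 := mul_le_mul_of_nonneg_left hA (by linarith : 0 ≤ κ - k1)
    have t2 := mul_le_mul_of_nonneg_left hC (by linarith : 0 ≤ κ - k2)
    have t3 := mul_le_mul_of_nonneg_left (up.trans (add_le_add n1 n2)) (by linarith : 0 ≤ 1 + k1)
    have t4 : (1 + k1) * ((κ - k1) * ‖A‖ + Z * d + (X * d + (κ - k2) * ‖C'‖)) =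
      (κ - k1) * ((1 + k1) * ‖A‖) + κ * d * (1 + k1) + (κ - k2) * ((1 + k1) * ‖C'‖) := by
      rw [hκdef]; ring
    linarith
  -- coefficient of g
  have cg : (κ - k1) + (κ - k2) < (1 - c) * (1 + k1) := by linarith
  -- coefficient of d
  have cd : (κ - k1) + κ * (1 + k1) + (κ - k2) * k1 ≤ (2 - c) * (1 + k1) := by
    rcases le_total k1 1 with h | h
    · -- sigma >= 1/2
      have h1 : 0 ≤ (κ - k2) * (1 - k1) := mul_nonneg (by linarith) (by linarith)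
      nlinarith
    · -- sigma <= 1/2
      have h1 : κ = 1 := by linarith
      have h2 : k1 = 1 := by linarith
      rw [h1, h2]
      nlinarith
  have s2 : (1 + k1) * m3 < (1 + k1) * ((2 - c) * d + (1 - c) * g) := by
    have t1 := mul_lt_mul_of_pos_right cg gpos
    have t2 := mul_le_mul_of_nonneg_right cd hd0
    nlinarith
  exact lt_of_mul_lt_mul_left s2 (by linarith)

end Pool.Agent.Helper514.Neu
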