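import Mathlib

set_option autoImplicit false

namespace Pool.Agent.Helper514.Neu

theorem rows_pos {u v w r1 r2 r3 : ℝ} (hu : 0 < u) (hw : 0 < w)
    (t1 : u ≤ v + w) (t2 : v ≤ u + w) (t3 : w ≤ u + v)
    (h1 : 0 ≤ r1) (h2 : 0 ≤ r2) (h3 : 0 < r3) (h12 : 0 < r2 ∨ 0 < r1) :
    0 < (u + v - w) * r1 + (v + w - u) * r2 + (u + w - v) * r3 := by
  have q1 : 0 ≤ (u + v - w) * r1 := mul_nonneg (by linarith) h1
  have q2 : 0 ≤ (v + w - u) * r2 := mul_nonneg (by linarith) h2
  rcases lt_or_eq_of_le t2 with h | h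
  · have := mul_pos (by linarith : 0 < u + w - v) h3
    linarith
  · have q3 : 0 ≤ (u + w - v) * r3 := mul_nonneg (by linarith) h3.le
    rcases h12 with h' | h'
    · have := mul_pos (by linarith : 0 < v + w - u) h'
      linarith
    · have := mul_pos (by linarith : 0 < u + v - w) h'
      linarith

theorem rows_core {c a b e u v w al al' be be' ga ga' m0 m1 m2 m3 m4 m5 : ℝ}
    (habe : a + b + e = 1) (hac : a ≤ c) (hbc : b ≤ c) (he1 : e ≤ 1 - c)
    (hc : c ≤ 0.4)
    (hu : 0 < u) (hw : 0 < w) (tu : u ≤ v + w) (tv : v ≤ u + w) (tw : w ≤ u + v)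
    (l0 : (al + ga' - 1) * u ≤ m0) (l2 : (al' + be - 1) * v ≤ m2) (l4 : (be' + ga - 1) * w ≤ m4)
    (u3 : m3 ≤ (1 - al') * v + (1 - ga) * w) (u5 : m5 ≤ (1 - be') * w + (1 - al) * u)
    (u1 : m1 ≤ (1 - ga') * u + (1 - be) * v)
    (l1 : be ≤ ga' → (1 - be) * w - (ga' - be) * u ≤ m1)
    (l1' : ga' ≤ be → (1 - ga') * w - (be - ga') * v ≤ m1)
    (r1 : 0 ≤ e * (al + al') + a * be + b * ga' - 2 * max (e - c) 0 * (1 - min be ga') - 2 * c)
    (r2 : 0 ≤ e * al' + a * (be + be') + b * ga - 2 * c)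
    (r3 : 0 < e * al + a * be' + b * (ga + ga') - 2 * c)
    (r12 : 0 < e * al' + a * (be + be') + b * ga - 2 * c ∨
      0 < e * (al + al') + a * be + b * ga' - 2 * max (e - c) 0 * (1 - min be ga') - 2 * c) :
    c * (m0 + m1 + m2 + m3 + m4 + m5) <
      e * (m0 + m1 + m2) + a * (m2 + m3 + m4) + b * (m4 + m5 + m0) := by
  have pos := rows_pos hu hw tu tv tw r1 r2 r3 r12
  have k0 := mul_le_mul_of_nonneg_left l0 (by linarith : 0 ≤ e + b - c)
  have k2 := mul_le_mul_of_nonneg_left l2 (by linarith : 0 ≤ e + a - c)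
  have k4 := mul_le_mul_of_nonneg_left l4 (by linarith : 0 ≤ a + b - c)
  have k3 := mul_le_mul_of_nonneg_left u3 (by linarith : 0 ≤ c - a)
  have k5 := mul_le_mul_of_nonneg_left u5 (by linarith : 0 ≤ c - b)
  rcases le_total e c with hec | hec
  · have k1 := mul_le_mul_of_nonneg_left u1 (by linarith : 0 ≤ c - e)
    rw [max_eq_right (by linarith)] at pos
    linarith
  · rw [max_eq_left (by linarith)] at pos
    rcases le_total be ga' with h | h
    · rw [min_eq_left h] at pos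
      have k1 := mul_le_mul_of_nonneg_left (l1 h) (by linarith : 0 ≤ e - c)
      linarith
    · rw [min_eq_right h] at pos
      have k1 := mul_le_mul_of_nonneg_left (l1' h) (by linarith : 0 ≤ e - c)
      linarith

theorem amgm {p q s t : ℝ} (hp : 0 < p) (hq : 0 < q) (hs : 0 < s) (ht : 0 < t)
    (h : p / s + q / t = 1) : p + q + 2 * √(p * q) ≤ s + t := by
  have e : s + t = p + q + (p * (t / s) + q * (s / t)) := by
    have : s + t = (s + t) * (p / s + q / t) := by rw [h]; ring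
    rw [this]; field_simp; ring
  rw [e]
  have h2 : 2 * √(p * q) ≤ p * (t / s) + q * (s / t) := by
    have k1 : 0 ≤ p * (t / s) := by positivity
    have k2 : 0 ≤ q * (s / t) := by positivity
    have k3 : (p * (t / s)) * (q * (s / t)) = p * q := by field_simp
    rw [← k3, Real.sqrt_mul k1]
    nlinarith [sq_nonneg (√(p * (t / s)) - √(q * (s / t))), Real.sq_sqrt k1, Real.sq_sqrt k2]
  linarith

theorem lowb {p q s t r : ℝ} (hs : 0 < s) (ht : 0 < t) (ht1 : t ≤ 1) (hq : 0 < q)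
    (h : p / s + q / t = 1) (hr : r = 1 - q) (hr0 : 0 < r) : p / r ≤ s := by
  have h1 : q ≤ q / t := by
    rw [le_div_iff₀ ht]; nlinarith
  have h2 : p / s ≤ r := by linarith
  rw [div_le_iff₀ hs] at h2
  rw [div_le_iff₀ hr0]
  linarith

end Pool.Agent.Helper514.Neu
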