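import Pool.Agent.Helper514.Neu.NI
import Pool.Agent.Helper514.Neu.CoreA
import Pool.Agent.Helper514.Neu.CoreB

set_option autoImplicit false

namespace Pool.Agent.Helper514.Neu

variable {V : Type*} [NormedAddCommGroup V] [NormedSpace ℝ V]

theorem good_of_avg {c S e a b h1 h2 h3 : ℝ} (he : 0 ≤ e) (ha : 0 ≤ a) (hb : 0 ≤ b)
    (hs : a + b + e = 1) (h : c * S < e * h1 + a * h2 + b * h3) :
    c * S < h1 ∨ c * S < h2 ∨ c * S < h3 := by
  by_contra hcon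
  push Not at hcon
  obtain ⟨q1, q2, q3⟩ := hcon
  have k1 := mul_le_mul_of_nonneg_left q1 he
  have k2 := mul_le_mul_of_nonneg_left q2 ha
  have k3 := mul_le_mul_of_nonneg_left q3 hb
  have : c * S = e * (c * S) + a * (c * S) + b * (c * S) := by
    linear_combination (-(c * S)) * hs
  linarith

/-- identities placing the six points on the sides of the triangle -/
theorem ids {f0 f1 T1 T2 T3 : V} {p0 p1 p2 p3 p4 p5 D1 D2 D3 S : ℝ}
    (h0 : 0 < p0) (h1 : 0 < p1) (h2 : 0 < p2) (h3 : 0 < p3) (h4 : 0 < p4) (h5 : 0 < p5)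
    (hD1 : D1 = p0 * p2 + p1 * p3 - p0 * p3) (hD2 : D2 = p2 * p4 + p3 * p5 - p2 * p5)
    (hD3 : D3 = p4 * p0 + p5 * p1 - p4 * p1) (hS : S = D1 + D2 + D3)
    (d1 : 0 < D1) (d2 : 0 < D2) (d3 : 0 < D3)
    (hT1 : T1 = ((p2 - p1 + p0) / D1) • f1 + ((p1 - p2 + p3) / D1) • (f1 - f0))
    (hT2 : T2 = ((p4 - p3 + p2) / D2) • (-f0) + ((p3 - p4 + p5) / D2) • (-f1))
    (hT3 : T3 = ((p0 - p5 + p4) / D3) • (f0 - f1) + ((p5 - p0 + p1) / D3) • f0) :
    p0⁻¹ • f0 = T1 + (D3 * (p0 + p3) / (S * p0)) • (T3 - T1) ∧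
    p1⁻¹ • f1 = T3 + (D1 * (p1 + p4) / (S * p1)) • (T1 - T3) ∧
    p2⁻¹ • (f1 - f0) = T2 + (D1 * (p2 + p5) / (S * p2)) • (T1 - T2) ∧
    p3⁻¹ • (-f0) = T1 + (D2 * (p0 + p3) / (S * p3)) • (T2 - T1) ∧
    p4⁻¹ • (-f1) = T3 + (D2 * (p1 + p4) / (S * p4)) • (T2 - T3) ∧
    p5⁻¹ • (f0 - f1) = T2 + (D3 * (p2 + p5) / (S * p5)) • (T3 - T2) := by
  have hne1 := d1.ne'
  have hne2 := d2.ne'
  have hne3 := d3.ne'
  have hnes : S ≠ 0 := by rw [hS]; positivity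
  subst hT1 hT2 hT3
  refine ⟨?_, ?_, ?_, ?_, ?_, ?_⟩ <;> match_scalars <;> field_simp <;>
    (rw [hS, hD1, hD2, hD3]; ring)

theorem norm_pos_of_ind {f0 f1 : V} (ind : ∀ s t : ℝ, s • f0 + t • f1 = 0 → s = 0 ∧ t = 0)
    {v : V} {s t : ℝ} (hv : v = s • f0 + t • f1) (hne : s ≠ 0 ∨ t ≠ 0) : 0 < ‖v‖ := by
  rw [norm_pos_iff]
  intro h
  rw [h] at hv
  have := ind s t hv.symm
  rcases hne with h | h
  · exact h this.1
  · exact h this.2

/-- V-region part of the main case -/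
theorem main_v {c : ℝ} (hc2 : c ^ 2 = 3 * c - 1) (hc : c ≤ 0.38197) (hc0 : 0.38196 ≤ c)
    {f0 f1 T2 : V} (ind : ∀ s t : ℝ, s • f0 + t • f1 = 0 → s = 0 ∧ t = 0)
    {p0 p1 p2 p3 p4 p5 m0 m1 m2 m3 m4 m5 D1 D2 D3 : ℝ}
    (h0 : 0 < p0) (h1 : 0 < p1) (h2 : 0 < p2) (h3 : 0 < p3) (h4 : 0 < p4) (h5 : 0 < p5)
    (c0 : p5 ≤ p4 + p0) (c1 : p2 ≤ p1 + p3) (c3 : p3 ≤ p2 + p4) (c4 : p4 ≤ p3 + p5)
    (hD1 : D1 = p0 * p2 + p1 * p3 - p0 * p3) (hD2 : D2 = p2 * p4 + p3 * p5 - p2 * p5)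
    (hD3 : D3 = p4 * p0 + p5 * p1 - p4 * p1)
    (d1 : 0 < D1) (d2 : 0 < D2) (d3 : 0 < D3)
    (l0 : ‖p0⁻¹ • f0 - p1⁻¹ • f1‖ ≤ m0) (l1 : ‖p1⁻¹ • f1 - p2⁻¹ • (f1 - f0)‖ ≤ m1)
    (l2 : ‖p2⁻¹ • (f1 - f0) - p3⁻¹ • (-f0)‖ ≤ m2)
    (hT2 : T2 = ((p4 - p3 + p2) / D2) • (-f0) + ((p3 - p4 + p5) / D2) • (-f1))
    (u3 : m3 ≤ ‖p3⁻¹ • (-f0) - T2‖ + ‖T2 - p4⁻¹ • (-f1)‖)
    {x z : ℝ} (hx : x = D2 / (D1 + D2 + D3)) (hz : z = D1 / (D1 + D2 + D3))
    (hx2 : 1 / 2 ≤ x) (hV : 0 < x ^ 2 + (1 + c) * x * z + 2 * z ^ 2 - c * x - 2 * z) :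
    c * (m0 + m1 + m2 + m3 + m4 + m5) < m0 + m1 + m2 ∨
    c * (m0 + m1 + m2 + m3 + m4 + m5) < m4 + m5 + m0 := by
  have hS : 0 < D1 + D2 + D3 := by positivity
  -- parameters
  set k1 := p0 / p3 with hk1
  set k2 := p1 / p4 with hk2
  set X := p0 * (p4 - p3 + p2) / D2 with hX
  set Z := p1 * (p3 - p4 + p5) / D2 with hZ
  have hk1p : 0 < k1 := by positivity
  have hk2p : 0 < k2 := by positivity
  have hXZ : X + Z = (D1 + D3) / D2 := by
    rw [hX, hZ, hD1, hD3]; field_simp; ring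
  have hκ1 : k1 ≤ X + Z := by
    rw [hXZ, hk1, div_le_div_iff₀ h3 d2]
    have : (D1 + D3) * p3 - p0 * D2 = D1 * (p3 - p4 + p5) := by
      rw [hD1, hD2, hD3]; ring
    have := mul_nonneg d1.le (by linarith : 0 ≤ p3 - p4 + p5)
    linarith
  have hκ2 : k2 ≤ X + Z := by
    rw [hXZ, hk2, div_le_div_iff₀ h4 d2]
    have : (D1 + D3) * p4 - p1 * D2 = D3 * (p4 - p3 + p2) := by
      rw [hD1, hD2, hD3]; ring
    have := mul_nonneg d3.le (by linarith : 0 ≤ p4 - p3 + p2)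
    linarith
  have hκ : X + Z ≤ 1 := by
    rw [hXZ, div_le_one d2]
    rw [hx, le_div_iff₀ hS] at hx2
    linarith
  have hX0 : 0 ≤ X := by
    rw [hX]; apply div_nonneg _ d2.le; apply mul_nonneg h0.le; linarith
  have hZ0 : 0 ≤ Z := by
    rw [hZ]; apply div_nonneg _ d2.le; apply mul_nonneg h1.le; linarith
  -- lower bounds for k1 and k2
  have hxz : x + z = (D1 + D2) / (D1 + D2 + D3) := by rw [hx, hz]; field_simp; ring
  have hxzpos : 0 < x + z := by rw [hxz]; positivity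
  have hzpos : 0 < z := by rw [hz]; positivity
  have hxpos : 0 < x := by linarith
  have hz1 : z < 1 := by
    rw [hz, div_lt_one hS]; linarith
  have hb1 : 1 / (x + z) ≤ 1 + k1 := by
    rw [hxz, one_div_div, hk1, div_le_iff₀ (by positivity)]
    have e : (1 + p0 / p3) * (D1 + D2) - (D1 + D2 + D3) = (p0 * (D1 + D2) - p3 * D3) / p3 := by
      field_simp; ring
    have e2 : p0 * (D1 + D2) - p3 * D3 = D1 * (p0 - p5 + p4) := by
      rw [hD1, hD2, hD3]; ring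
    have : 0 ≤ (p0 * (D1 + D2) - p3 * D3) / p3 := by
      rw [e2]; exact div_nonneg (mul_nonneg d1.le (by linarith)) h3.le
    linarith
  have hb2 : z / (1 - z) ≤ k2 := by
    have e0 : z / (1 - z) = D1 / (D2 + D3) := by
      have : 1 - z = (D2 + D3) / (D1 + D2 + D3) := by rw [hz]; field_simp; ring
      rw [this, hz]; field_simp
    rw [e0, hk2, div_le_div_iff₀ (by positivity) h4]
    have e2 : p1 * (D2 + D3) - D1 * p4 = D3 * (p1 - p2 + p3) := by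
      rw [hD1, hD2, hD3]; ring
    have := mul_nonneg d3.le (by linarith : 0 ≤ p1 - p2 + p3)
    linarith
  have hcond : 2 * (X + Z) + 1 - k2 < (2 - c) * (1 + k1) := by
    have e1 : X + Z = (1 - x) / x := by
      have : 1 - x = (D1 + D3) / (D1 + D2 + D3) := by rw [hx]; field_simp; ring
      rw [hXZ, this, hx]; field_simp
    have e2 : 2 * (X + Z) + 1 - k2 ≤ 2 * ((1 - x) / x) + 1 - z / (1 - z) := by
      rw [e1]; linarith
    have e3 : (2 - c) * (1 / (x + z)) ≤ (2 - c) * (1 + k1) :=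
      mul_le_mul_of_nonneg_left hb1 (by linarith)
    have e4 : 2 * ((1 - x) / x) + 1 - z / (1 - z) < (2 - c) * (1 / (x + z)) := by
      have hz1' : 0 < 1 - z := by linarith
      have : (2 - c) * (1 / (x + z)) - (2 * ((1 - x) / x) + 1 - z / (1 - z)) =
          (x ^ 2 + (1 + c) * x * z + 2 * z ^ 2 - c * x - 2 * z) / ((x + z) * x * (1 - z)) := by
        field_simp
        ring
      have h' : 0 < (x ^ 2 + (1 + c) * x * z + 2 * z ^ 2 - c * x - 2 * z) /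
          ((x + z) * x * (1 - z)) := by positivity
      linarith
    linarith
  have eA : -k1 • (p0⁻¹ • f0) = p3⁻¹ • (-f0) := by
    rw [hk1]; match_scalars; field_simp
  have eC : -k2 • (p1⁻¹ • f1) = p4⁻¹ • (-f1) := by
    rw [hk2]; match_scalars; field_simp
  have gpos : 0 < ‖p1⁻¹ • f1 - (-k1 • (p0⁻¹ • f0))‖ := by
    rw [eA]
    apply norm_pos_of_ind ind (s := p3⁻¹) (t := p1⁻¹)
    · module
    · left; positivity
  have key := v_core (m3 := m3) (A := p0⁻¹ • f0) (C' := p1⁻¹ • f1) (T := T2) hk1p hk2p.le hX0 hZ0 hκ1 hκ2 hκ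
    (by linarith : c ≤ 0.4) hcond
    (by rw [hT2, hX, hZ]; match_scalars <;> field_simp) rfl rfl gpos
    (by rw [eA, eC]; exact u3)
  rw [eA] at key
  have tri : ‖p1⁻¹ • f1 - p3⁻¹ • (-f0)‖ ≤ m1 + m2 :=
    (norm_sub_le_norm_sub_add_norm_sub _ _ _).trans (add_le_add l1 l2)
  have key2 : m3 < (2 - c) * m0 + (1 - c) * (m1 + m2) := by
    have k1 := mul_le_mul_of_nonneg_left l0 (by linarith : 0 ≤ 2 - c)
    have k2 := mul_le_mul_of_nonneg_left tri (by linarith : 0 ≤ 1 - c)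
    linarith
  by_contra hcon
  push Not at hcon
  obtain ⟨q1, q2⟩ := hcon
  have r1 := mul_le_mul_of_nonneg_left q1 (by linarith : 0 ≤ 1 - c)
  have r2 := mul_le_mul_of_nonneg_left q2 (by linarith : 0 ≤ c)
  have r3 := mul_lt_mul_of_pos_left key2 (by linarith : 0 < c)
  have r4 : c * ((2 - c) * m0 + (1 - c) * (m1 + m2)) = (1 - c) * m0 + (1 - 2 * c) * (m1 + m2) := by
    linear_combination (-(m0 + m1 + m2)) * hc2
  rw [r4] at r3
  linarith

/-- rows part of the main case -/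
theorem main_rows {c : ℝ} (hc : c ≤ 0.38197) (hc0 : 0.38196 ≤ c)
    {f0 f1 T1 T2 T3 : V} (ind : ∀ s t : ℝ, s • f0 + t • f1 = 0 → s = 0 ∧ t = 0)
    {p0 p1 p2 p3 p4 p5 m0 m1 m2 m3 m4 m5 D1 D2 D3 : ℝ}
    (h0 : 0 < p0) (h1 : 0 < p1) (h2 : 0 < p2) (h3 : 0 < p3) (h4 : 0 < p4) (h5 : 0 < p5)
    (c0 : p5 ≤ p4 + p0) (c1 : p2 ≤ p1 + p3) (c3 : p3 ≤ p2 + p4) (c4 : p4 ≤ p3 + p5)
    (c5 : p1 ≤ p0 + p2) (c6 : p0 ≤ p5 + p1)
    (hD1 : D1 = p0 * p2 + p1 * p3 - p0 * p3) (hD2 : D2 = p2 * p4 + p3 * p5 - p2 * p5)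
    (hD3 : D3 = p4 * p0 + p5 * p1 - p4 * p1)
    (d1 : 0 < D1) (d2 : 0 < D2) (d3 : 0 < D3)
    (l0 : ‖p0⁻¹ • f0 - p1⁻¹ • f1‖ ≤ m0) (l1 : ‖p1⁻¹ • f1 - p2⁻¹ • (f1 - f0)‖ ≤ m1)
    (l2 : ‖p2⁻¹ • (f1 - f0) - p3⁻¹ • (-f0)‖ ≤ m2)
    (l4 : ‖p4⁻¹ • (-f1) - p5⁻¹ • (f0 - f1)‖ ≤ m4)
    (hT1 : T1 = ((p2 - p1 + p0) / D1) • f1 + ((p1 - p2 + p3) / D1) • (f1 - f0))
    (hT2 : T2 = ((p4 - p3 + p2) / D2) • (-f0) + ((p3 - p4 + p5) / D2) • (-f1))
    (hT3 : T3 = ((p0 - p5 + p4) / D3) • (f0 - f1) + ((p5 - p0 + p1) / D3) • f0)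
    (u1 : m1 ≤ ‖p1⁻¹ • f1 - T1‖ + ‖T1 - p2⁻¹ • (f1 - f0)‖)
    (u3 : m3 ≤ ‖p3⁻¹ • (-f0) - T2‖ + ‖T2 - p4⁻¹ • (-f1)‖)
    (u5 : m5 ≤ ‖p5⁻¹ • (f0 - f1) - T3‖ + ‖T3 - p0⁻¹ • f0‖)
    {x y z : ℝ} (hx : x = D2 / (D1 + D2 + D3)) (hy : y = D3 / (D1 + D2 + D3))
    (hz : z = D1 / (D1 + D2 + D3)) (hyx : y ≤ x)
    {a b e : ℝ} (ha : 0 ≤ a) (hb : 0 ≤ b) (he : 0 ≤ e) (habe : a + b + e = 1) (hac : a ≤ c)
    (hbc : b ≤ c) (hec : e ≤ 1 - c)
    (rx : 0 ≤ Rx c a b e x y z) (ry : 0 < Ry c a b e x y z) (rz : 0 ≤ Rz c a b e x y z)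
    (rxz : 0 < Rx c a b e x y z ∨ 0 < Rz c a b e x y z) :
    c * (m0 + m1 + m2 + m3 + m4 + m5) <
      e * (m0 + m1 + m2) + a * (m2 + m3 + m4) + b * (m4 + m5 + m0) := by
  have hS : 0 < D1 + D2 + D3 := by positivity
  obtain ⟨I0, I1, I2, I3, I4, I5⟩ := ids h0 h1 h2 h3 h4 h5 hD1 hD2 hD3 rfl d1 d2 d3 hT1 hT2 hT3
  set S := D1 + D2 + D3 with hSdef
  set al := D3 * (p0 + p3) / (S * p0) with hal
  set ga' := D1 * (p1 + p4) / (S * p1) with hga'
  set be := D1 * (p2 + p5) / (S * p2) with hbe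
  set al' := D2 * (p0 + p3) / (S * p3) with hal'
  set ga := D2 * (p1 + p4) / (S * p4) with hga
  set be' := D3 * (p2 + p5) / (S * p5) with hbe'
  have alp : 0 < al := by positivity
  have alp' : 0 < al' := by positivity
  have bep : 0 < be := by positivity
  have bep' : 0 < be' := by positivity
  have gap : 0 < ga := by positivity
  have gap' : 0 < ga' := by positivity
  have xp : 0 < x := by rw [hx]; positivity
  have yp : 0 < y := by rw [hy]; positivity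
  have zp : 0 < z := by rw [hz]; positivity
  have xyz : x + y + z = 1 := by
    rw [hx, hy, hz, hSdef]; field_simp; ring
  -- upper bounds by one
  have al1 : al ≤ 1 := by
    rw [hal, div_le_one (by positivity)]
    have : S * p0 - D3 * (p0 + p3) = D1 * (p0 - p5 + p4) := by
      rw [hSdef, hD1, hD2, hD3]; ring
    have := mul_nonneg d1.le (by linarith : 0 ≤ p0 - p5 + p4)
    linarith
  have al1' : al' ≤ 1 := by
    rw [hal', div_le_one (by positivity)]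
    have : S * p3 - D2 * (p0 + p3) = D1 * (p3 - p4 + p5) := by
      rw [hSdef, hD1, hD2, hD3]; ring
    have := mul_nonneg d1.le (by linarith : 0 ≤ p3 - p4 + p5)
    linarith
  have ga1' : ga' ≤ 1 := by
    rw [hga', div_le_one (by positivity)]
    have : S * p1 - D1 * (p1 + p4) = D3 * (p1 - p2 + p3) := by
      rw [hSdef, hD1, hD2, hD3]; ring
    have := mul_nonneg d3.le (by linarith : 0 ≤ p1 - p2 + p3)
    linarith
  have ga1 : ga ≤ 1 := by
    rw [hga, div_le_one (by positivity)]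
    have : S * p4 - D2 * (p1 + p4) = D3 * (p4 - p3 + p2) := by
      rw [hSdef, hD1, hD2, hD3]; ring
    have := mul_nonneg d3.le (by linarith : 0 ≤ p4 - p3 + p2)
    linarith
  have be1 : be ≤ 1 := by
    rw [hbe, div_le_one (by positivity)]
    have : S * p2 - D1 * (p2 + p5) = D2 * (p2 - p1 + p0) := by
      rw [hSdef, hD1, hD2, hD3]; ring
    have := mul_nonneg d2.le (by linarith : 0 ≤ p2 - p1 + p0)
    linarith
  have be1' : be' ≤ 1 := by
    rw [hbe', div_le_one (by positivity)]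
    have : S * p5 - D3 * (p2 + p5) = D2 * (p5 - p0 + p1) := by
      rw [hSdef, hD1, hD2, hD3]; ring
    have := mul_nonneg d2.le (by linarith : 0 ≤ p5 - p0 + p1)
    linarith
  -- relations
  have R1 : y / al + x / al' = 1 := by
    rw [hx, hy, hal, hal']; field_simp
  have R2 : z / be + y / be' = 1 := by
    rw [hz, hy, hbe, hbe']; field_simp
  have R3 : x / ga + z / ga' = 1 := by
    rw [hx, hz, hga, hga']; field_simp; ring
  -- lower bounds
  have b1 : y / (1 - x) ≤ al := lowb alp alp' al1' xp R1 rfl (by linarith)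
  have b2 : x / (1 - y) ≤ al' := lowb alp' alp al1 yp (by rw [add_comm]; exact R1) rfl (by linarith)
  have b3 : z / (1 - y) ≤ be := lowb bep bep' be1' yp R2 rfl (by linarith)
  have b4 : y / (1 - z) ≤ be' := lowb bep' bep be1 zp (by rw [add_comm]; exact R2) rfl (by linarith)
  have b5 : x / (1 - z) ≤ ga := lowb gap gap' ga1' zp R3 rfl (by linarith)
  have b6 : z / (1 - x) ≤ ga' := lowb gap' gap ga1 xp (by rw [add_comm]; exact R3) rfl
    (by linarith)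
  have b7 : y + x + 2 * √(y * x) ≤ al + al' := amgm yp xp alp alp' R1
  have b8 : z + y + 2 * √(z * y) ≤ be + be' := amgm zp yp bep bep' R2
  have b9 : x + z + 2 * √(x * z) ≤ ga + ga' := amgm xp zp gap gap' R3
  rw [mul_comm y x] at b7
  rw [mul_comm z y] at b8
  have b10 : z / (1 - y) ≤ min be ga' := by
    refine le_min b3 (le_trans ?_ b6)
    exact div_le_div_of_nonneg_left zp.le (by linarith) (by linarith)
  have q2 : Rx c a b e x y z ≤ e * al' + a * (be + be') + b * ga - 2 * c := by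
    unfold Rx
    have t1 := mul_le_mul_of_nonneg_left b2 he
    have t2 := mul_le_mul_of_nonneg_left b8 ha
    have t3 := mul_le_mul_of_nonneg_left b5 hb
    linarith
  have q3 : Ry c a b e x y z ≤ e * al + a * be' + b * (ga + ga') - 2 * c := by
    unfold Ry
    have t1 := mul_le_mul_of_nonneg_left b1 he
    have t2 := mul_le_mul_of_nonneg_left b4 ha
    have t3 := mul_le_mul_of_nonneg_left b9 hb
    linarith
  have q1 : Rz c a b e x y z ≤
      e * (al + al') + a * be + b * ga' - 2 * max (e - c) 0 * (1 - min be ga') - 2 * c := by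
    unfold Rz
    have t1 := mul_le_mul_of_nonneg_left b7 he
    have t2 := mul_le_mul_of_nonneg_left b3 ha
    have t3 := mul_le_mul_of_nonneg_left b6 hb
    have t4 := mul_le_mul_of_nonneg_left b10 (le_max_right (e - c) 0)
    linarith
  -- side lengths
  have hu : 0 < ‖T3 - T1‖ := by
    have hI : p0⁻¹ • f0 - p1⁻¹ • f1 = (al + ga' - 1) • (T3 - T1) := by
      rw [I0, I1]; module
    have hp : 0 < ‖p0⁻¹ • f0 - p1⁻¹ • f1‖ := by
      apply norm_pos_of_ind ind (s := p0⁻¹) (t := -p1⁻¹)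
      · module
      · left; positivity
    rw [hI, norm_smul] at hp
    exact pos_of_mul_pos_right hp (norm_nonneg _)
  have hw : 0 < ‖T3 - T2‖ := by
    have hI : p4⁻¹ • (-f1) - p5⁻¹ • (f0 - f1) = (1 - ga - be') • (T3 - T2) := by
      rw [I4, I5]; module
    have hp : 0 < ‖p4⁻¹ • (-f1) - p5⁻¹ • (f0 - f1)‖ := by
      apply norm_pos_of_ind ind (s := -p5⁻¹) (t := -p4⁻¹ + p5⁻¹)
      · module
      · left
        have : 0 < p5⁻¹ := by positivity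
        linarith
    rw [hI, norm_smul] at hp
    exact pos_of_mul_pos_right hp (norm_nonneg _)
  have tu : ‖T3 - T1‖ ≤ ‖T2 - T1‖ + ‖T3 - T2‖ := by
    have : T3 - T1 = (T2 - T1) + (T3 - T2) := by abel
    rw [this]; exact norm_add_le _ _
  have tv : ‖T2 - T1‖ ≤ ‖T3 - T1‖ + ‖T3 - T2‖ := by
    have : T2 - T1 = (T3 - T1) - (T3 - T2) := by abel
    rw [this]; exact norm_sub_le _ _
  have tw : ‖T3 - T2‖ ≤ ‖T3 - T1‖ + ‖T2 - T1‖ := by
    have : T3 - T2 = (T3 - T1) - (T2 - T1) := by abel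
    rw [this]; exact norm_sub_le _ _
  have L0 : (al + ga' - 1) * ‖T3 - T1‖ ≤ m0 := by
    have hI : p0⁻¹ • f0 - p1⁻¹ • f1 = (al + ga' - 1) • (T3 - T1) := by
      rw [I0, I1]; module
    rw [hI, norm_smul, Real.norm_eq_abs] at l0
    exact le_trans (mul_le_mul_of_nonneg_right (le_abs_self _) (norm_nonneg _)) l0
  have L2 : (al' + be - 1) * ‖T2 - T1‖ ≤ m2 := by
    have hI : p2⁻¹ • (f1 - f0) - p3⁻¹ • (-f0) = (-(al' + be - 1)) • (T2 - T1) := by
      rw [I2, I3]; module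
    rw [hI, norm_smul, norm_neg, Real.norm_eq_abs] at l2
    exact le_trans (mul_le_mul_of_nonneg_right (le_abs_self _) (norm_nonneg _)) l2
  have L4 : (be' + ga - 1) * ‖T3 - T2‖ ≤ m4 := by
    have hI : p4⁻¹ • (-f1) - p5⁻¹ • (f0 - f1) = (-(be' + ga - 1)) • (T3 - T2) := by
      rw [I4, I5]; module
    rw [hI, norm_smul, norm_neg, Real.norm_eq_abs] at l4
    exact le_trans (mul_le_mul_of_nonneg_right (le_abs_self _) (norm_nonneg _)) l4
  have U1 : m1 ≤ (1 - ga') * ‖T3 - T1‖ + (1 - be) * ‖T2 - T1‖ := by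
    have e1 : p1⁻¹ • f1 - T1 = (1 - ga') • (T3 - T1) := by rw [I1]; module
    have e2 : T1 - p2⁻¹ • (f1 - f0) = -((1 - be) • (T2 - T1)) := by rw [I2]; module
    rw [e1, e2, norm_neg, norm_smul, norm_smul, Real.norm_of_nonneg (by linarith : 0 ≤ 1 - ga'),
      Real.norm_of_nonneg (by linarith : 0 ≤ 1 - be)] at u1
    exact u1
  have U3 : m3 ≤ (1 - al') * ‖T2 - T1‖ + (1 - ga) * ‖T3 - T2‖ := by
    have e1 : p3⁻¹ • (-f0) - T2 = -((1 - al') • (T2 - T1)) := by rw [I3]; module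
    have e2 : T2 - p4⁻¹ • (-f1) = -((1 - ga) • (T3 - T2)) := by rw [I4]; module
    rw [e1, e2, norm_neg, norm_neg, norm_smul, norm_smul,
      Real.norm_of_nonneg (by linarith : 0 ≤ 1 - al'),
      Real.norm_of_nonneg (by linarith : 0 ≤ 1 - ga)] at u3
    exact u3
  have U5 : m5 ≤ (1 - be') * ‖T3 - T2‖ + (1 - al) * ‖T3 - T1‖ := by
    have e1 : p5⁻¹ • (f0 - f1) - T3 = -((1 - be') • (T3 - T2)) := by rw [I5]; module
    have e2 : T3 - p0⁻¹ • f0 = (1 - al) • (T3 - T1) := by rw [I0]; module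
    rw [e1, e2, norm_neg, norm_smul, norm_smul, Real.norm_of_nonneg (by linarith : 0 ≤ 1 - be'),
      Real.norm_of_nonneg (by linarith : 0 ≤ 1 - al)] at u5
    exact u5
  have E1 : p1⁻¹ • f1 - p2⁻¹ • (f1 - f0) = (1 - ga') • (T3 - T1) - (1 - be) • (T2 - T1) := by
    rw [I1, I2]; module
  have K1 : be ≤ ga' → (1 - be) * ‖T3 - T2‖ - (ga' - be) * ‖T3 - T1‖ ≤ m1 := by
    intro h
    have e : (1 - ga') • (T3 - T1) - (1 - be) • (T2 - T1) =
      (1 - be) • (T3 - T2) - (ga' - be) • (T3 - T1) := by module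
    rw [E1, e] at l1
    have := norm_sub_norm_le ((1 - be) • (T3 - T2)) ((ga' - be) • (T3 - T1))
    rw [norm_smul, norm_smul, Real.norm_of_nonneg (by linarith : 0 ≤ 1 - be),
      Real.norm_of_nonneg (by linarith : 0 ≤ ga' - be)] at this
    linarith
  have K2 : ga' ≤ be → (1 - ga') * ‖T3 - T2‖ - (be - ga') * ‖T2 - T1‖ ≤ m1 := by
    intro h
    have e : (1 - ga') • (T3 - T1) - (1 - be) • (T2 - T1) =
      (1 - ga') • (T3 - T2) + (be - ga') • (T2 - T1) := by module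
    rw [E1, e] at l1
    have := norm_sub_norm_le ((1 - ga') • (T3 - T2)) (-((be - ga') • (T2 - T1)))
    rw [sub_neg_eq_add, norm_neg, norm_smul, norm_smul,
      Real.norm_of_nonneg (by linarith : 0 ≤ 1 - ga'),
      Real.norm_of_nonneg (by linarith : 0 ≤ be - ga')] at this
    linarith
  refine rows_core habe hac hbc hec (by linarith) hu hw tu tv tw L0 L2 L4 U3 U5 U1 K1 K2
    (rz.trans q1) (rx.trans q2) (lt_of_lt_of_le ry q3) ?_
  rcases rxz with h | h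
  · exact Or.inl (lt_of_lt_of_le h q2)
  · exact Or.inr (lt_of_lt_of_le h q1)

end Pool.Agent.Helper514.Neu
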