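import Pool.Agent.Helper514.Neu.CoreC

set_option autoImplicit false

namespace Pool.Agent.Helper514.Neu

variable {V : Type*} [NormedAddCommGroup V] [NormedSpace ℝ V]

/-- discriminant of the tip over sector `k` -/
def De (p : ZMod 6 → ℝ) (k : ZMod 6) : ℝ :=
  p (k - 1) * p (k + 1) + p k * p (k + 2) - p (k - 1) * p (k + 2)

noncomputable def tip (f : ZMod 6 → V) (p : ZMod 6 → ℝ) (k : ZMod 6) : V :=
  ((p (k + 1) - p k + p (k - 1)) / De p k) • f k +
    ((p k - p (k + 1) + p (k + 2)) / De p k) • f (k + 1)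

structure Cfg (f : ZMod 6 → V) (p m : ZMod 6 → ℝ) : Prop where
  fadd : ∀ k, f (k + 1) = f k + f (k + 2)
  pp : ∀ k, 0 < p k
  pc : ∀ k, p (k + 1) ≤ p k + p (k + 2)
  lo : ∀ k, ‖(p k)⁻¹ • f k - (p (k + 1))⁻¹ • f (k + 1)‖ ≤ m k
  up : ∀ k, 0 < De p k →
    m k ≤ ‖(p k)⁻¹ • f k - tip f p k‖ + ‖tip f p k - (p (k + 1))⁻¹ • f (k + 1)‖
  ind : ∀ s t : ℝ, s • f 0 + t • f 1 = 0 → s = 0 ∧ t = 0

def Good (c : ℝ) (m : ZMod 6 → ℝ) : Prop :=
  c * (m 0 + m 1 + m 2 + m 3 + m 4 + m 5) < m 0 + m 1 + m 2 ∨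
  c * (m 0 + m 1 + m 2 + m 3 + m 4 + m 5) < m 2 + m 3 + m 4 ∨
  c * (m 0 + m 1 + m 2 + m 3 + m 4 + m 5) < m 4 + m 5 + m 0

namespace Cfg

variable {f : ZMod 6 → V} {p m : ZMod 6 → ℝ}

theorem f2 (h : Cfg f p m) : f 2 = f 1 - f 0 := by
  have := h.fadd 0
  rw [show (0 : ZMod 6) + 1 = 1 from rfl, show (0 : ZMod 6) + 2 = 2 from rfl] at this
  rw [this]; abel

theorem f3 (h : Cfg f p m) : f 3 = -f 0 := by
  have := h.fadd 1
  rw [show (1 : ZMod 6) + 1 = 2 from rfl, show (1 : ZMod 6) + 2 = 3 from rfl, h.f2] at this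
  have e : f 3 = (f 1 + f 3) - f 1 := by abel
  rw [e, ← this]; abel

theorem f4 (h : Cfg f p m) : f 4 = -f 1 := by
  have := h.fadd 2
  rw [show (2 : ZMod 6) + 1 = 3 from rfl, show (2 : ZMod 6) + 2 = 4 from rfl, h.f2, h.f3] at this
  have e : f 4 = ((f 1 - f 0) + f 4) - (f 1 - f 0) := by abel
  rw [e, ← this]; abel

theorem f5 (h : Cfg f p m) : f 5 = f 0 - f 1 := by
  have := h.fadd 3
  rw [show (3 : ZMod 6) + 1 = 4 from rfl, show (3 : ZMod 6) + 2 = 5 from rfl, h.f3, h.f4] at this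
  have e : f 5 = ((-f 0) + f 5) - (-f 0) := by abel
  rw [e, ← this]; abel

theorem rot (h : Cfg f p m) :
    Cfg (fun k => f (k + 2)) (fun k => p (k + 2)) (fun k => m (k + 2)) where
  fadd k := by
    have := h.fadd (k + 2)
    rw [show k + 2 + 1 = k + 1 + 2 by ring] at this
    exact this
  pp k := h.pp _
  pc k := by
    have := h.pc (k + 2)
    rw [show k + 2 + 1 = k + 1 + 2 by ring] at this
    exact this
  lo k := by
    have := h.lo (k + 2)
    rw [show k + 2 + 1 = k + 1 + 2 by ring] at this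
    exact this
  up k := by
    have := h.up (k + 2)
    unfold tip De at *
    rw [show k + 2 + 1 = k + 1 + 2 by ring, show k + 2 - 1 = k - 1 + 2 by ring] at this
    exact this
  ind s t hst := by
    rw [show (0 : ZMod 6) + 2 = 2 from rfl, show (1 : ZMod 6) + 2 = 3 from rfl, h.f2, h.f3] at hst
    have := h.ind (-(s + t)) s (by rw [← hst]; module)
    constructor
    · exact this.2
    · linarith [this.1, this.2]

theorem refl (h : Cfg f p m) :
    Cfg (fun k => f (3 - k)) (fun k => p (3 - k)) (fun k => m (2 - k)) where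
  fadd k := by
    have := h.fadd (1 - k)
    rw [show 1 - k + 1 = 3 - (k + 1) by ring, show 1 - k + 2 = 3 - k by ring,
      show 1 - k = 3 - (k + 2) by ring, add_comm (f _)] at this
    exact this
  pp k := h.pp _
  pc k := by
    have := h.pc (1 - k)
    rw [show 1 - k + 1 = 3 - (k + 1) by ring, show 1 - k + 2 = 3 - k by ring,
      show 1 - k = 3 - (k + 2) by ring, add_comm (p _)] at this
    exact this
  lo k := by
    have := h.lo (2 - k)
    rw [show 2 - k + 1 = 3 - k by ring, norm_sub_rev] at this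
    rw [show 3 - (k + 1) = 2 - k by ring]
    exact this
  up k := by
    intro hpos
    have := h.up (2 - k)
    simp only [tip, De] at this hpos ⊢
    rw [show 2 - k + 1 = 3 - k by ring, show 2 - k - 1 = 3 - (k + 2) by ring,
      show 2 - k + 2 = 3 - (k - 1) by ring] at this
    rw [show 3 - (k + 1) = 2 - k by ring] at hpos ⊢
    have h1 := this (by linarith)
    have e : p (3 - (k + 2)) * p (3 - k) + p (2 - k) * p (3 - (k - 1)) -
        p (3 - (k + 2)) * p (3 - (k - 1)) =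
        p (3 - (k - 1)) * p (2 - k) + p (3 - k) * p (3 - (k + 2)) -
        p (3 - (k - 1)) * p (3 - (k + 2)) := by ring
    rw [e] at h1
    set D := p (3 - (k - 1)) * p (2 - k) + p (3 - k) * p (3 - (k + 2)) -
        p (3 - (k - 1)) * p (3 - (k + 2)) with hD
    have e2 : ((p (3 - k) - p (2 - k) + p (3 - (k + 2))) / D) • f (2 - k) +
        ((p (2 - k) - p (3 - k) + p (3 - (k - 1))) / D) • f (3 - k) =
        ((p (2 - k) - p (3 - k) + p (3 - (k - 1))) / D) • f (3 - k) +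
        ((p (3 - k) - p (2 - k) + p (3 - (k + 2))) / D) • f (2 - k) := add_comm _ _
    rw [e2, add_comm (‖_‖), norm_sub_rev, norm_sub_rev ((p (2 - k))⁻¹ • _)] at h1
    exact h1
  ind s t hst := by
    rw [show (3 : ZMod 6) - 0 = 3 from rfl, show (3 : ZMod 6) - 1 = 2 from rfl, h.f2, h.f3] at hst
    have := h.ind (-(s + t)) t (by rw [← hst]; module)
    constructor
    · linarith [this.1, this.2]
    · exact this.2

end Cfg

theorem Good.of_rot {c : ℝ} {m : ZMod 6 → ℝ} (h : Good c (fun k => m (k + 2))) : Good c m := by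
  unfold Good at *
  simp only at h
  rw [show (0 : ZMod 6) + 2 = 2 from rfl, show (1 : ZMod 6) + 2 = 3 from rfl,
    show (2 : ZMod 6) + 2 = 4 from rfl, show (3 : ZMod 6) + 2 = 5 from rfl,
    show (4 : ZMod 6) + 2 = 0 from rfl, show (5 : ZMod 6) + 2 = 1 from rfl] at h
  have e : m 2 + m 3 + m 4 + m 5 + m 0 + m 1 = m 0 + m 1 + m 2 + m 3 + m 4 + m 5 := by ring
  rw [e] at h
  rcases h with h | h | h
  · exact Or.inr (Or.inl h)
  · exact Or.inr (Or.inr h)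
  · exact Or.inl h

theorem Good.of_refl {c : ℝ} {m : ZMod 6 → ℝ} (h : Good c (fun k => m (2 - k))) : Good c m := by
  unfold Good at *
  simp only at h
  rw [show (2 : ZMod 6) - 0 = 2 from rfl, show (2 : ZMod 6) - 1 = 1 from rfl,
    show (2 : ZMod 6) - 2 = 0 from rfl, show (2 : ZMod 6) - 3 = 5 from rfl,
    show (2 : ZMod 6) - 4 = 4 from rfl, show (2 : ZMod 6) - 5 = 3 from rfl] at h
  have e : m 2 + m 1 + m 0 + m 5 + m 4 + m 3 = m 0 + m 1 + m 2 + m 3 + m 4 + m 5 := by ring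
  rw [e] at h
  rcases h with h | h | h
  · exact Or.inl (by linarith)
  · exact Or.inr (Or.inr (by linarith))
  · exact Or.inr (Or.inl (by linarith))

theorem fin_case {c m0 m1 m2 m3 m4 m5 : ℝ} (hc2 : c ^ 2 = 3 * c - 1) (hc : c ≤ 0.38197)
    (hc0 : 0.38196 ≤ c) (key2 : m3 < (2 - c) * m0 + (1 - c) * (m1 + m2)) :
    c * (m0 + m1 + m2 + m3 + m4 + m5) < m0 + m1 + m2 ∨
    c * (m0 + m1 + m2 + m3 + m4 + m5) < m4 + m5 + m0 := by
  by_contra hcon
  push Not at hcon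
  obtain ⟨q1, q2⟩ := hcon
  have r1 := mul_le_mul_of_nonneg_left q1 (by linarith : 0 ≤ 1 - c)
  have r2 := mul_le_mul_of_nonneg_left q2 (by linarith : 0 ≤ c)
  have r3 := mul_lt_mul_of_pos_left key2 (by linarith : 0 < c)
  have r4 : c * ((2 - c) * m0 + (1 - c) * (m1 + m2)) = (1 - c) * m0 + (1 - 2 * c) * (m1 + m2) := by
    linear_combination (-(m0 + m1 + m2)) * hc2
  rw [r4] at r3
  linarith

theorem De_one (p : ZMod 6 → ℝ) : De p 1 = p 0 * p 2 + p 1 * p 3 - p 0 * p 3 := rfl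
theorem De_three (p : ZMod 6 → ℝ) : De p 3 = p 2 * p 4 + p 3 * p 5 - p 2 * p 5 := rfl
theorem De_five (p : ZMod 6 → ℝ) : De p 5 = p 4 * p 0 + p 5 * p 1 - p 4 * p 1 := rfl

theorem De_rot_one (p : ZMod 6 → ℝ) : De (fun k => p (k + 2)) 1 = De p 3 := rfl
theorem De_rot_three (p : ZMod 6 → ℝ) : De (fun k => p (k + 2)) 3 = De p 5 := rfl
theorem De_rot_five (p : ZMod 6 → ℝ) : De (fun k => p (k + 2)) 5 = De p 1 := rfl

theorem De_refl_one (p : ZMod 6 → ℝ) : De (fun k => p (3 - k)) 1 = De p 1 := by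
  have : De (fun k => p (3 - k)) 1 = p 3 * p 1 + p 2 * p 0 - p 3 * p 0 := rfl
  rw [this, De_one]; ring
theorem De_refl_three (p : ZMod 6 → ℝ) : De (fun k => p (3 - k)) 3 = De p 5 := by
  have : De (fun k => p (3 - k)) 3 = p 1 * p 5 + p 0 * p 4 - p 1 * p 4 := rfl
  rw [this, De_five]; ring
theorem De_refl_five (p : ZMod 6 → ℝ) : De (fun k => p (3 - k)) 5 = De p 3 := by
  have : De (fun k => p (3 - k)) 5 = p 5 * p 3 + p 4 * p 2 - p 5 * p 2 := rfl
  rw [this, De_three]; ring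

section core

variable {f : ZMod 6 → V} {p m : ZMod 6 → ℝ}

theorem core_miss {c : ℝ} (hc2 : c ^ 2 = 3 * c - 1) (hc : c ≤ 0.38197) (hc0 : 0.38196 ≤ c)
    (h : Cfg f p m) (hD : De p 1 ≤ 0) (h03 : p 0 ≤ p 3) : Good c m := by
  have h0 := h.pp 0
  have h1 := h.pp 1
  have h2 := h.pp 2
  have h3 := h.pp 3
  have h4 := h.pp 4
  have h5 := h.pp 5
  have c2 : p 3 ≤ p 2 + p 4 := h.pc 2
  have c3 : p 4 ≤ p 3 + p 5 := h.pc 3
  rw [De_one] at hD
  have h32 : 0 < p 3 - p 2 := by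
    have : 0 < p 0 * (p 3 - p 2) := by nlinarith [mul_pos h1 h3]
    exact (pos_iff_pos_of_mul_pos this).mp h0
  have hD2 : 0 < De p 3 := by
    rw [De_three]
    nlinarith [mul_pos h2 h4, mul_pos h32 h5]
  have u3 := h.up 3 hD2
  have tipe : tip f p 3 = ((p 4 - p 3 + p 2) / De p 3) • (-f 0) +
      ((p 3 - p 4 + p 5) / De p 3) • (-f 1) := by
    have : tip f p 3 = ((p 4 - p 3 + p 2) / De p 3) • (f 3) +
      ((p 3 - p 4 + p 5) / De p 3) • (f 4) := rfl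
    rw [this, h.f3, h.f4]
  have u3' : m 3 ≤ ‖(p 3)⁻¹ • (-f 0) - tip f p 3‖ + ‖tip f p 3 - (p 4)⁻¹ • (-f 1)‖ := by
    rw [← h.f3, ← h.f4]; exact u3
  have eA : -(p 0 / p 3) • ((p 0)⁻¹ • f 0) = (p 3)⁻¹ • (-f 0) := by
    match_scalars; field_simp
  have eC : -(p 1 / p 4) • ((p 1)⁻¹ • f 1) = (p 4)⁻¹ • (-f 1) := by
    match_scalars; field_simp
  have l0 : ‖(p 0)⁻¹ • f 0 - (p 1)⁻¹ • f 1‖ ≤ m 0 := h.lo 0
  have l1 : ‖(p 1)⁻¹ • f 1 - (p 2)⁻¹ • f 2‖ ≤ m 1 := h.lo 1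
  have l2 : ‖(p 2)⁻¹ • f 2 - (p 3)⁻¹ • f 3‖ ≤ m 2 := h.lo 2
  have tri : ‖(p 1)⁻¹ • f 1 - (p 3)⁻¹ • f 3‖ ≤ m 1 + m 2 :=
    (norm_sub_le_norm_sub_add_norm_sub _ _ _).trans (add_le_add l1 l2)
  have key := miss_core (m3 := m 3) (A := (p 0)⁻¹ • f 0) (C' := (p 1)⁻¹ • f 1) (T := tip f p 3)
    (k := p 0 / p 3) (kE := p 1 / (p 3 - p 2)) (kC := p 1 / p 4)
    (θ := (p 3 - p 2) * (p 3 - p 4 + p 5) / De p 3)
    (by positivity) (by rw [div_le_one h3]; exact h03) (by positivity)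
    (by apply div_le_div_of_nonneg_left h1.le h32; linarith)
    (by rw [div_le_div_iff₀ h32 h3]; linarith)
    (div_nonneg (mul_nonneg h32.le (by linarith)) hD2.le)
    (by
      rw [div_le_one hD2]
      have : De p 3 - (p 3 - p 2) * (p 3 - p 4 + p 5) = p 3 * (p 4 - p 3 + p 2) := by
        rw [De_three]; ring
      have := mul_nonneg h3.le (by linarith : 0 ≤ p 4 - p 3 + p 2)
      linarith)
    (by
      rw [tipe]
      have hne := hD2.ne'
      have hne2 := h32.ne'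
      match_scalars
      · field_simp
        rw [De_three]; ring
      · field_simp)
    rfl rfl (by rw [eA, eC]; exact u3')
  rw [eA, ← h.f3] at key
  have m0pos : 0 < m 0 := by
    refine lt_of_lt_of_le (norm_pos_of_ind h.ind (s := (p 0)⁻¹) (t := -(p 1)⁻¹) (by module) ?_) l0
    left; positivity
  have m12 : 0 ≤ m 1 + m 2 := le_trans (norm_nonneg _) tri
  have key2 : m 3 < (2 - c) * m 0 + (1 - c) * (m 1 + m 2) := by
    have := mul_nonneg (by linarith : 0 ≤ 0.5 - c) m12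
    have := mul_pos (by linarith : 0 < 0.5 - c) m0pos
    linarith
  rcases fin_case (m4 := m 4) (m5 := m 5) hc2 hc hc0 key2 with h | h
  · exact Or.inl h
  · exact Or.inr (Or.inr h)

theorem core_miss' {c : ℝ} (hc2 : c ^ 2 = 3 * c - 1) (hc : c ≤ 0.38197) (hc0 : 0.38196 ≤ c)
    (h : Cfg f p m) (hD : De p 1 ≤ 0) : Good c m := by
  rcases le_total (p 0) (p 3) with h03 | h03
  · exact core_miss hc2 hc hc0 h hD h03
  · exact (core_miss hc2 hc hc0 h.refl (by rw [De_refl_one]; exact hD) h03).of_refl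

theorem core_main {c : ℝ} (hc2 : c ^ 2 = 3 * c - 1) (hc : c ≤ 0.38197) (hc0 : 0.38196 ≤ c)
    (h : Cfg f p m) (hD : 0 < De p 1) (hD15 : De p 1 ≤ De p 5) (hD53 : De p 5 ≤ De p 3) :
    Good c m := by
  have h0 := h.pp 0
  have h1 := h.pp 1
  have h2 := h.pp 2
  have h3 := h.pp 3
  have h4 := h.pp 4
  have h5 := h.pp 5
  have c0 : p 1 ≤ p 0 + p 2 := h.pc 0
  have c1 : p 2 ≤ p 1 + p 3 := h.pc 1
  have c2 : p 3 ≤ p 2 + p 4 := h.pc 2
  have c3 : p 4 ≤ p 3 + p 5 := h.pc 3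
  have c4 : p 5 ≤ p 4 + p 0 := h.pc 4
  have c5 : p 0 ≤ p 5 + p 1 := h.pc 5
  have d1 : 0 < De p 1 := hD
  have d3 : 0 < De p 5 := by linarith
  have d2 : 0 < De p 3 := by linarith
  have l0 : ‖(p 0)⁻¹ • f 0 - (p 1)⁻¹ • f 1‖ ≤ m 0 := h.lo 0
  have l1 : ‖(p 1)⁻¹ • f 1 - (p 2)⁻¹ • f 2‖ ≤ m 1 := h.lo 1
  have l2 : ‖(p 2)⁻¹ • f 2 - (p 3)⁻¹ • f 3‖ ≤ m 2 := h.lo 2
  have l4 : ‖(p 4)⁻¹ • f 4 - (p 5)⁻¹ • f 5‖ ≤ m 4 := h.lo 4
  have u1 : m 1 ≤ ‖(p 1)⁻¹ • f 1 - tip f p 1‖ + ‖tip f p 1 - (p 2)⁻¹ • f 2‖ := h.up 1 d1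
  have u3 : m 3 ≤ ‖(p 3)⁻¹ • f 3 - tip f p 3‖ + ‖tip f p 3 - (p 4)⁻¹ • f 4‖ := h.up 3 d2
  have u5 : m 5 ≤ ‖(p 5)⁻¹ • f 5 - tip f p 5‖ + ‖tip f p 5 - (p 0)⁻¹ • f 0‖ := h.up 5 d3
  have t1 : tip f p 1 = ((p 2 - p 1 + p 0) / De p 1) • f 1 +
      ((p 1 - p 2 + p 3) / De p 1) • (f 1 - f 0) := by
    rw [← h.f2]; rfl
  have t2 : tip f p 3 = ((p 4 - p 3 + p 2) / De p 3) • (-f 0) +
      ((p 3 - p 4 + p 5) / De p 3) • (-f 1) := by
    rw [← h.f3, ← h.f4]; rfl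
  have t3 : tip f p 5 = ((p 0 - p 5 + p 4) / De p 5) • (f 0 - f 1) +
      ((p 5 - p 0 + p 1) / De p 5) • f 0 := by
    rw [← h.f5]; rfl
  rw [h.f2] at l1 l2 u1
  rw [h.f3] at l2 u3
  rw [h.f4] at l4 u3
  rw [h.f5] at l4 u5
  have hS : 0 < De p 1 + De p 3 + De p 5 := by positivity
  set x := De p 3 / (De p 1 + De p 3 + De p 5) with hx
  set y := De p 5 / (De p 1 + De p 3 + De p 5) with hy
  set z := De p 1 / (De p 1 + De p 3 + De p 5) with hz
  have hxyz : x + y + z = 1 := by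
    rw [hx, hy, hz]; field_simp; ring
  have hzpos : 0 < z := by positivity
  have hzy : z ≤ y := by
    rw [hz, hy]; exact div_le_div_of_nonneg_right hD15 hS.le
  have hyx : y ≤ x := by
    rw [hx, hy]; exact div_le_div_of_nonneg_right hD53 hS.le
  rcases NI hc2 hc hc0 hxyz hzpos hzy hyx with ⟨q1, q2⟩ | ⟨a, b, e, ha, hb, he, hs, hac, hbc, hec,
    rx, ry, rz, rxz⟩
  · rcases main_v (m4 := m 4) (m5 := m 5) hc2 hc hc0 h.ind h0 h1 h2 h3 h4 h5 c4 c1 c2 c3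
      (De_one p) (De_three p) (De_five p) d1 d2 d3 l0 l1 l2 t2 u3 hx hz q1 q2 with h | h
    · exact Or.inl h
    · exact Or.inr (Or.inr h)
  · exact good_of_avg he ha hb hs (main_rows hc hc0 h.ind h0 h1 h2 h3 h4 h5 c4 c1 c2 c3 c0 c5
      (De_one p) (De_three p) (De_five p) d1 d2 d3 l0 l1 l2 l4 t1 t2 t3 u1 u3 u5 hx hy hz hyx
      ha hb he hs hac hbc hec rx ry rz rxz)

theorem core_min {c : ℝ} (hc2 : c ^ 2 = 3 * c - 1) (hc : c ≤ 0.38197) (hc0 : 0.38196 ≤ c)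
    (h : Cfg f p m) (hD : 0 < De p 1) (hD15 : De p 1 ≤ De p 5) (hD13 : De p 1 ≤ De p 3) :
    Good c m := by
  rcases le_total (De p 5) (De p 3) with h53 | h53
  · exact core_main hc2 hc hc0 h hD hD15 h53
  · exact (core_main hc2 hc hc0 h.refl (by rw [De_refl_one]; exact hD)
      (by rw [De_refl_one, De_refl_five]; exact hD13)
      (by rw [De_refl_three, De_refl_five]; exact h53)).of_refl

/-- the core inequality -/
theorem core {c : ℝ} (hc2 : c ^ 2 = 3 * c - 1) (hc : c ≤ 0.38197) (hc0 : 0.38196 ≤ c)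
    (h : Cfg f p m) : Good c m := by
  by_cases h1 : De p 1 ≤ 0
  · exact core_miss' hc2 hc hc0 h h1
  by_cases h3 : De p 3 ≤ 0
  · exact (core_miss' hc2 hc hc0 h.rot (by rw [De_rot_one]; exact h3)).of_rot
  by_cases h5 : De p 5 ≤ 0
  · exact (core_miss' hc2 hc hc0 h.rot.rot (by
      have : De (fun k => (fun k => p (k + 2)) (k + 2)) 1 = De p 5 := rfl
      rw [this]; exact h5)).of_rot.of_rot
  push Not at h1 h3 h5
  have key : ∀ (f : ZMod 6 → V) (p m : ZMod 6 → ℝ), Cfg f p m → 0 < De p 1 →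
      De p 1 ≤ De p 3 → De p 1 ≤ De p 5 → Good c m := fun f p m h q1 q2 q3 =>
    core_min hc2 hc hc0 h q1 q3 q2
  rcases le_total (De p 1) (De p 3) with h13 | h13
  · rcases le_total (De p 1) (De p 5) with h15 | h15
    · exact key f p m h h1 h13 h15
    · exact (key _ _ _ h.rot.rot h5 h15 (h15.trans h13)).of_rot.of_rot
  · rcases le_total (De p 3) (De p 5) with h35 | h35
    · exact (key _ _ _ h.rot h3 h35 h13).of_rot
    · exact (key _ _ _ h.rot.rot h5 (h35.trans h13) h35).of_rot.of_rot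

end core

end Pool.Agent.Helper514.Neu
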