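import Mathlib

set_option autoImplicit false

open MeasureTheory MeasureTheory.Measure Set
open scoped ENNReal NNReal

namespace Pool.Agent.Helper514.Neu

/-- a preconnected set containing two points has length at least their distance -/
theorem le_hausdorff_of_preconnected {X : Type*} [MetricSpace X] [MeasurableSpace X] [BorelSpace X]
    {A : Set X} (hA : IsPreconnected A) {u v : X} (hu : u ∈ A) (hv : v ∈ A) :
    edist u v ≤ μH[1] A := by
  have hL : LipschitzWith 1 (fun y : X => dist u y) := LipschitzWith.dist_right u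
  have h1 := hL.hausdorffMeasure_image_le (d := 1) zero_le_one A
  have h2 : Icc 0 (dist u v) ⊆ (fun y : X => dist u y) '' A := by
    have h3 : IsPreconnected ((fun y : X => dist u y) '' A) :=
      hA.image _ hL.continuous.continuousOn
    apply h3.Icc_subset
    · exact ⟨u, hu, dist_self u⟩
    · exact ⟨v, hv, rfl⟩
  have h3 : μH[1] (Icc 0 (dist u v)) ≤ μH[1] ((fun y : X => dist u y) '' A) := measure_mono h2
  rw [hausdorffMeasure_real, Real.volume_Icc, sub_zero, ← edist_dist] at h3
  rw [ENNReal.coe_one, ENNReal.one_rpow, one_mul, hausdorffMeasure_real] at h1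
  exact h3.trans h1

/-- comparison of lengths through outward normals -/
theorem hausdorff_le_of_normals {E : Type*} [NormedAddCommGroup E] [InnerProductSpace ℝ E]
    [MeasurableSpace E] [BorelSpace E] {S W C : Set E} (hSC : S ⊆ C)
    (h : ∀ y ∈ S, ∃ w ∈ W, ∀ z ∈ C, inner ℝ (w - y) (z - y) ≤ 0) : μH[1] S ≤ μH[1] W := by
  choose! w hw hn using h
  let g : S → E := fun y => w y
  have hg : AntilipschitzWith 1 g := by
    apply AntilipschitzWith.of_le_mul_dist
    rintro ⟨y, hy⟩ ⟨z, hz⟩
    have h1 := hn y hy z (hSC hz)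
    have h2 := hn z hz y (hSC hy)
    have h3 : inner ℝ (w y - w z) (y - z) - ‖y - z‖ ^ 2 =
        -(inner ℝ (w y - y) (z - y)) - inner ℝ (w z - z) (y - z) := by
      have e1 : z - y = -(y - z) := by abel
      have e2 : w y - w z = (w y - y) - (w z - z) + (y - z) := by abel
      rw [e1, inner_neg_right, e2, inner_add_left, inner_sub_left, real_inner_self_eq_norm_sq]
      ring
    have h4 : ‖y - z‖ ^ 2 ≤ ‖w y - w z‖ * ‖y - z‖ := by
      have := real_inner_le_norm (w y - w z) (y - z)
      linarith
    rw [NNReal.coe_one, one_mul, Subtype.dist_eq]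
    change dist y z ≤ dist (w y) (w z)
    rw [dist_eq_norm, dist_eq_norm]
    rcases (norm_nonneg (y - z)).eq_or_lt with h5 | h5
    · rw [← h5]; exact norm_nonneg _
    · rw [sq] at h4
      exact le_of_mul_le_mul_right h4 h5
  have h1 := hg.le_hausdorffMeasure_image (d := 1) zero_le_one univ
  rw [ENNReal.coe_one, ENNReal.one_rpow, one_mul] at h1
  have h2 : g '' univ ⊆ W := by
    rintro _ ⟨⟨y, hy⟩, -, rfl⟩
    exact hw y hy
  have h3 : μH[1] (univ : Set S) = μH[1] S := by
    have := (isometry_subtype_coe (s := S)).hausdorffMeasure_image (d := 1) (Or.inl zero_le_one) univ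
    rw [← this, image_univ, Subtype.range_coe]
  rw [← h3]
  exact h1.trans (measure_mono h2)

end Pool.Agent.Helper514.Neu
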