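import Pool.Agent.Helper514.Neu.MeasA

set_option autoImplicit false

open MeasureTheory MeasureTheory.Measure Set
open scoped ENNReal NNReal Topology

namespace Pool.Agent.Helper514.Neu

variable {E : Type*} [NormedAddCommGroup E] [InnerProductSpace ℝ E]

/-- convex compact with the origin inside -/
structure Bd (K : Set E) : Prop where
  cv : Convex ℝ K
  cp : IsCompact K
  zi : (0 : E) ∈ interior K

namespace Bd

variable {K : Set E}

theorem nh (h : Bd K) : K ∈ 𝓝 (0 : E) := mem_interior_iff_mem_nhds.1 h.zi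

theorem ab (h : Bd K) : Absorbent ℝ K := absorbent_nhds_zero h.nh

theorem cont (h : Bd K) : Continuous (gauge K) := continuous_gauge h.cv h.nh

theorem pos (h : Bd K) {x : E} (hx : x ≠ 0) : 0 < gauge K x :=
  (gauge_pos h.ab (h.cp.isVonNBounded ℝ)).2 hx

theorem fr (h : Bd K) {x : E} : x ∈ frontier K ↔ gauge K x = 1 :=
  (gauge_eq_one_iff_mem_frontier h.cv h.nh).symm

theorem mem (h : Bd K) {x : E} : x ∈ K ↔ gauge K x ≤ 1 := by
  rw [gauge_le_one_iff_mem_closure h.cv h.nh, h.cp.isClosed.closure_eq]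

theorem fr_sub (h : Bd K) : frontier K ⊆ K := h.cp.isClosed.frontier_subset

theorem sm {a : ℝ} (ha : 0 ≤ a) (x : E) : gauge K (a • x) = a * gauge K x := by
  rw [gauge_smul_of_nonneg ha, smul_eq_mul]

theorem add (h : Bd K) (x y : E) : gauge K (x + y) ≤ gauge K x + gauge K y :=
  gauge_add_le h.cv h.ab x y

theorem pt_fr (h : Bd K) {x : E} (hx : x ≠ 0) : (gauge K x)⁻¹ • x ∈ frontier K := by
  have := h.pos hx
  rw [h.fr, sm (by positivity), inv_mul_cancel₀ this.ne']

/-- outward normal at a frontier point -/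
theorem normal [FiniteDimensional ℝ E] (h : Bd K) {y : E} (hy : y ∈ frontier K) :
    ∃ ν : E, ν ≠ 0 ∧ ∀ z ∈ K, inner ℝ ν (z - y) ≤ 0 := by
  obtain ⟨f, hf⟩ := geometric_hahn_banach_open_point (x := y) h.cv.interior isOpen_interior
    (by rw [h.fr] at hy; rw [← gauge_lt_one_iff_mem_interior h.cv h.nh]; linarith)
  refine ⟨(InnerProductSpace.toDual ℝ E).symm f, ?_, ?_⟩
  · intro h0
    have h1 := hf 0 h.zi
    have h2 : ∀ x, f x = 0 := by
      intro x
      rw [← InnerProductSpace.toDual_symm_apply (𝕜 := ℝ) (y := f), h0, inner_zero_left]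
    rw [h2, h2] at h1
    exact lt_irrefl _ h1
  · intro z hz
    rw [InnerProductSpace.toDual_symm_apply, map_sub, sub_nonpos]
    have h1 : closure (interior K) ⊆ {z | f z ≤ f y} := by
      apply closure_minimal
      · intro a ha; exact (hf a ha).le
      · exact isClosed_le f.continuous continuous_const
    rw [h.cv.closure_interior_eq_closure_of_nonempty_interior ⟨0, h.zi⟩] at h1
    exact h1 (subset_closure hz)

end Bd

variable [MeasurableSpace E] [BorelSpace E]

/-- lower bound for an arc -/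
theorem arc_ge {K : Set E} (h : Bd K) {u v : E}
    (hind : ∀ s t : ℝ, s • u + t • v = 0 → s = 0 ∧ t = 0) :
    edist ((gauge K u)⁻¹ • u) ((gauge K v)⁻¹ • v) ≤
      μH[1] (frontier K ∩ {y | ∃ s t : ℝ, 0 ≤ s ∧ 0 ≤ t ∧ y = s • u + t • v}) := by
  set q : ℝ → E := fun θ => (1 - θ) • u + θ • v with hq
  have hq0 : ∀ θ, q θ ≠ 0 := by
    intro θ h0
    have := hind _ _ h0
    linarith [this.1, this.2]
  have hqc : Continuous q := by fun_prop
  set γ : ℝ → E := fun θ => (gauge K (q θ))⁻¹ • q θ with hγ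
  have hγc : Continuous γ := by
    refine Continuous.smul ?_ hqc
    exact (h.cont.comp hqc).inv₀ (fun θ => (h.pos (hq0 θ)).ne')
  have hpre : IsPreconnected (γ '' Icc (0 : ℝ) 1) :=
    isPreconnected_Icc.image _ hγc.continuousOn
  have h0 : (gauge K u)⁻¹ • u ∈ γ '' Icc (0 : ℝ) 1 := ⟨0, by simp, by simp [hγ, hq]⟩
  have h1 : (gauge K v)⁻¹ • v ∈ γ '' Icc (0 : ℝ) 1 := ⟨1, by simp, by simp [hγ, hq]⟩
  refine (le_hausdorff_of_preconnected hpre h0 h1).trans (measure_mono ?_)
  rintro _ ⟨θ, ⟨hθ0, hθ1⟩, rfl⟩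
  have hp := h.pos (hq0 θ)
  refine ⟨h.pt_fr (hq0 θ), (gauge K (q θ))⁻¹ * (1 - θ), (gauge K (q θ))⁻¹ * θ, ?_, ?_, ?_⟩
  · exact mul_nonneg (by positivity) (by linarith)
  · exact mul_nonneg (by positivity) (by linarith)
  · simp only [hγ, hq, smul_add, smul_smul]

theorem edge {p q a b σ τ D : ℝ} (hp : 0 < p) (hD : 0 < D) (hDd : D = a * q + p * b - a * b)
    (hn : σ * p + τ * (p - a) = 1) (hn2 : σ * (q - b) + τ * q ≤ 1) (hτ : 0 ≤ τ) :
    ∃ θ, 0 ≤ θ ∧ θ ≤ 1 ∧ σ = (1 - θ) * p⁻¹ + θ * ((q - p + a) / D) ∧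
      τ = θ * ((p - q + b) / D) := by
  have hσ : σ = (1 - τ * (p - a)) / p := by
    rw [eq_div_iff hp.ne']; linarith
  -- τ * D ≤ p - q + b
  have h1 : τ * D ≤ p - q + b := by
    have h2 : p * (σ * (q - b) + τ * q) ≤ p * 1 := mul_le_mul_of_nonneg_left hn2 hp.le
    have h3 : p * (σ * (q - b) + τ * q) = (1 - τ * (p - a)) * (q - b) + τ * q * p := by
      rw [hσ]; field_simp
    rw [h3] at h2
    rw [hDd]; nlinarith
  rcases hτ.eq_or_lt with h0 | h0
  · refine ⟨0, le_refl _, zero_le_one, ?_, ?_⟩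
    · rw [hσ, ← h0]; field_simp; ring
    · rw [← h0]; ring
  · have hβ : 0 < p - q + b := lt_of_lt_of_le (mul_pos h0 hD) h1
    refine ⟨τ * D / (p - q + b), by positivity, by rw [div_le_one hβ]; exact h1, ?_, ?_⟩
    · rw [hσ]
      field_simp
      rw [hDd]; ring
    · field_simp

/-- upper bound for an arc -/
theorem arc_le [FiniteDimensional ℝ E] {K : Set E} (h : Bd K) {u v T : E} {s t : E →ₗ[ℝ] ℝ}
    (hst : ∀ y, y = s y • u + t y • v) (hsu : s u = 1) (hsv : s v = 0) (htu : t u = 0)
    (htv : t v = 1) {p q a b D : ℝ} (hp : p = gauge K u) (hq : q = gauge K v)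
    (ha : a = gauge K (u - v)) (hb : b = gauge K (v - u)) (hD : 0 < D)
    (hDd : D = a * q + p * b - a * b)
    (hT : T = ((q - p + a) / D) • u + ((p - q + b) / D) • v) :
    μH[1] (frontier K ∩ {y | 0 ≤ s y ∧ 0 ≤ t y}) ≤
      ENNReal.ofReal (‖p⁻¹ • u - T‖ + ‖T - q⁻¹ • v‖) := by
  have hu : u ≠ 0 := by rintro rfl; simp at hsu
  have hv : v ≠ 0 := by rintro rfl; simp at htv
  have hp0 : 0 < p := hp ▸ h.pos hu
  have hq0 : 0 < q := hq ▸ h.pos hv
  have ha0 : 0 ≤ a := ha ▸ gauge_nonneg _
  have hb0 : 0 ≤ b := hb ▸ gauge_nonneg _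
  -- the two constraints
  have hna : ∀ y ∈ K, 0 ≤ t y → 0 ≤ s y → s y * p + t y * (p - a) ≤ 1 := by
    intro y hy ht hs
    have e : (s y + t y) • u = y + t y • (u - v) := by
      conv_rhs => rw [hst y]
      simp only [map_add, map_smul, smul_eq_mul, hsu, hsv, htu, htv]
      module
    have h1 := h.add y (t y • (u - v))
    rw [← e, Bd.sm (by linarith), Bd.sm ht, ← hp, ← ha] at h1
    have h2 := h.mem.1 hy
    linarith
  have hnb : ∀ y ∈ K, 0 ≤ t y → 0 ≤ s y → s y * (q - b) + t y * q ≤ 1 := by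
    intro y hy ht hs
    have e : (s y + t y) • v = y + s y • (v - u) := by
      conv_rhs => rw [hst y]
      simp only [map_add, map_smul, smul_eq_mul, hsu, hsv, htu, htv]
      module
    have h1 := h.add y (s y • (v - u))
    rw [← e, Bd.sm (by linarith), Bd.sm hs, ← hq, ← hb] at h1
    have h2 := h.mem.1 hy
    linarith
  have key : μH[1] (frontier K ∩ {y | 0 ≤ s y ∧ 0 ≤ t y}) ≤
      μH[1] (segment ℝ (p⁻¹ • u) T ∪ segment ℝ T (q⁻¹ • v)) := by
    apply hausdorff_le_of_normals (C := K) (fun y hy => h.fr_sub hy.1)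
    rintro y ⟨hyf, hys, hyt⟩
    have hyK := h.fr_sub hyf
    obtain ⟨ν, hν, hn⟩ := h.normal hyf
    set F : ℝ → ℝ := fun r => max (max (-(s y + r * s ν)) (-(t y + r * t ν)))
      (max ((s y + r * s ν) * p + (t y + r * t ν) * (p - a) - 1)
        ((s y + r * s ν) * (q - b) + (t y + r * t ν) * q - 1)) with hF
    have hFc : Continuous F := by fun_prop
    have hF0 : F 0 ≤ 0 := by
      simp only [hF, zero_mul, add_zero]
      have k1 := hna y hyK hyt hys
      have k2 := hnb y hyK hyt hys
      refine max_le (max_le (by linarith) (by linarith)) (max_le (by linarith) (by linarith))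
    have hFR : ∃ R, 0 ≤ R ∧ 0 < F R := by
      by_contra hcon
      push Not at hcon
      have hall : ∀ R, 0 ≤ R → 0 ≤ s y + R * s ν ∧ 0 ≤ t y + R * t ν ∧
          (s y + t y) + R * (s ν + t ν) ≤ (a + b) / D := by
        intro R hR
        have h1 := hcon R hR
        simp only [hF, max_le_iff] at h1
        obtain ⟨⟨k1, k2⟩, k3, k4⟩ := h1
        refine ⟨by linarith, by linarith, ?_⟩
        rw [le_div_iff₀ hD, hDd]
        have m1 := mul_le_mul_of_nonneg_left (sub_nonpos.1 k3) hb0
        have m2 := mul_le_mul_of_nonneg_left (sub_nonpos.1 k4) ha0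
        nlinarith
      have hlin : ∀ A B : ℝ, (∀ R, 0 ≤ R → 0 ≤ A + R * B) → 0 ≤ B := by
        intro A B hAB
        by_contra hB
        push Not at hB
        have hR : 0 ≤ (|A| + 1) / (-B) := div_nonneg (by positivity) (by linarith)
        have := hAB _ hR
        have e : (|A| + 1) / (-B) * B = -(|A| + 1) := by
          have hBne : B ≠ 0 := hB.ne
          field_simp
        rw [e] at this
        linarith [le_abs_self A]
      have b1 : 0 ≤ s ν := hlin (s y) _ (fun R hR => (hall R hR).1)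
      have b2 : 0 ≤ t ν := hlin (t y) _ (fun R hR => (hall R hR).2.1)
      have b3 : 0 ≤ -(s ν + t ν) := hlin ((a + b) / D - (s y + t y)) _ (fun R hR => by
        linarith [(hall R hR).2.2])
      apply hν
      rw [hst ν, show s ν = 0 by linarith, show t ν = 0 by linarith]
      simp
    obtain ⟨R, hR, hFR⟩ := hFR
    obtain ⟨r, ⟨hr0, -⟩, hr⟩ := intermediate_value_Icc hR hFc.continuousOn ⟨hF0, hFR.le⟩
    set w := y + r • ν with hw
    have hsw : s w = s y + r * s ν := by rw [hw, map_add, map_smul, smul_eq_mul]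
    have htw : t w = t y + r * t ν := by rw [hw, map_add, map_smul, smul_eq_mul]
    simp only [hF, ← hsw, ← htw] at hr
    have hle := hr.le
    simp only [max_le_iff] at hle
    obtain ⟨⟨k1, k2⟩, k3, k4⟩ := hle
    have hnw : ∀ z ∈ K, inner ℝ (w - y) (z - y) ≤ 0 := by
      intro z hz
      have : w - y = r • ν := by rw [hw]; abel
      rw [this, inner_smul_left]
      exact mul_nonpos_of_nonneg_of_nonpos hr0 (hn z hz)
    have hwK : w ∈ K → w = y := by
      intro hwK
      have h1 := hnw w hwK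
      rw [real_inner_self_eq_norm_sq] at h1
      have h2 : ‖w - y‖ = 0 := by
        have := sq_nonneg ‖w - y‖
        exact pow_eq_zero_iff (two_ne_zero) |>.1 (le_antisymm h1 this)
      rwa [norm_sub_eq_zero_iff] at h2
    refine ⟨w, ?_, hnw⟩
    have hge := hr.ge
    simp only [le_max_iff] at hge
    rcases hge with (h1 | h1) | (h1 | h1)
    · -- s w = 0
      have hs0 : s w = 0 := by linarith
      have hwv : w = t w • v := by
        conv_lhs => rw [hst w, hs0]
        simp
      have ht0 : 0 ≤ t w := by linarith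
      have hg : gauge K w = t w * q := by
        rw [hq, ← Bd.sm ht0, ← hwv]
      have hwy := hwK (h.mem.2 (by rw [hg]; rw [hs0] at k4; linarith))
      have hg1 : t w * q = 1 := by
        rw [← hg, hwy]; exact h.fr.1 hyf
      right
      have : w = q⁻¹ • v := by
        rw [hwv]; congr 1; field_simp; exact hg1
      rw [this]; exact right_mem_segment _ _ _
    · have hs0 : t w = 0 := by linarith
      have hwv : w = s w • u := by
        conv_lhs => rw [hst w, hs0]
        simp
      have ht0 : 0 ≤ s w := by linarith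
      have hg : gauge K w = s w * p := by
        rw [hp, ← Bd.sm ht0, ← hwv]
      have hwy := hwK (h.mem.2 (by rw [hg]; rw [hs0] at k3; linarith))
      have hg1 : s w * p = 1 := by
        rw [← hg, hwy]; exact h.fr.1 hyf
      left
      have : w = p⁻¹ • u := by
        rw [hwv]; congr 1; field_simp; exact hg1
      rw [this]; exact left_mem_segment _ _ _
    · left
      obtain ⟨θ, hθ0, hθ1, e1, e2⟩ := edge (σ := s w) (τ := t w) hp0 hD hDd (by linarith)
        (by linarith) (by linarith : 0 ≤ t w)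
      refine ⟨1 - θ, θ, by linarith, hθ0, by ring, ?_⟩
      rw [hst w, e1, e2, hT]
      module
    · right
      obtain ⟨θ, hθ0, hθ1, e1, e2⟩ := edge (p := q) (q := p) (a := b) (b := a) (σ := t w) (τ := s w)
        hq0 hD
        (by rw [hDd]; ring) (by linarith) (by linarith) (by linarith : 0 ≤ s w)
      refine ⟨θ, 1 - θ, hθ0, by linarith, by ring, ?_⟩
      rw [hst w, e1, e2, hT]
      module
  refine key.trans ((measure_union_le _ _).trans ?_)
  rw [hausdorffMeasure_segment, hausdorffMeasure_segment,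
    ENNReal.ofReal_add (norm_nonneg _) (norm_nonneg _), edist_dist, edist_dist, dist_eq_norm,
    dist_eq_norm]

end Pool.Agent.Helper514.Neu
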