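import Pool.Agent.Helper514.Neu.MeasB
import Pool.Agent.Helper514.Neu.CoreD

set_option autoImplicit false

open MeasureTheory MeasureTheory.Measure Set
open scoped ENNReal NNReal Topology

namespace Pool.Agent.Helper514.Neu

variable {E : Type*} [NormedAddCommGroup E] [InnerProductSpace ℝ E]
  [MeasurableSpace E] [BorelSpace E]

theorem null_line {K : Set E} (h : Bd K) (d : E) :
    μH[1] (frontier K ∩ {y | ∃ a : ℝ, y = a • d}) = 0 := by
  have hfin : (frontier K ∩ {y | ∃ a : ℝ, y = a • d}) ⊆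
      {(gauge K d)⁻¹ • d, (gauge K (-d))⁻¹ • (-d)} := by
    rintro y ⟨hy, a, rfl⟩
    rw [h.fr] at hy
    rcases le_total 0 a with ha | ha
    · left
      rw [Bd.sm ha] at hy
      have : a = (gauge K d)⁻¹ := eq_inv_of_mul_eq_one_left hy
      rw [this]
    · right
      have e : a • d = (-a) • (-d) := by module
      rw [e, Bd.sm (by linarith)] at hy
      have : -a = (gauge K (-d))⁻¹ := eq_inv_of_mul_eq_one_left hy
      rw [e, this]
      rfl
  refine measure_mono_null hfin ?_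
  haveI := nullSingletonClass_hausdorff (X := E) (d := 1) one_pos
  exact (Set.toFinite _).measure_zero _

theorem fin_len [FiniteDimensional ℝ E] {K : Set E} (h : Bd K) {u v : E} {s t : E →ₗ[ℝ] ℝ}
    (hst : ∀ y, y = s y • u + t y • v) : μH[1] (frontier K) < ∞ := by
  have hsc : Continuous s := s.continuous_of_finiteDimensional
  have htc : Continuous t := t.continuous_of_finiteDimensional
  obtain ⟨R1, hR1⟩ := h.cp.exists_bound_of_continuousOn hsc.continuousOn
  obtain ⟨R2, hR2⟩ := h.cp.exists_bound_of_continuousOn htc.continuousOn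
  obtain ⟨R, hRR⟩ : ∃ R, ∀ y ∈ K, |s y| < R ∧ |t y| < R := by
    refine ⟨max R1 R2 + 1, fun y hy => ⟨?_, ?_⟩⟩
    · have := hR1 y hy
      rw [Real.norm_eq_abs] at this
      linarith [le_max_left R1 R2]
    · have := hR2 y hy
      rw [Real.norm_eq_abs] at this
      linarith [le_max_right R1 R2]
  have hR0 : 0 < R := by
    have := (hRR 0 (interior_subset h.zi)).1
    rw [map_zero, abs_zero] at this
    exact this
  set W := (segment ℝ (R • u + (-R) • v) (R • u + R • v) ∪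
    segment ℝ ((-R) • u + (-R) • v) ((-R) • u + R • v)) ∪
    (segment ℝ ((-R) • u + R • v) (R • u + R • v) ∪
    segment ℝ ((-R) • u + (-R) • v) (R • u + (-R) • v)) with hW
  have hWf : μH[1] W < ∞ := by
    refine (measure_union_le _ _).trans_lt (ENNReal.add_lt_top.2 ⟨?_, ?_⟩) <;>
    refine (measure_union_le _ _).trans_lt (ENNReal.add_lt_top.2 ⟨?_, ?_⟩) <;>
    · rw [hausdorffMeasure_segment]; exact edist_lt_top _ _
  refine lt_of_le_of_lt (hausdorff_le_of_normals (C := K) h.fr_sub ?_) hWf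
  intro y hyf
  have hyK := h.fr_sub hyf
  obtain ⟨ν, hν, hn⟩ := h.normal hyf
  set F : ℝ → ℝ := fun r => max |s y + r * s ν| |t y + r * t ν| with hF
  have hFc : Continuous F := by fun_prop
  have hF0 : F 0 ≤ R := by
    simp only [hF, zero_mul, add_zero]
    exact max_le (hRR y hyK).1.le (hRR y hyK).2.le
  have hFR : ∃ r, 0 ≤ r ∧ R ≤ F r := by
    by_cases h1 : s ν = 0
    · have h2 : t ν ≠ 0 := by
        intro h2
        apply hν
        rw [hst ν, h1, h2]; simp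
      refine ⟨2 * R / |t ν|, by positivity, le_max_of_le_right ?_⟩
      have e1 : |2 * R / |t ν| * t ν| = 2 * R := by
        rw [abs_mul, abs_div, abs_abs, abs_of_pos (by linarith : 0 < 2 * R)]
        have : |t ν| ≠ 0 := abs_ne_zero.2 h2
        field_simp
      have := abs_sub_abs_le_abs_sub (2 * R / |t ν| * t ν) (-(t y))
      rw [e1, abs_neg, sub_neg_eq_add, add_comm _ (t y)] at this
      linarith [(hRR y hyK).2]
    · refine ⟨2 * R / |s ν|, by positivity, le_max_of_le_left ?_⟩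
      have e1 : |2 * R / |s ν| * s ν| = 2 * R := by
        rw [abs_mul, abs_div, abs_abs, abs_of_pos (by linarith : 0 < 2 * R)]
        have : |s ν| ≠ 0 := abs_ne_zero.2 h1
        field_simp
      have := abs_sub_abs_le_abs_sub (2 * R / |s ν| * s ν) (-(s y))
      rw [e1, abs_neg, sub_neg_eq_add, add_comm _ (s y)] at this
      linarith [(hRR y hyK).1]
  obtain ⟨r', hr', hFr⟩ := hFR
  obtain ⟨r, ⟨hr0, -⟩, hr⟩ := intermediate_value_Icc hr' hFc.continuousOn ⟨hF0, hFr⟩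
  set w := y + r • ν with hw
  have hsw : s w = s y + r * s ν := by rw [hw, map_add, map_smul, smul_eq_mul]
  have htw : t w = t y + r * t ν := by rw [hw, map_add, map_smul, smul_eq_mul]
  simp only [hF, ← hsw, ← htw] at hr
  have hnw : ∀ z ∈ K, inner ℝ (w - y) (z - y) ≤ 0 := by
    intro z hz
    have : w - y = r • ν := by rw [hw]; abel
    rw [this, inner_smul_left]
    exact mul_nonpos_of_nonneg_of_nonpos hr0 (hn z hz)
  refine ⟨w, ?_, hnw⟩
  have hseg : ∀ σ : ℝ, |σ| ≤ R → ∃ θ, 0 ≤ θ ∧ θ ≤ 1 ∧ σ = (1 - θ) * (-R) + θ * R := by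
    intro σ hσ
    have := abs_le.1 hσ
    refine ⟨(σ + R) / (2 * R), div_nonneg (by linarith) (by linarith), ?_, by field_simp; ring⟩
    rw [div_le_one (by linarith)]; linarith
  have hle := hr.le
  simp only [max_le_iff] at hle
  obtain ⟨k1, k2⟩ := hle
  have hge := hr.ge
  simp only [le_max_iff] at hge
  rcases hge with h1 | h1
  · left
    have h2 : |s w| = R := le_antisymm k1 h1
    obtain ⟨θ, hθ0, hθ1, hθ⟩ := hseg (t w) k2
    rcases eq_or_eq_neg_of_abs_eq h2 with h3 | h3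
    · left
      refine ⟨1 - θ, θ, by linarith, hθ0, by ring, ?_⟩
      rw [hst w, h3, hθ]; module
    · right
      refine ⟨1 - θ, θ, by linarith, hθ0, by ring, ?_⟩
      rw [hst w, h3, hθ]; module
  · right
    have h2 : |t w| = R := le_antisymm k2 h1
    obtain ⟨θ, hθ0, hθ1, hθ⟩ := hseg (s w) k1
    rcases eq_or_eq_neg_of_abs_eq h2 with h3 | h3
    · left
      refine ⟨1 - θ, θ, by linarith, hθ0, by ring, ?_⟩
      rw [hst w, h3, hθ]; module
    · right
      refine ⟨1 - θ, θ, by linarith, hθ0, by ring, ?_⟩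
      rw [hst w, h3, hθ]; module

/-- hexagonal frame -/
structure Hex (f : ZMod 6 → E) (g : ZMod 6 → (E →ₗ[ℝ] ℝ)) : Prop where
  fadd : ∀ k, f (k + 1) = f k + f (k + 2)
  gadd : ∀ k y, g (k + 1) y = g k y + g (k + 2) y
  dec : ∀ k y, y = (-(g (k + 1) y)) • f k + g k y • f (k + 1)
  g0 : ∀ k, g k (f k) = 0
  g1 : ∀ k, g k (f (k + 1)) = 1
  gm : ∀ k, g (k + 1) (f k) = -1

/-- boundary sector -/
def Sec (K : Set E) (g : ZMod 6 → (E →ₗ[ℝ] ℝ)) (k : ZMod 6) : Set E :=
  frontier K ∩ {y | g (k + 1) y ≤ 0 ∧ 0 ≤ g k y}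

namespace Hex

variable {K : Set E} {f : ZMod 6 → E} {g : ZMod 6 → (E →ₗ[ℝ] ℝ)}

theorem ind (hx : Hex f g) (k : ZMod 6) (s t : ℝ) (h : s • f k + t • f (k + 1) = 0) :
    s = 0 ∧ t = 0 := by
  have h1 : g k (s • f k + t • f (k + 1)) = 0 := by rw [h, map_zero]
  have h2 : g (k + 1) (s • f k + t • f (k + 1)) = 0 := by rw [h, map_zero]
  rw [map_add, map_smul, map_smul, hx.g0, hx.g1, smul_eq_mul, smul_eq_mul] at h1
  rw [map_add, map_smul, map_smul, hx.gm, hx.g0, smul_eq_mul, smul_eq_mul] at h2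
  constructor <;> linarith

theorem fne (hx : Hex f g) (k : ZMod 6) : f k ≠ 0 := by
  intro h
  have := hx.gm k
  rw [h, map_zero] at this
  norm_num at this

theorem null [FiniteDimensional ℝ E] (hx : Hex f g) (h : Bd K) (k : ZMod 6) {A : Set E}
    (hA : A ⊆ frontier K ∩ {y | g k y = 0}) : μH[1] A = 0 := by
  refine measure_mono_null (hA.trans ?_) (null_line h (f k))
  rintro y ⟨hy, h0⟩
  refine ⟨hy, -(g (k + 1) y), ?_⟩
  conv_lhs => rw [hx.dec k y]
  rw [mem_setOf_eq] at h0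
  rw [h0]; simp

theorem meas_le [FiniteDimensional ℝ E] (l : E →ₗ[ℝ] ℝ) : MeasurableSet {y | l y ≤ 0} :=
  (isClosed_le l.continuous_of_finiteDimensional continuous_const).measurableSet

theorem meas_ge [FiniteDimensional ℝ E] (l : E →ₗ[ℝ] ℝ) : MeasurableSet {y | 0 ≤ l y} :=
  (isClosed_le continuous_const l.continuous_of_finiteDimensional).measurableSet

theorem meas_sec [FiniteDimensional ℝ E] (k : ZMod 6) : MeasurableSet (Sec K g k) :=
  isClosed_frontier.measurableSet.inter ((meas_le _).inter (meas_ge _))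

theorem half [FiniteDimensional ℝ E] (hx : Hex f g) (h : Bd K) (k : ZMod 6) :
    μH[1] (frontier K ∩ {y | 0 ≤ g k y}) =
      μH[1] (Sec K g k) + μH[1] (Sec K g (k + 1)) + μH[1] (Sec K g (k + 2)) := by
  have e1 : k + 1 + 1 = k + 2 := by ring
  have e2 : k + 2 + 1 = k + 3 := by ring
  have g3 : ∀ y, g (k + 3) y = -(g k y) := by
    intro y
    have h1 := hx.gadd k y
    have h2 := hx.gadd (k + 1) y
    rw [show k + 1 + 1 = k + 2 by ring, show k + 1 + 2 = k + 3 by ring] at h2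
    linarith
  have hset : frontier K ∩ {y | 0 ≤ g k y} = (Sec K g k ∪ Sec K g (k + 1)) ∪ Sec K g (k + 2) := by
    ext y
    simp only [Sec, mem_inter_iff, mem_union, mem_setOf_eq, e1, e2, g3]
    have h1 := hx.gadd k y
    constructor
    · rintro ⟨hy, h0⟩
      rcases le_total (g (k + 1) y) 0 with h2 | h2
      · exact Or.inl (Or.inl ⟨hy, h2, h0⟩)
      · rcases le_total (g (k + 2) y) 0 with h3 | h3
        · exact Or.inl (Or.inr ⟨hy, h3, h2⟩)
        · exact Or.inr ⟨hy, by linarith, h3⟩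
    · rintro ((⟨hy, h2, h3⟩ | ⟨hy, h2, h3⟩) | ⟨hy, h2, h3⟩)
      · exact ⟨hy, h3⟩
      · exact ⟨hy, by linarith⟩
      · exact ⟨hy, by linarith⟩
  rw [hset, measure_union₀ (meas_sec _).nullMeasurableSet, measure_union₀
    (meas_sec _).nullMeasurableSet]
  · apply hx.null h (k + 1)
    rintro y ⟨h1, h2⟩
    simp only [Sec, mem_inter_iff, mem_setOf_eq, e1, e2, g3] at h1 h2 ⊢
    exact ⟨h1.1, by linarith [h1.2.1, h2.2.2]⟩
  · have a1 : μH[1] (Sec K g k ∩ Sec K g (k + 2)) = 0 := by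
      apply hx.null h (k + 1)
      rintro y ⟨h1, h2⟩
      simp only [Sec, mem_inter_iff, mem_setOf_eq, e1, e2, g3] at h1 h2 ⊢
      exact ⟨h1.1, by linarith [h1.2.1, h1.2.2, h2.2.1, h2.2.2, hx.gadd k y]⟩
    have a2 : μH[1] (Sec K g (k + 1) ∩ Sec K g (k + 2)) = 0 := by
      apply hx.null h (k + 2)
      rintro y ⟨h1, h2⟩
      simp only [Sec, mem_inter_iff, mem_setOf_eq, e1, e2, g3] at h1 h2 ⊢
      exact ⟨h1.1, by linarith [h1.2.1, h2.2.2]⟩
    change μH[1] ((Sec K g k ∪ Sec K g (k + 1)) ∩ Sec K g (k + 2)) = 0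
    rw [union_inter_distrib_right]
    exact measure_union_null a1 a2

theorem lo [FiniteDimensional ℝ E] (hx : Hex f g) (h : Bd K) (k : ZMod 6) :
    edist ((gauge K (f k))⁻¹ • f k) ((gauge K (f (k + 1)))⁻¹ • f (k + 1)) ≤
      μH[1] (Sec K g k) := by
  refine (arc_ge h (hx.ind k)).trans (measure_mono ?_)
  rintro y ⟨hy, s, t, hs, ht, rfl⟩
  refine ⟨hy, ?_, ?_⟩
  · rw [map_add, map_smul, map_smul, hx.gm, hx.g0, smul_eq_mul, smul_eq_mul]
    linarith
  · rw [map_add, map_smul, map_smul, hx.g0, hx.g1, smul_eq_mul, smul_eq_mul]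
    linarith

theorem up [FiniteDimensional ℝ E] (hx : Hex f g) (h : Bd K) (k : ZMod 6)
    (hD : 0 < De (fun k => gauge K (f k)) k) :
    μH[1] (Sec K g k) ≤
      ENNReal.ofReal (‖(gauge K (f k))⁻¹ • f k - tip f (fun k => gauge K (f k)) k‖ +
        ‖tip f (fun k => gauge K (f k)) k - (gauge K (f (k + 1)))⁻¹ • f (k + 1)‖) := by
  have e1 : f (k - 1) = f k - f (k + 1) := by
    have := hx.fadd (k - 1)
    rw [show k - 1 + 1 = k by ring, show k - 1 + 2 = k + 1 by ring] at this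
    rw [this]; abel
  have e2 : f (k + 2) = f (k + 1) - f k := by rw [hx.fadd k]; abel
  have := arc_le h (u := f k) (v := f (k + 1)) (s := -(g (k + 1))) (t := g k)
    (T := tip f (fun k => gauge K (f k)) k)
    (fun y => by rw [LinearMap.neg_apply]; exact hx.dec k y)
    (by rw [LinearMap.neg_apply, hx.gm]; norm_num)
    (by rw [LinearMap.neg_apply, hx.g0]; norm_num) (hx.g0 k) (hx.g1 k)
    rfl rfl rfl rfl hD
    (by
      simp only [De]
      rw [e1, e2])
    (by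
      simp only [tip]
      rw [e1, e2])
  refine le_trans (measure_mono ?_) this
  rintro y ⟨hy, h1, h2⟩
  exact ⟨hy, by rw [LinearMap.neg_apply]; linarith, h2⟩

theorem fin [FiniteDimensional ℝ E] (hx : Hex f g) (h : Bd K) : μH[1] (frontier K) < ∞ :=
  fin_len h (u := f 0) (v := f (0 + 1)) (s := -(g (0 + 1))) (t := g 0)
    (fun y => by rw [LinearMap.neg_apply]; exact hx.dec 0 y)

theorem sec_fin [FiniteDimensional ℝ E] (hx : Hex f g) (h : Bd K) (k : ZMod 6) :
    μH[1] (Sec K g k) ≠ ∞ :=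
  ((measure_mono inter_subset_left).trans_lt (hx.fin h)).ne

/-- the configuration attached to a convex body and a hexagonal frame -/
theorem cfg [FiniteDimensional ℝ E] (hx : Hex f g) (h : Bd K) :
    Cfg f (fun k => gauge K (f k)) (fun k => (μH[1] (Sec K g k)).toReal) where
  fadd := hx.fadd
  pp k := h.pos (hx.fne k)
  pc k := by
    rw [hx.fadd k]; exact h.add _ _
  lo k := by
    have := hx.lo h k
    rw [edist_dist, dist_eq_norm] at this
    exact (ENNReal.ofReal_le_iff_le_toReal (hx.sec_fin h k)).1 this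
  up k hD := ENNReal.toReal_le_of_le_ofReal (by positivity) (hx.up h k hD)
  ind := by
    intro s t hst
    exact hx.ind 0 s t hst

theorem halfR [FiniteDimensional ℝ E] (hx : Hex f g) (h : Bd K) (k : ZMod 6) :
    (μH[1] (frontier K ∩ {y | 0 ≤ g k y})).toReal = (μH[1] (Sec K g k)).toReal +
      (μH[1] (Sec K g (k + 1))).toReal + (μH[1] (Sec K g (k + 2))).toReal := by
  rw [hx.half h k, ENNReal.toReal_add (ENNReal.add_ne_top.2 ⟨hx.sec_fin h _, hx.sec_fin h _⟩)
    (hx.sec_fin h _), ENNReal.toReal_add (hx.sec_fin h _) (hx.sec_fin h _)]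

theorem total [FiniteDimensional ℝ E] (hx : Hex f g) (h : Bd K) :
    (μH[1] (frontier K)).toReal = (μH[1] (Sec K g 0)).toReal + (μH[1] (Sec K g 1)).toReal +
      (μH[1] (Sec K g 2)).toReal + (μH[1] (Sec K g 3)).toReal + (μH[1] (Sec K g 4)).toReal +
      (μH[1] (Sec K g 5)).toReal := by
  have g3 : ∀ y, g 3 y = -(g 0 y) := by
    intro y
    have h1 := hx.gadd 0 y
    have h2 := hx.gadd 1 y
    rw [show (0 : ZMod 6) + 1 = 1 from rfl, show (0 : ZMod 6) + 2 = 2 from rfl] at h1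
    rw [show (1 : ZMod 6) + 1 = 2 from rfl, show (1 : ZMod 6) + 2 = 3 from rfl] at h2
    linarith
  have hset : frontier K = (frontier K ∩ {y | 0 ≤ g 0 y}) ∪ (frontier K ∩ {y | 0 ≤ g 3 y}) := by
    ext y
    simp only [mem_union, mem_inter_iff, mem_setOf_eq, g3]
    constructor
    · intro hy
      rcases le_total 0 (g 0 y) with h1 | h1
      · exact Or.inl ⟨hy, h1⟩
      · exact Or.inr ⟨hy, by linarith⟩
    · rintro (h1 | h1) <;> exact h1.1
  have hsum : μH[1] (frontier K) = μH[1] (frontier K ∩ {y | 0 ≤ g 0 y}) +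
      μH[1] (frontier K ∩ {y | 0 ≤ g 3 y}) := by
    conv_lhs => rw [hset]
    rw [measure_union₀
      (isClosed_frontier.measurableSet.inter (meas_ge _)).nullMeasurableSet]
    apply hx.null h 0
    rintro y ⟨h1, h2⟩
    simp only [mem_inter_iff, mem_setOf_eq, g3] at h1 h2 ⊢
    exact ⟨h1.1, by linarith [h1.2, h2.2]⟩
  have hf0 : μH[1] (frontier K ∩ {y | 0 ≤ g 0 y}) ≠ ∞ :=
    ((measure_mono inter_subset_left).trans_lt (hx.fin h)).ne
  have hf3 : μH[1] (frontier K ∩ {y | 0 ≤ g 3 y}) ≠ ∞ :=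
    ((measure_mono inter_subset_left).trans_lt (hx.fin h)).ne
  rw [hsum, ENNReal.toReal_add hf0 hf3, hx.halfR h 0, hx.halfR h 3]
  rw [show (0 : ZMod 6) + 1 = 1 from rfl, show (0 : ZMod 6) + 2 = 2 from rfl,
    show (3 : ZMod 6) + 1 = 4 from rfl, show (3 : ZMod 6) + 2 = 5 from rfl]
  ring

/-- the core theorem, for the origin -/
theorem core0 [FiniteDimensional ℝ E] (hx : Hex f g) (h : Bd K) {c : ℝ} (hc2 : c ^ 2 = 3 * c - 1)
    (hc : c ≤ 0.38197) (hc0 : 0.38196 ≤ c) :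
    c * (μH[1] (frontier K)).toReal < (μH[1] (frontier K ∩ {y | 0 ≤ g 0 y})).toReal ∨
    c * (μH[1] (frontier K)).toReal < (μH[1] (frontier K ∩ {y | 0 ≤ g 2 y})).toReal ∨
    c * (μH[1] (frontier K)).toReal < (μH[1] (frontier K ∩ {y | 0 ≤ g 4 y})).toReal := by
  have key := core hc2 hc hc0 (hx.cfg h)
  rw [hx.halfR h 0, hx.halfR h 2, hx.halfR h 4, hx.total h]
  exact key

/-- length at least twice a chord -/
theorem chord [FiniteDimensional ℝ E] (hx : Hex f g) (h : Bd K) :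
    2 * ‖(gauge K (f 0))⁻¹ • f 0 - (gauge K (f 2))⁻¹ • f 2‖ ≤ (μH[1] (frontier K)).toReal := by
  rw [hx.total h]
  have hc := hx.cfg h
  have l0 := hc.lo 0
  have l1 := hc.lo 1
  have l2 := hc.lo 2
  have l3 := hc.lo 3
  have l4 := hc.lo 4
  have l5 := hc.lo 5
  rw [show (0 : ZMod 6) + 1 = 1 from rfl] at l0
  rw [show (1 : ZMod 6) + 1 = 2 from rfl] at l1
  rw [show (2 : ZMod 6) + 1 = 3 from rfl] at l2
  rw [show (3 : ZMod 6) + 1 = 4 from rfl] at l3
  rw [show (4 : ZMod 6) + 1 = 5 from rfl] at l4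
  rw [show (5 : ZMod 6) + 1 = 0 from rfl] at l5
  set P : ZMod 6 → E := fun k => (gauge K (f k))⁻¹ • f k with hP
  have t1 : ‖P 0 - P 2‖ ≤ ‖P 0 - P 1‖ + ‖P 1 - P 2‖ := norm_sub_le_norm_sub_add_norm_sub _ _ _
  have t2 : ‖P 2 - P 0‖ ≤ ‖P 2 - P 3‖ + ‖P 3 - P 0‖ := norm_sub_le_norm_sub_add_norm_sub _ _ _
  have t3 : ‖P 3 - P 0‖ ≤ ‖P 3 - P 4‖ + ‖P 4 - P 0‖ := norm_sub_le_norm_sub_add_norm_sub _ _ _
  have t4 : ‖P 4 - P 0‖ ≤ ‖P 4 - P 5‖ + ‖P 5 - P 0‖ := norm_sub_le_norm_sub_add_norm_sub _ _ _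
  have t5 : ‖P 2 - P 0‖ = ‖P 0 - P 2‖ := norm_sub_rev _ _
  change 2 * ‖P 0 - P 2‖ ≤ _
  change ‖P 0 - P 1‖ ≤ _ at l0
  change ‖P 1 - P 2‖ ≤ _ at l1
  change ‖P 2 - P 3‖ ≤ _ at l2
  change ‖P 3 - P 4‖ ≤ _ at l3
  change ‖P 4 - P 5‖ ≤ _ at l4
  change ‖P 5 - P 0‖ ≤ _ at l5
  linarith

end Hex

end Pool.Agent.Helper514.Neu
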