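import Mathlib

set_option autoImplicit false

namespace Pool.Agent.Helper514.Neu

open Real

/-! Numeric inequality behind the golden ratio perimeter problem. -/

/-- The three row expressions. -/
noncomputable def Rx (c a b e x y z : ℝ) : ℝ :=
  a * (y + z + 2 * √(y * z)) + e * (x / (1 - y)) + b * (x / (1 - z)) - 2 * c
noncomputable def Ry (c a b e x y z : ℝ) : ℝ :=
  b * (x + z + 2 * √(x * z)) + e * (y / (1 - x)) + a * (y / (1 - z)) - 2 * c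
noncomputable def Rz (c a b e x y z : ℝ) : ℝ :=
  e * (x + y + 2 * √(x * y)) + a * (z / (1 - y)) + b * (z / (1 - x))
    - 2 * max (e - c) 0 * (1 - z / (1 - y)) - 2 * c

def NIc (c x y z : ℝ) : Prop :=
  (1 / 2 ≤ x ∧ 0 < x ^ 2 + (1 + c) * x * z + 2 * z ^ 2 - c * x - 2 * z) ∨
  ∃ a b e : ℝ, 0 ≤ a ∧ 0 ≤ b ∧ 0 ≤ e ∧ a + b + e = 1 ∧ a ≤ c ∧ b ≤ c ∧ e ≤ 1 - c ∧
    0 ≤ Rx c a b e x y z ∧ 0 < Ry c a b e x y z ∧ 0 ≤ Rz c a b e x y z ∧
    (0 < Rx c a b e x y z ∨ 0 < Rz c a b e x y z)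

/-- Trilinear form written in the symmetrised basis. -/
def co111 (L Y Z M K n : ℤ) : ℤ := L * Y * Z + n * (M * Z + K * Y)
def co112 (L1 L2 Y1 Y2 Z1 Z2 M1 M2 K1 K2 n : ℤ) : ℤ :=
  L1 * Y1 * Z2 + L1 * Y2 * Z1 + L2 * Y1 * Z1 +
    n * (M1 * Z2 + M2 * Z1 + M1 * Z1 + K1 * Y2 + K2 * Y1 + K1 * Y1)
def co123 (L1 L2 L3 Y1 Y2 Y3 Z1 Z2 Z3 M1 M2 M3 K1 K2 K3 n : ℤ) : ℤ :=
  L1 * Y2 * Z3 + L1 * Y3 * Z2 + L2 * Y1 * Z3 + L2 * Y3 * Z1 + L3 * Y1 * Z2 + L3 * Y2 * Z1 +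
    n * (M1 * Z2 + M1 * Z3 + M2 * Z1 + M2 * Z3 + M3 * Z1 + M3 * Z2 +
      K1 * Y2 + K1 * Y3 + K2 * Y1 + K2 * Y3 + K3 * Y1 + K3 * Y2)

/-- minimum of the ten coefficients at least `t`. -/
def ten (t L1 L2 L3 Y1 Y2 Y3 Z1 Z2 Z3 M1 M2 M3 K1 K2 K3 n : ℤ) : Bool :=
  decide (t ≤ co111 L1 Y1 Z1 M1 K1 n) && decide (t ≤ co111 L2 Y2 Z2 M2 K2 n) &&
  decide (t ≤ co111 L3 Y3 Z3 M3 K3 n) &&
  decide (t ≤ co112 L1 L2 Y1 Y2 Z1 Z2 M1 M2 K1 K2 n) &&
  decide (t ≤ co112 L1 L3 Y1 Y3 Z1 Z3 M1 M3 K1 K3 n) &&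
  decide (t ≤ co112 L2 L1 Y2 Y1 Z2 Z1 M2 M1 K2 K1 n) &&
  decide (t ≤ co112 L2 L3 Y2 Y3 Z2 Z3 M2 M3 K2 K3 n) &&
  decide (t ≤ co112 L3 L1 Y3 Y1 Z3 Z1 M3 M1 K3 K1 n) &&
  decide (t ≤ co112 L3 L2 Y3 Y2 Z3 Z2 M3 M2 K3 K2 n) &&
  decide (t ≤ co123 L1 L2 L3 Y1 Y2 Y3 Z1 Z2 Z3 M1 M2 M3 K1 K2 K3 n)

theorem ten_form {L1 L2 L3 Y1 Y2 Y3 Z1 Z2 Z3 M1 M2 M3 K1 K2 K3 n : ℤ} {t : ℤ} (ht : 0 ≤ t)
    (h : ten t L1 L2 L3 Y1 Y2 Y3 Z1 Z2 Z3 M1 M2 M3 K1 K2 K3 n = true)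
    {w1 w2 w3 : ℝ} (h1 : 0 ≤ w1) (h2 : 0 ≤ w2) (h3 : 0 ≤ w3) (hs : w1 + w2 + w3 = 1) :
    let F : ℝ := (w1 * L1 + w2 * L2 + w3 * L3) * (w1 * Y1 + w2 * Y2 + w3 * Y3) *
        (w1 * Z1 + w2 * Z2 + w3 * Z3)
      + (w1 * M1 + w2 * M2 + w3 * M3) * (w1 * Z1 + w2 * Z2 + w3 * Z3) * n
      + (w1 * K1 + w2 * K2 + w3 * K3) * (w1 * Y1 + w2 * Y2 + w3 * Y3) * n
    0 ≤ F ∧ (1 ≤ t → 0 < F) := by
  intro F
  simp only [ten, Bool.and_eq_true, decide_eq_true_eq] at h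
  obtain ⟨⟨⟨⟨⟨⟨⟨⟨⟨a1, a2⟩, a3⟩, a4⟩, a5⟩, a6⟩, a7⟩, a8⟩, a9⟩, a10⟩ := h
  have key : F = w1 ^ 3 * (co111 L1 Y1 Z1 M1 K1 n : ℝ) + w2 ^ 3 * (co111 L2 Y2 Z2 M2 K2 n : ℝ)
      + w3 ^ 3 * (co111 L3 Y3 Z3 M3 K3 n : ℝ)
      + w1 ^ 2 * w2 * (co112 L1 L2 Y1 Y2 Z1 Z2 M1 M2 K1 K2 n : ℝ)
      + w1 ^ 2 * w3 * (co112 L1 L3 Y1 Y3 Z1 Z3 M1 M3 K1 K3 n : ℝ)
      + w2 ^ 2 * w1 * (co112 L2 L1 Y2 Y1 Z2 Z1 M2 M1 K2 K1 n : ℝ)
      + w2 ^ 2 * w3 * (co112 L2 L3 Y2 Y3 Z2 Z3 M2 M3 K2 K3 n : ℝ)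
      + w3 ^ 2 * w1 * (co112 L3 L1 Y3 Y1 Z3 Z1 M3 M1 K3 K1 n : ℝ)
      + w3 ^ 2 * w2 * (co112 L3 L2 Y3 Y2 Z3 Z2 M3 M2 K3 K2 n : ℝ)
      + w1 * w2 * w3 * (co123 L1 L2 L3 Y1 Y2 Y3 Z1 Z2 Z3 M1 M2 M3 K1 K2 K3 n : ℝ) := by
    have e : w1 = 1 - w2 - w3 := by linarith
    simp only [F, co111, co112, co123]
    push_cast
    have hs' : ∀ u : ℝ, u * n = u * n * (w1 + w2 + w3) := by intro u; rw [hs]; ring
    rw [hs' ((w1 * M1 + w2 * M2 + w3 * M3) * (w1 * Z1 + w2 * Z2 + w3 * Z3)),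
      hs' ((w1 * K1 + w2 * K2 + w3 * K3) * (w1 * Y1 + w2 * Y2 + w3 * Y3))]
    ring
  have cast1 : ∀ {q : ℤ}, t ≤ q → (t : ℝ) ≤ (q : ℝ) := fun h => by exact_mod_cast h
  have b1 := cast1 a1
  have b2 := cast1 a2
  have b3 := cast1 a3
  have b4 := cast1 a4
  have b5 := cast1 a5
  have b6 := cast1 a6
  have b7 := cast1 a7
  have b8 := cast1 a8
  have b9 := cast1 a9
  have b10 := cast1 a10
  have ht' : (0 : ℝ) ≤ t := by exact_mod_cast ht
  have low : (t : ℝ) * (w1 ^ 3 + w2 ^ 3 + w3 ^ 3) ≤ F := by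
    rw [key]
    have p1 : 0 ≤ w1 ^ 3 := by positivity
    have p2 : 0 ≤ w2 ^ 3 := by positivity
    have p3 : 0 ≤ w3 ^ 3 := by positivity
    have p4 : 0 ≤ w1 ^ 2 * w2 := by positivity
    have p5 : 0 ≤ w1 ^ 2 * w3 := by positivity
    have p6 : 0 ≤ w2 ^ 2 * w1 := by positivity
    have p7 : 0 ≤ w2 ^ 2 * w3 := by positivity
    have p8 : 0 ≤ w3 ^ 2 * w1 := by positivity
    have p9 : 0 ≤ w3 ^ 2 * w2 := by positivity
    have p10 : 0 ≤ w1 * w2 * w3 := by positivity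
    have q1 := mul_le_mul_of_nonneg_left b1 p1
    have q2 := mul_le_mul_of_nonneg_left b2 p2
    have q3 := mul_le_mul_of_nonneg_left b3 p3
    have q4 := mul_nonneg p4 (ht'.trans b4)
    have q5 := mul_nonneg p5 (ht'.trans b5)
    have q6 := mul_nonneg p6 (ht'.trans b6)
    have q7 := mul_nonneg p7 (ht'.trans b7)
    have q8 := mul_nonneg p8 (ht'.trans b8)
    have q9 := mul_nonneg p9 (ht'.trans b9)
    have q10 := mul_nonneg p10 (ht'.trans b10)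
    linarith
  refine ⟨le_trans (by positivity) low, fun h1t => ?_⟩
  have ht1 : (1 : ℝ) ≤ t := by exact_mod_cast h1t
  have pos : 0 < w1 ^ 3 + w2 ^ 3 + w3 ^ 3 := by
    rcases lt_or_eq_of_le h1 with h | h
    · positivity
    · rcases lt_or_eq_of_le h2 with h' | h'
      · positivity
      · have : w3 = 1 := by rw [← h, ← h'] at hs; linarith
        rw [this]; positivity
  exact lt_of_lt_of_le (by positivity) low

/-- integer square root by bits -/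
def isq (v : ℤ) : ℕ → ℤ → ℤ
  | 0, r => r
  | k + 1, r => if (r + 2 ^ k) * (r + 2 ^ k) ≤ v then isq v k (r + 2 ^ k) else isq v k r

def sq (v : ℤ) : ℤ := isq v 20 0

def sqok (v : ℤ) : Bool := decide (0 ≤ sq v) && decide (sq v * sq v ≤ v)

def rowx (n a b e x1 y1 z1 x2 y2 z2 x3 y3 z3 : ℤ) : Bool :=
  sqok (y1 * z1) && sqok (y2 * z2) && sqok (y3 * z3) &&
  ten 1 (1000 * a * (y1 + z1 + 2 * sq (y1 * z1)) - 76394 * n)
    (1000 * a * (y2 + z2 + 2 * sq (y2 * z2)) - 76394 * n)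
    (1000 * a * (y3 + z3 + 2 * sq (y3 * z3)) - 76394 * n)
    (n - y1) (n - y2) (n - y3) (n - z1) (n - z2) (n - z3)
    (1000 * e * x1) (1000 * e * x2) (1000 * e * x3)
    (1000 * b * x1) (1000 * b * x2) (1000 * b * x3) n

def rowz (n a b e x1 y1 z1 x2 y2 z2 x3 y3 z3 : ℤ) : Bool :=
  sqok (x1 * y1) && sqok (x2 * y2) && sqok (x3 * y3) &&
  ten 0 (1000 * e * (x1 + y1 + 2 * sq (x1 * y1)) - 2 * max (1000 * e) 38197 * n)
    (1000 * e * (x2 + y2 + 2 * sq (x2 * y2)) - 2 * max (1000 * e) 38197 * n)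
    (1000 * e * (x3 + y3 + 2 * sq (x3 * y3)) - 2 * max (1000 * e) 38197 * n)
    (n - x1) (n - x2) (n - x3) (n - y1) (n - y2) (n - y3)
    (1000 * b * z1) (1000 * b * z2) (1000 * b * z3)
    ((1000 * a + 2 * max (1000 * e - 38197) 0) * z1)
    ((1000 * a + 2 * max (1000 * e - 38197) 0) * z2)
    ((1000 * a + 2 * max (1000 * e - 38197) 0) * z3) n

theorem gen {s N Y Z X1 X2 L L' F : ℝ} (hs : 0 < s) (hN : 0 < N) (hY : 0 < Y) (hZ : 0 < Z)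
    (hL : L' ≤ L) (hF : F = s * N ^ 3 * (L' * Y * Z + X1 * Z + X2 * Y)) :
    (0 ≤ F → 0 ≤ L + X1 / Y + X2 / Z) ∧ (0 < F → 0 < L + X1 / Y + X2 / Z) := by
  have e : L + X1 / Y + X2 / Z = (L * Y * Z + X1 * Z + X2 * Y) / (Y * Z) := by
    field_simp
  have hq : L' * Y * Z ≤ L * Y * Z := by
    have := mul_le_mul_of_nonneg_right hL (mul_pos hY hZ).le
    nlinarith
  have hYZ := mul_pos hY hZ
  have hsN : 0 < s * N ^ 3 := by positivity
  rw [e, hF]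
  constructor
  · intro h
    have : 0 ≤ L' * Y * Z + X1 * Z + X2 * Y := by
      by_contra hc
      push Not at hc
      have := mul_neg_of_pos_of_neg hsN hc
      linarith
    apply div_nonneg _ hYZ.le
    linarith
  · intro h
    have : 0 < L' * Y * Z + X1 * Z + X2 * Y := by
      by_contra hc
      push Not at hc
      have := mul_nonpos_of_nonneg_of_nonpos hsN.le hc
      linarith
    apply div_pos _ hYZ
    linarith

theorem sqrt_low {p1 q1 p2 q2 p3 q3 r1 r2 r3 : ℤ} {w1 w2 w3 N p q : ℝ}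
    (hN : 0 < N) (h1 : 0 ≤ w1) (h2 : 0 ≤ w2) (h3 : 0 ≤ w3)
    (hp : w1 * p1 + w2 * p2 + w3 * p3 = N * p) (hq : w1 * q1 + w2 * q2 + w3 * q3 = N * q)
    (p1n : 0 ≤ p1) (q1n : 0 ≤ q1) (p2n : 0 ≤ p2) (q2n : 0 ≤ q2) (p3n : 0 ≤ p3) (q3n : 0 ≤ q3)
    (r1n : 0 ≤ r1) (r1q : r1 * r1 ≤ p1 * q1) (r2n : 0 ≤ r2) (r2q : r2 * r2 ≤ p2 * q2)
    (r3n : 0 ≤ r3) (r3q : r3 * r3 ≤ p3 * q3) :
    w1 * r1 + w2 * r2 + w3 * r3 ≤ N * √(p * q) := by
  have cst : ∀ {r p q : ℤ}, 0 ≤ r → 0 ≤ p → r * r ≤ p * q → (r : ℝ) ≤ √(p : ℝ) * √(q : ℝ) := by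
    intro r p q hr hp h
    rw [← Real.sqrt_mul (by exact_mod_cast hp)]
    apply Real.le_sqrt_of_sq_le
    have : ((r * r : ℤ) : ℝ) ≤ ((p * q : ℤ) : ℝ) := by exact_mod_cast h
    push_cast at this
    nlinarith
  have e1 := cst r1n p1n r1q
  have e2 := cst r2n p2n r2q
  have e3 := cst r3n p3n r3q
  have hpp : N * √(p * q) = √((N * p) * (N * q)) := by
    rw [show (N * p) * (N * q) = N ^ 2 * (p * q) by ring, Real.sqrt_mul (sq_nonneg N),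
      Real.sqrt_sq hN.le]
  rw [hpp, ← hp, ← hq]
  apply Real.le_sqrt_of_sq_le
  set a1 := √(p1 : ℝ)
  set a2 := √(p2 : ℝ)
  set a3 := √(p3 : ℝ)
  set b1 := √(q1 : ℝ)
  set b2 := √(q2 : ℝ)
  set b3 := √(q3 : ℝ)
  have sa1 : (p1 : ℝ) = a1 ^ 2 := (Real.sq_sqrt (by exact_mod_cast p1n)).symm
  have sa2 : (p2 : ℝ) = a2 ^ 2 := (Real.sq_sqrt (by exact_mod_cast p2n)).symm
  have sa3 : (p3 : ℝ) = a3 ^ 2 := (Real.sq_sqrt (by exact_mod_cast p3n)).symm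
  have sb1 : (q1 : ℝ) = b1 ^ 2 := (Real.sq_sqrt (by exact_mod_cast q1n)).symm
  have sb2 : (q2 : ℝ) = b2 ^ 2 := (Real.sq_sqrt (by exact_mod_cast q2n)).symm
  have sb3 : (q3 : ℝ) = b3 ^ 2 := (Real.sq_sqrt (by exact_mod_cast q3n)).symm
  have t1 := mul_le_mul_of_nonneg_left e1 h1
  have t2 := mul_le_mul_of_nonneg_left e2 h2
  have t3 := mul_le_mul_of_nonneg_left e3 h3
  have rr1 : (0 : ℝ) ≤ r1 := by exact_mod_cast r1n
  have rr2 : (0 : ℝ) ≤ r2 := by exact_mod_cast r2n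
  have rr3 : (0 : ℝ) ≤ r3 := by exact_mod_cast r3n
  have lhs : w1 * r1 + w2 * r2 + w3 * r3 ≤ w1 * (a1 * b1) + w2 * (a2 * b2) + w3 * (a3 * b3) := by
    linarith
  have l0 : 0 ≤ w1 * r1 + w2 * r2 + w3 * r3 := by positivity
  have sqle : (w1 * r1 + w2 * r2 + w3 * r3) ^ 2 ≤
      (w1 * (a1 * b1) + w2 * (a2 * b2) + w3 * (a3 * b3)) ^ 2 :=
    pow_le_pow_left₀ l0 lhs 2
  refine sqle.trans ?_
  rw [sa1, sa2, sa3, sb1, sb2, sb3]
  have m12 : 0 ≤ w1 * w2 := mul_nonneg h1 h2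
  have m13 : 0 ≤ w1 * w3 := mul_nonneg h1 h3
  have m23 : 0 ≤ w2 * w3 := mul_nonneg h2 h3
  nlinarith [mul_nonneg m12 (sq_nonneg (a1 * b2 - a2 * b1)),
    mul_nonneg m13 (sq_nonneg (a1 * b3 - a3 * b1)),
    mul_nonneg m23 (sq_nonneg (a2 * b3 - a3 * b2))]

theorem sqok_iff {v : ℤ} (h : sqok v = true) : 0 ≤ sq v ∧ sq v * sq v ≤ v := by
  simpa [sqok] using h

theorem rowx_sound {c : ℝ} (hc : c ≤ 0.38197) {n a b e x1 y1 z1 x2 y2 z2 x3 y3 z3 : ℤ}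
    (h : rowx n a b e x1 y1 z1 x2 y2 z2 x3 y3 z3 = true)
    {w1 w2 w3 x y z : ℝ} (h1 : 0 ≤ w1) (h2 : 0 ≤ w2) (h3 : 0 ≤ w3) (hs : w1 + w2 + w3 = 1)
    (hn : 0 < n) (ha : 0 ≤ a)
    (hx : w1 * x1 + w2 * x2 + w3 * x3 = n * x) (hy : w1 * y1 + w2 * y2 + w3 * y3 = n * y)
    (hz : w1 * z1 + w2 * z2 + w3 * z3 = n * z)
    (ny1 : 0 ≤ y1) (nz1 : 0 ≤ z1) (ny2 : 0 ≤ y2) (nz2 : 0 ≤ z2) (ny3 : 0 ≤ y3) (nz3 : 0 ≤ z3)
    (y1' : y < 1) (z1' : z < 1) :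
    0 < (a / 100 : ℝ) * (y + z + 2 * √(y * z)) + (e / 100 : ℝ) * (x / (1 - y)) +
      (b / 100 : ℝ) * (x / (1 - z)) - 2 * c := by
  simp only [rowx, Bool.and_eq_true] at h
  obtain ⟨⟨⟨s1, s2⟩, s3⟩, ht⟩ := h
  obtain ⟨s1a, s1b⟩ := sqok_iff s1
  obtain ⟨s2a, s2b⟩ := sqok_iff s2
  obtain ⟨s3a, s3b⟩ := sqok_iff s3
  have hN : (0 : ℝ) < n := by exact_mod_cast hn
  have lo := sqrt_low hN h1 h2 h3 hy hz ny1 nz1 ny2 nz2 ny3 nz3 s1a s1b s2a s2b s3a s3b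
  have F := (ten_form (t := 1) (by norm_num) ht h1 h2 h3 hs).2 le_rfl
  have haR : (0 : ℝ) ≤ a := by exact_mod_cast ha
  set ρ := w1 * (sq (y1 * z1) : ℝ) + w2 * (sq (y2 * z2) : ℝ) + w3 * (sq (y3 * z3) : ℝ) with hρ
  have g := gen (s := 100000) (N := n) (Y := 1 - y) (Z := 1 - z) (X1 := (e / 100 : ℝ) * x)
    (X2 := (b / 100 : ℝ) * x)
    (L := (a / 100 : ℝ) * (y + z + 2 * √(y * z)) - 2 * c)
    (L' := (a / 100 : ℝ) * (y + z + 2 * (ρ / n)) - 0.76394)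
    (by norm_num) hN (by linarith) (by linarith)
    (by
      have : ρ / n ≤ √(y * z) := by
        rw [div_le_iff₀ hN]; linarith
      have := mul_le_mul_of_nonneg_left this haR
      linarith) rfl
  have hF := g.2 (by
    convert F using 1
    push_cast
    have e1 : w1 * (1000 * (a : ℝ) * (y1 + z1 + 2 * sq (y1 * z1)) - 76394 * n) +
        w2 * (1000 * a * (y2 + z2 + 2 * sq (y2 * z2)) - 76394 * n) +
        w3 * (1000 * a * (y3 + z3 + 2 * sq (y3 * z3)) - 76394 * n) =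
        100000 * n * ((a / 100 : ℝ) * (y + z + 2 * (ρ / n)) - 0.76394) := by
      have : (n : ℝ) * (ρ / n) = ρ := by field_simp
      have e2 : 100000 * n * ((a / 100 : ℝ) * (y + z + 2 * (ρ / n)) - 0.76394)
        = 1000 * a * (n * y + n * z + 2 * (n * (ρ / n))) - 76394 * n := by ring
      rw [e2, this, hρ, ← hy, ← hz]
      linear_combination (-76394 * (n : ℝ)) * hs
    have e3 : w1 * ((n : ℝ) - y1) + w2 * (n - y2) + w3 * (n - y3) = n * (1 - y) := by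
      linear_combination (n : ℝ) * hs - hy
    have e4 : w1 * ((n : ℝ) - z1) + w2 * (n - z2) + w3 * (n - z3) = n * (1 - z) := by
      linear_combination (n : ℝ) * hs - hz
    have e5 : w1 * (1000 * (e : ℝ) * x1) + w2 * (1000 * e * x2) + w3 * (1000 * e * x3) =
        1000 * e * (n * x) := by linear_combination 1000 * (e : ℝ) * hx
    have e6 : w1 * (1000 * (b : ℝ) * x1) + w2 * (1000 * b * x2) + w3 * (1000 * b * x3) =
        1000 * b * (n * x) := by linear_combination 1000 * (b : ℝ) * hx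
    rw [e1, e3, e4, e5, e6]
    ring)
  have e7 : (a / 100 : ℝ) * (y + z + 2 * √(y * z)) - 2 * c + (e / 100 : ℝ) * x / (1 - y) +
      (b / 100 : ℝ) * x / (1 - z) = (a / 100 : ℝ) * (y + z + 2 * √(y * z)) +
      (e / 100 : ℝ) * (x / (1 - y)) + (b / 100 : ℝ) * (x / (1 - z)) - 2 * c := by ring
  rw [← e7]; exact hF

theorem rowz_sound {c : ℝ} (hc : c ≤ 0.38197) {n a b e x1 y1 z1 x2 y2 z2 x3 y3 z3 : ℤ}
    (h : rowz n a b e x1 y1 z1 x2 y2 z2 x3 y3 z3 = true)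
    {w1 w2 w3 x y z : ℝ} (h1 : 0 ≤ w1) (h2 : 0 ≤ w2) (h3 : 0 ≤ w3) (hs : w1 + w2 + w3 = 1)
    (hn : 0 < n) (he : 0 ≤ e)
    (hx : w1 * x1 + w2 * x2 + w3 * x3 = n * x) (hy : w1 * y1 + w2 * y2 + w3 * y3 = n * y)
    (hz : w1 * z1 + w2 * z2 + w3 * z3 = n * z)
    (nx1 : 0 ≤ x1) (ny1 : 0 ≤ y1) (nx2 : 0 ≤ x2) (ny2 : 0 ≤ y2) (nx3 : 0 ≤ x3) (ny3 : 0 ≤ y3)
    (x1' : x < 1) (y1' : y < 1) (z0 : 0 ≤ z) :
    0 ≤ (e / 100 : ℝ) * (x + y + 2 * √(x * y)) + (a / 100 : ℝ) * (z / (1 - y)) +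
      (b / 100 : ℝ) * (z / (1 - x)) - 2 * max ((e / 100 : ℝ) - c) 0 * (1 - z / (1 - y))
        - 2 * c := by
  simp only [rowz, Bool.and_eq_true] at h
  obtain ⟨⟨⟨s1, s2⟩, s3⟩, ht⟩ := h
  obtain ⟨s1a, s1b⟩ := sqok_iff s1
  obtain ⟨s2a, s2b⟩ := sqok_iff s2
  obtain ⟨s3a, s3b⟩ := sqok_iff s3
  have hN : (0 : ℝ) < n := by exact_mod_cast hn
  have lo := sqrt_low hN h1 h2 h3 hx hy nx1 ny1 nx2 ny2 nx3 ny3 s1a s1b s2a s2b s3a s3b
  have F := (ten_form (t := 0) (by norm_num) ht h1 h2 h3 hs).1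
  have heR : (0 : ℝ) ≤ e := by exact_mod_cast he
  set ρ := w1 * (sq (x1 * y1) : ℝ) + w2 * (sq (x2 * y2) : ℝ) + w3 * (sq (x3 * y3) : ℝ) with hρ
  set μ : ℝ := max ((e / 100 : ℝ) - 0.38197) 0 with hμ
  have hμ0 : 0 ≤ μ := le_max_right _ _
  have hμ1 : (e / 100 : ℝ) - 0.38197 ≤ μ := le_max_left _ _
  have mx1 : (max (1000 * e) 38197 : ℤ) = (1000 : ℝ) * ((e / 100 : ℝ) - 0.38197) * 100
      + 38197 + 100000 * (μ - ((e / 100 : ℝ) - 0.38197)) := by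
    rcases le_total (1000 * e) 38197 with h | h
    · have h' : (1000 * e : ℝ) ≤ 38197 := by exact_mod_cast h
      rw [max_eq_right h, hμ, max_eq_right (by linarith)]; push_cast; ring
    · have h' : (38197 : ℝ) ≤ 1000 * e := by exact_mod_cast h
      rw [max_eq_left h, hμ, max_eq_left (by linarith)]; push_cast; ring
  have mx1' : ((max (1000 * e) 38197 : ℤ) : ℝ) = 38197 + 100000 * μ := by rw [mx1]; ring
  have mx2' : ((max (1000 * e - 38197) 0 : ℤ) : ℝ) = 100000 * μ := by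
    rcases le_total (1000 * e) 38197 with h | h
    · have h' : (1000 * e : ℝ) ≤ 38197 := by exact_mod_cast h
      rw [max_eq_right (by linarith), hμ, max_eq_right (by linarith)]; push_cast; ring
    · have h' : (38197 : ℝ) ≤ 1000 * e := by exact_mod_cast h
      rw [max_eq_left (by linarith), hμ, max_eq_left (by linarith)]; push_cast; ring
  have g := gen (s := 100000) (N := n) (Y := 1 - x) (Z := 1 - y) (X1 := (b / 100 : ℝ) * z)
    (X2 := ((a / 100 : ℝ) + 2 * μ) * z)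
    (L := (e / 100 : ℝ) * (x + y + 2 * √(x * y)) - 2 * (0.38197 + μ))
    (L' := (e / 100 : ℝ) * (x + y + 2 * (ρ / n)) - 2 * (0.38197 + μ))
    (by norm_num) hN (by linarith) (by linarith)
    (by
      have : ρ / n ≤ √(x * y) := by
        rw [div_le_iff₀ hN]; linarith
      have := mul_le_mul_of_nonneg_left this heR
      linarith) rfl
  have hF := g.1 (by
    convert F using 1
    rw [show ((1000 * e * (x1 + y1 + 2 * sq (x1 * y1)) - 2 * max (1000 * e) 38197 * n : ℤ) : ℝ)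
      = 1000 * e * (x1 + y1 + 2 * sq (x1 * y1)) - 2 * ((max (1000 * e) 38197 : ℤ) : ℝ) * n by
        push_cast; ring,
      show ((1000 * e * (x2 + y2 + 2 * sq (x2 * y2)) - 2 * max (1000 * e) 38197 * n : ℤ) : ℝ)
      = 1000 * e * (x2 + y2 + 2 * sq (x2 * y2)) - 2 * ((max (1000 * e) 38197 : ℤ) : ℝ) * n by
        push_cast; ring,
      show ((1000 * e * (x3 + y3 + 2 * sq (x3 * y3)) - 2 * max (1000 * e) 38197 * n : ℤ) : ℝ)
      = 1000 * e * (x3 + y3 + 2 * sq (x3 * y3)) - 2 * ((max (1000 * e) 38197 : ℤ) : ℝ) * n by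
        push_cast; ring,
      show (((1000 * a + 2 * max (1000 * e - 38197) 0) * z1 : ℤ) : ℝ) =
        (1000 * a + 2 * ((max (1000 * e - 38197) 0 : ℤ) : ℝ)) * z1 by push_cast; ring,
      show (((1000 * a + 2 * max (1000 * e - 38197) 0) * z2 : ℤ) : ℝ) =
        (1000 * a + 2 * ((max (1000 * e - 38197) 0 : ℤ) : ℝ)) * z2 by push_cast; ring,
      show (((1000 * a + 2 * max (1000 * e - 38197) 0) * z3 : ℤ) : ℝ) =
        (1000 * a + 2 * ((max (1000 * e - 38197) 0 : ℤ) : ℝ)) * z3 by push_cast; ring,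
      mx1', mx2']
    push_cast
    have e1 : w1 * (1000 * (e : ℝ) * (x1 + y1 + 2 * sq (x1 * y1)) - 2 * (38197 + 100000 * μ) * n) +
        w2 * (1000 * e * (x2 + y2 + 2 * sq (x2 * y2)) - 2 * (38197 + 100000 * μ) * n) +
        w3 * (1000 * e * (x3 + y3 + 2 * sq (x3 * y3)) - 2 * (38197 + 100000 * μ) * n) =
        100000 * n * ((e / 100 : ℝ) * (x + y + 2 * (ρ / n)) - 2 * (0.38197 + μ)) := by
      have : (n : ℝ) * (ρ / n) = ρ := by field_simp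
      have e2 : 100000 * n * ((e / 100 : ℝ) * (x + y + 2 * (ρ / n)) - 2 * (0.38197 + μ))
        = 1000 * e * (n * x + n * y + 2 * (n * (ρ / n))) - 2 * (38197 + 100000 * μ) * n := by ring
      rw [e2, this, hρ, ← hx, ← hy]
      linear_combination (-(2 * (38197 + 100000 * μ) * (n : ℝ))) * hs
    have e3 : w1 * ((n : ℝ) - x1) + w2 * (n - x2) + w3 * (n - x3) = n * (1 - x) := by
      linear_combination (n : ℝ) * hs - hx
    have e4 : w1 * ((n : ℝ) - y1) + w2 * (n - y2) + w3 * (n - y3) = n * (1 - y) := by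
      linear_combination (n : ℝ) * hs - hy
    have e5 : w1 * (1000 * (b : ℝ) * z1) + w2 * (1000 * b * z2) + w3 * (1000 * b * z3) =
        1000 * b * (n * z) := by linear_combination 1000 * (b : ℝ) * hz
    have e6 : w1 * ((1000 * (a : ℝ) + 2 * (100000 * μ)) * z1) +
        w2 * ((1000 * (a : ℝ) + 2 * (100000 * μ)) * z2) +
        w3 * ((1000 * (a : ℝ) + 2 * (100000 * μ)) * z3) =
        (1000 * (a : ℝ) + 2 * (100000 * μ)) * (n * z) := by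
      linear_combination (1000 * (a : ℝ) + 2 * (100000 * μ)) * hz
    rw [e1, e3, e4, e5, e6]
    ring)
  set ν : ℝ := max ((e / 100 : ℝ) - c) 0 with hν
  have hν1 : μ ≤ ν := max_le_max (by linarith) le_rfl
  have hν2 : ν ≤ μ + (0.38197 - c) := by
    apply max_le
    · linarith
    · linarith
  have hzy : 0 ≤ z / (1 - y) := div_nonneg z0 (by linarith)
  have q1 := mul_le_mul_of_nonneg_right hν1 hzy
  have e8 : (a / 100 + 2 * μ) * z / (1 - y) = (a / 100) * (z / (1 - y)) + 2 * (μ * (z / (1 - y))) := by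
    ring
  have e9 : (b / 100 : ℝ) * z / (1 - x) = (b / 100 : ℝ) * (z / (1 - x)) := by ring
  rw [e8, e9] at hF
  nlinarith

theorem near_a {s : ℝ} (s0 : 0.375 ≤ s) (s1 : s ≤ 0.388) :
    0.23 * (2 - s) ^ 2 ≤ 1 - s := by
  nlinarith

theorem near_b {s d : ℝ} (s0 : 0.375 ≤ s) (d0 : 0 ≤ d) (d1 : d ≤ 0.018) :
    s - 11 / 20 * (d ^ 2 / s) ≤ √(4 * ((s + d) / 2 * ((s - d) / 2))) := by
  apply Real.le_sqrt_of_sq_le
  have hspos : 0 < s := by linarith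
  set t := d ^ 2 / s with ht
  have ht1 : t * s = d ^ 2 := by rw [ht]; field_simp
  have ht2 : t ≤ 0.001 := by
    rw [ht, div_le_iff₀ hspos]; nlinarith
  have ht0 : 0 ≤ t := by positivity
  nlinarith

theorem near_c {s d : ℝ} (s0 : 0.375 ≤ s) (s1 : s ≤ 0.388) (d0 : 0 ≤ d) (d1 : d ≤ 0.018) :
    (1 - s) * (0.72 * (2 - s) + 0.02 * d) * 2 / (2 - s) ^ 2 ≤
        0.37 * ((1 - s) / (1 - (s + d) / 2)) + 0.35 * ((1 - s) / (1 - (s - d) / 2)) := by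
  have e1 : 0.37 * ((1 - s) / (1 - (s + d) / 2)) + 0.35 * ((1 - s) / (1 - (s - d) / 2)) =
      (1 - s) * (0.72 * (2 - s) + 0.02 * d) * 2 / ((2 - s) ^ 2 - d ^ 2) := by
    have n4 : (2 - s - d) ≠ 0 := by
      have : 0 < (2 - s - d) := by linarith
      exact this.ne'
    have n5 : (2 - s + d) ≠ 0 := by
      have : 0 < (2 - s + d) := by linarith
      exact this.ne'
    rw [show (1 - (s + d) / 2) = (2 - s - d) / 2 by ring,
      show (1 - (s - d) / 2) = (2 - s + d) / 2 by ring,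
      show (2 - s) ^ 2 - d ^ 2 = (2 - s - d) * (2 - s + d) by ring]
    field_simp
    ring
  rw [e1]
  have k1 : 0 ≤ (1 - s) * (0.72 * (2 - s) + 0.02 * d) * 2 := by
    apply mul_nonneg (mul_nonneg _ _) (by norm_num)
    · linarith
    · linarith
  have k2 : 0 < (2 - s) ^ 2 - d ^ 2 := by nlinarith
  exact div_le_div_of_nonneg_left k1 k2 (by nlinarith [sq_nonneg d])

theorem near {c : ℝ} (hc2 : c ^ 2 = 3 * c - 1) (hc : c ≤ 0.38197) (hc0 : 0.38196 ≤ c)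
    {x y z : ℝ} (hs : x + y + z = 1) (hzy : z ≤ y) (hx1 : 0.612 ≤ x) (hx2 : x ≤ 0.625)
    (hz : 0.185 ≤ z) : NIc c x y z := by
  by_cases hF : 0 < x ^ 2 + (1 + c) * x * z + 2 * z ^ 2 - c * x - 2 * z
  · exact Or.inl ⟨by linarith, hF⟩
  push Not at hF
  refine Or.inr ⟨0.28, 0.35, 0.37, by norm_num, by norm_num, by norm_num, by norm_num,
    by linarith, by linarith, by linarith, ?_⟩
  obtain ⟨s, hsd⟩ : ∃ s, s = 1 - x := ⟨_, rfl⟩
  obtain ⟨d, hd⟩ : ∃ d, d = y - z := ⟨_, rfl⟩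
  have ex : x = 1 - s := by linarith
  have ey : y = (s + d) / 2 := by linarith
  have ez : z = (s - d) / 2 := by linarith
  have d0 : 0 ≤ d := by linarith
  have d1 : d ≤ 0.018 := by linarith
  have s1 : s ≤ 0.388 := by linarith
  have s0 : 0.375 ≤ s := by linarith
  have sc : c ≤ s := by
    by_contra h
    push Not at h
    rw [ex, ez] at hF
    have e : (1 - s) ^ 2 + (1 + c) * (1 - s) * ((s - d) / 2) + 2 * ((s - d) / 2) ^ 2 - c * (1 - s)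
        - 2 * ((s - d) / 2) = (1 - c / 2) * (2 - s) * (c - s) + (1 - c) * (1 - s) * d / 2
          + d ^ 2 / 2 := by
      linear_combination (1 - s / 2) * hc2
    rw [e] at hF
    have h1 : 0 < (1 - c / 2) * (2 - s) * (c - s) := by
      apply mul_pos (mul_pos _ _) _ <;> linarith
    have h2 : 0 ≤ (1 - c) * (1 - s) * d / 2 := by
      apply div_nonneg _ (by norm_num)
      apply mul_nonneg (mul_nonneg _ _) d0 <;> linarith
    nlinarith [sq_nonneg d]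
  have sc' : c - s ≤ 0 := by linarith
  refine ⟨?_, ?_, ?_, Or.inr ?_⟩
  · -- Rx
    have hsq : s - 11 / 20 * (d ^ 2 / s) ≤ 2 * √(y * z) := by
      have := near_b s0 d0 d1
      rw [← ey, ← ez, Real.sqrt_mul (by norm_num), show (4 : ℝ) = 2 ^ 2 by norm_num,
        Real.sqrt_sq (by norm_num)] at this
      exact this
    have h1 : (1 - s) * (0.72 * (2 - s) + 0.02 * d) * 2 / (2 - s) ^ 2 ≤
        0.37 * (x / (1 - y)) + 0.35 * (x / (1 - z)) := by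
      have := near_c s0 s1 d0 d1
      rw [← ey, ← ez, ← ex] at this
      rw [← ex]; exact this
    have h2 : 0 ≤ 0.28 * (s + (s - 11 / 20 * (d ^ 2 / s))) +
        (1 - s) * (0.72 * (2 - s) + 0.02 * d) * 2 / (2 - s) ^ 2 - 2 * c := by
      have hspos : 0 < s := by linarith
      have h2s : 0 < 2 - s := by linarith
      have g1 : 0 ≤ 0.56 * s + 1.44 * (1 - s) / (2 - s) - 2 * c := by
        have : 0.56 * s + 1.44 * (1 - s) / (2 - s) - 2 * c =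
            ((s - c) * (1.44 * c - 0.32 - 0.56 * s)) / (2 - s) := by
          field_simp
          linear_combination (1.44 : ℝ) * hc2
        rw [this]
        apply div_nonneg _ h2s.le
        apply mul_nonneg <;> linarith
      have g2 : d ^ 2 / s ≤ 0.048 * d := by
        rw [div_le_iff₀ hspos]
        have k1 := mul_le_mul_of_nonneg_left d1 d0
        have k2 := mul_le_mul_of_nonneg_left s0 d0
        linarith
      have g3 : 0.23 * d ≤ (1 - s) * d / (2 - s) ^ 2 := by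
        rw [le_div_iff₀ (by positivity)]
        have g4 : 0.23 * (2 - s) ^ 2 ≤ 1 - s := near_a s0 s1
        have := mul_le_mul_of_nonneg_right g4 d0
        linarith
      have e3 : (1 - s) * (0.72 * (2 - s) + 0.02 * d) * 2 / (2 - s) ^ 2 =
          1.44 * (1 - s) / (2 - s) + 0.04 * ((1 - s) * d / (2 - s) ^ 2) := by
        field_simp; ring
      rw [e3]
      linarith
    unfold Rx
    have e4 : y + z = s := by linarith
    linarith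
  · unfold Ry
    have hq : (0.6729 : ℝ) ≤ 2 * √(x * z) := by
      have : (0.33645 : ℝ) ≤ √(x * z) := Real.le_sqrt_of_sq_le (by nlinarith)
      linarith
    have h1 : 0.5 ≤ y / (1 - x) := by
      rw [le_div_iff₀ (by linarith)]; linarith
    have h2 : 0.2343 ≤ y / (1 - z) := by
      rw [le_div_iff₀ (by linarith)]; linarith
    linarith
  all_goals
    have hq : (0.68 : ℝ) ≤ 2 * √(x * y) := by
      have : (0.34 : ℝ) ≤ √(x * y) := Real.le_sqrt_of_sq_le (by nlinarith)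
      linarith
    have h1 : 0.22 ≤ z / (1 - y) := by
      rw [le_div_iff₀ (by linarith)]; linarith
    have h2 : 0.47 ≤ z / (1 - x) := by
      rw [le_div_iff₀ (by linarith)]; linarith
    have h3 : max ((0.37 : ℝ) - c) 0 = 0 := max_eq_right (by linarith)
    unfold Rz
    rw [h3]
    linarith

inductive Tr
  | v : Tr
  | n : Tr
  | r (a b e : ℤ) : Tr
  | s (l r : Tr) : Tr

def vq (n x1 z1 x2 z2 : ℤ) : ℤ :=
  200000 * x1 * x2 + 138197 * (x1 * z2 + x2 * z1) + 400000 * z1 * z2 - 38197 * (x1 + x2) * n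
    - 200000 * (z1 + z2) * n

def vok (n x1 z1 x2 z2 x3 z3 : ℤ) : Bool :=
  decide (n ≤ 2 * x1) && decide (n ≤ 2 * x2) && decide (n ≤ 2 * x3) &&
  decide (0 < vq n x1 z1 x1 z1) && decide (0 < vq n x2 z2 x2 z2) && decide (0 < vq n x3 z3 x3 z3) &&
  decide (0 < vq n x1 z1 x2 z2) && decide (0 < vq n x1 z1 x3 z3) && decide (0 < vq n x2 z2 x3 z3)

def nok (n x z : ℤ) : Bool :=
  decide (612 * n ≤ 1000 * x) && decide (1000 * x ≤ 625 * n) && decide (185 * n ≤ 1000 * z)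

def chk (n : ℤ) : Tr → ℤ → ℤ → ℤ → ℤ → ℤ → ℤ → ℤ → ℤ → ℤ → Bool
  | .v, x1, _, z1, x2, _, z2, x3, _, z3 => vok n x1 z1 x2 z2 x3 z3
  | .n, x1, _, z1, x2, _, z2, x3, _, z3 => nok n x1 z1 && nok n x2 z2 && nok n x3 z3
  | .r a b e, x1, y1, z1, x2, y2, z2, x3, y3, z3 =>
      decide (0 ≤ a) && decide (a ≤ 38) && decide (0 ≤ b) && decide (b ≤ 38) &&
      decide (0 ≤ e) && decide (e ≤ 61) && decide (a + b + e = 100) &&
      rowx n a b e x1 y1 z1 x2 y2 z2 x3 y3 z3 &&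
      rowx n b a e y1 x1 z1 y2 x2 z2 y3 x3 z3 &&
      rowz n a b e x1 y1 z1 x2 y2 z2 x3 y3 z3
  | .s l r, x1, y1, z1, x2, y2, z2, x3, y3, z3 =>
      decide (2 * ((x1 + x2) / 2) = x1 + x2) && decide (2 * ((y1 + y2) / 2) = y1 + y2) &&
      decide (2 * ((z1 + z2) / 2) = z1 + z2) &&
      chk n l x3 y3 z3 x1 y1 z1 ((x1 + x2) / 2) ((y1 + y2) / 2) ((z1 + z2) / 2) &&
      chk n r x2 y2 z2 x3 y3 z3 ((x1 + x2) / 2) ((y1 + y2) / 2) ((z1 + z2) / 2)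

theorem vok_sound {c : ℝ} (hc : c ≤ 0.38197) {n x1 z1 x2 z2 x3 z3 : ℤ}
    (h : vok n x1 z1 x2 z2 x3 z3 = true)
    {w1 w2 w3 x z : ℝ} (h1 : 0 ≤ w1) (h2 : 0 ≤ w2) (h3 : 0 ≤ w3) (hs : w1 + w2 + w3 = 1)
    (hn : 0 < n)
    (hx : w1 * x1 + w2 * x2 + w3 * x3 = n * x)
    (hz : w1 * z1 + w2 * z2 + w3 * z3 = n * z) (z1' : z < 1) :
    1 / 2 ≤ x ∧ 0 < x ^ 2 + (1 + c) * x * z + 2 * z ^ 2 - c * x - 2 * z := by
  simp only [vok, Bool.and_eq_true, decide_eq_true_eq] at h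
  obtain ⟨⟨⟨⟨⟨⟨⟨⟨a1, a2⟩, a3⟩, q11⟩, q22⟩, q33⟩, q12⟩, q13⟩, q23⟩ := h
  have hN : (0 : ℝ) < n := by exact_mod_cast hn
  have b1 : (n : ℝ) ≤ 2 * x1 := by exact_mod_cast a1
  have b2 : (n : ℝ) ≤ 2 * x2 := by exact_mod_cast a2
  have b3 : (n : ℝ) ≤ 2 * x3 := by exact_mod_cast a3
  have hxx : (n : ℝ) ≤ 2 * (n * x) := by
    rw [← hx]
    have k1 := mul_le_mul_of_nonneg_left b1 h1
    have k2 := mul_le_mul_of_nonneg_left b2 h2
    have k3 := mul_le_mul_of_nonneg_left b3 h3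
    have k4 : (n : ℝ) = w1 * n + w2 * n + w3 * n := by
      linear_combination (-(n : ℝ)) * hs
    linarith
  have hx2 : 1 / 2 ≤ x := by
    by_contra hcon
    push Not at hcon
    have := mul_lt_mul_of_pos_left hcon hN
    linarith
  refine ⟨hx2, ?_⟩
  have r11 : (0 : ℝ) < vq n x1 z1 x1 z1 := by exact_mod_cast q11
  have r22 : (0 : ℝ) < vq n x2 z2 x2 z2 := by exact_mod_cast q22
  have r33 : (0 : ℝ) < vq n x3 z3 x3 z3 := by exact_mod_cast q33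
  have r12 : (0 : ℝ) < vq n x1 z1 x2 z2 := by exact_mod_cast q12
  have r13 : (0 : ℝ) < vq n x1 z1 x3 z3 := by exact_mod_cast q13
  have r23 : (0 : ℝ) < vq n x2 z2 x3 z3 := by exact_mod_cast q23
  have key : 200000 * (n : ℝ) ^ 2 *
      (x ^ 2 + 1.38197 * x * z + 2 * z ^ 2 - 0.38197 * x - 2 * z) =
      w1 ^ 2 * vq n x1 z1 x1 z1 + w2 ^ 2 * vq n x2 z2 x2 z2 + w3 ^ 2 * vq n x3 z3 x3 z3 +
      2 * (w1 * w2) * vq n x1 z1 x2 z2 + 2 * (w1 * w3) * vq n x1 z1 x3 z3 +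
      2 * (w2 * w3) * vq n x2 z2 x3 z3 := by
    have e1 : 200000 * (n : ℝ) ^ 2 *
      (x ^ 2 + 1.38197 * x * z + 2 * z ^ 2 - 0.38197 * x - 2 * z) =
      200000 * (n * x) ^ 2 + 276394 * (n * x) * (n * z) + 400000 * (n * z) ^ 2
        - 76394 * n * (n * x) - 400000 * n * (n * z) := by ring
    have e2 : 76394 * n * (n * x) = 76394 * n * (n * x) * (w1 + w2 + w3) := by rw [hs]; ring
    have e3 : 400000 * n * (n * z) = 400000 * n * (n * z) * (w1 + w2 + w3) := by rw [hs]; ring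
    rw [e1, e2, e3, ← hx, ← hz]
    simp only [vq]
    push_cast
    ring
  have pos : 0 < w1 ^ 2 * (vq n x1 z1 x1 z1 : ℝ) + w2 ^ 2 * vq n x2 z2 x2 z2 +
      w3 ^ 2 * vq n x3 z3 x3 z3 +
      2 * (w1 * w2) * vq n x1 z1 x2 z2 + 2 * (w1 * w3) * vq n x1 z1 x3 z3 +
      2 * (w2 * w3) * vq n x2 z2 x3 z3 := by
    rcases lt_or_eq_of_le h1 with h | h
    · positivity
    · rcases lt_or_eq_of_le h2 with h' | h'
      · positivity
      · have : w3 = 1 := by rw [← h, ← h'] at hs; linarith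
        rw [this]; positivity
  rw [← key] at pos
  have pos2 : 0 < x ^ 2 + 1.38197 * x * z + 2 * z ^ 2 - 0.38197 * x - 2 * z := by
    by_contra hcon
    push Not at hcon
    have := mul_nonpos_of_nonneg_of_nonpos (by positivity : (0 : ℝ) ≤ 200000 * (n : ℝ) ^ 2) hcon
    linarith
  have : 0 ≤ (0.38197 - c) * (x * (1 - z)) :=
    mul_nonneg (by linarith) (mul_nonneg (by linarith) (by linarith))
  linarith

theorem nok_sound {n x1 z1 x2 z2 x3 z3 : ℤ}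
    (h : (nok n x1 z1 && nok n x2 z2 && nok n x3 z3) = true)
    {w1 w2 w3 x z : ℝ} (h1 : 0 ≤ w1) (h2 : 0 ≤ w2) (h3 : 0 ≤ w3) (hs : w1 + w2 + w3 = 1)
    (hn : 0 < n)
    (hx : w1 * x1 + w2 * x2 + w3 * x3 = n * x)
    (hz : w1 * z1 + w2 * z2 + w3 * z3 = n * z) :
    0.612 ≤ x ∧ x ≤ 0.625 ∧ 0.185 ≤ z := by
  simp only [nok, Bool.and_eq_true, decide_eq_true_eq] at h
  obtain ⟨⟨⟨⟨a1, a2⟩, a3⟩, ⟨b1, b2⟩, b3⟩, ⟨c1, c2⟩, c3⟩ := h
  have hN : (0 : ℝ) < n := by exact_mod_cast hn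
  have cst : ∀ {p q : ℤ}, p ≤ q → (p : ℝ) ≤ q := fun h => by exact_mod_cast h
  have a1' := cst a1
  have a2' := cst a2
  have a3' := cst a3
  have b1' := cst b1
  have b2' := cst b2
  have b3' := cst b3
  have c1' := cst c1
  have c2' := cst c2
  have c3' := cst c3
  push_cast at a1' a2' a3' b1' b2' b3' c1' c2' c3'
  have k4 : (n : ℝ) = w1 * n + w2 * n + w3 * n := by
    linear_combination (-(n : ℝ)) * hs
  have A := mul_le_mul_of_nonneg_left a1' h1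
  have B := mul_le_mul_of_nonneg_left b1' h2
  have C := mul_le_mul_of_nonneg_left c1' h3
  have A2 := mul_le_mul_of_nonneg_left a2' h1
  have B2 := mul_le_mul_of_nonneg_left b2' h2
  have C2 := mul_le_mul_of_nonneg_left c2' h3
  have A3 := mul_le_mul_of_nonneg_left a3' h1
  have B3 := mul_le_mul_of_nonneg_left b3' h2
  have C3 := mul_le_mul_of_nonneg_left c3' h3
  refine ⟨?_, ?_, ?_⟩
  · by_contra hcon
    push Not at hcon
    have := mul_lt_mul_of_pos_left hcon hN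
    linarith
  · by_contra hcon
    push Not at hcon
    have := mul_lt_mul_of_pos_left hcon hN
    linarith
  · by_contra hcon
    push Not at hcon
    have := mul_lt_mul_of_pos_left hcon hN
    linarith

theorem chk_sound {c : ℝ} (hc2 : c ^ 2 = 3 * c - 1) (hc : c ≤ 0.38197) (hc0 : 0.38196 ≤ c)
    {n : ℤ} (hn : 0 < n) : ∀ (t : Tr) (x1 y1 z1 x2 y2 z2 x3 y3 z3 : ℤ),
    chk n t x1 y1 z1 x2 y2 z2 x3 y3 z3 = true →
    0 ≤ x1 → 0 ≤ y1 → 0 ≤ z1 → 0 ≤ x2 → 0 ≤ y2 → 0 ≤ z2 → 0 ≤ x3 → 0 ≤ y3 → 0 ≤ z3 →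
    ∀ w1 w2 w3 x y z : ℝ, 0 ≤ w1 → 0 ≤ w2 → 0 ≤ w3 → w1 + w2 + w3 = 1 →
    w1 * x1 + w2 * x2 + w3 * x3 = n * x → w1 * y1 + w2 * y2 + w3 * y3 = n * y →
    w1 * z1 + w2 * z2 + w3 * z3 = n * z → x + y + z = 1 → 0 < z → z ≤ y → y ≤ x →
    NIc c x y z := by
  intro t
  induction t with
  | v =>
    intro x1 y1 z1 x2 y2 z2 x3 y3 z3 h _ _ _ _ _ _ _ _ _ w1 w2 w3 x y z h1 h2 h3 hs hx hy hz hxyz
      z0 zy yx
    exact Or.inl (vok_sound hc h h1 h2 h3 hs hn hx hz (by linarith))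
  | n =>
    intro x1 y1 z1 x2 y2 z2 x3 y3 z3 h _ _ _ _ _ _ _ _ _ w1 w2 w3 x y z h1 h2 h3 hs hx hy hz hxyz
      z0 zy yx
    obtain ⟨q1, q2, q3⟩ := nok_sound h h1 h2 h3 hs hn hx hz
    exact near hc2 hc hc0 hxyz zy q1 q2 q3
  | r a b e =>
    intro x1 y1 z1 x2 y2 z2 x3 y3 z3 h nx1 ny1 nz1 nx2 ny2 nz2 nx3 ny3 nz3 w1 w2 w3 x y z h1 h2 h3
      hs hx hy hz hxyz z0 zy yx
    simp only [chk, Bool.and_eq_true, decide_eq_true_eq] at h
    obtain ⟨⟨⟨⟨⟨⟨⟨⟨⟨a0, a1⟩, b0⟩, b1⟩, e0⟩, e1⟩, hab⟩, rx⟩, ry⟩, rz⟩ := h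
    have a0' : (0 : ℝ) ≤ a := by exact_mod_cast a0
    have b0' : (0 : ℝ) ≤ b := by exact_mod_cast b0
    have e0' : (0 : ℝ) ≤ e := by exact_mod_cast e0
    have a1' : (a : ℝ) ≤ 38 := by exact_mod_cast a1
    have b1' : (b : ℝ) ≤ 38 := by exact_mod_cast b1
    have e1' : (e : ℝ) ≤ 61 := by exact_mod_cast e1
    have hab' : (a : ℝ) + b + e = 100 := by exact_mod_cast hab
    have X := rowx_sound hc rx h1 h2 h3 hs hn a0 hx hy hz ny1 nz1 ny2 nz2 ny3 nz3 (by linarith)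
      (by linarith)
    have Y := rowx_sound hc ry h1 h2 h3 hs hn b0 hy hx hz nx1 nz1 nx2 nz2 nx3 nz3 (by linarith)
      (by linarith)
    have Z := rowz_sound hc rz h1 h2 h3 hs hn e0 hx hy hz nx1 ny1 nx2 ny2 nx3 ny3 (by linarith)
      (by linarith) z0.le
    refine Or.inr ⟨a / 100, b / 100, e / 100, by positivity, by positivity, by positivity,
      by linarith, by linarith, by linarith, by linarith, ?_, ?_, ?_, Or.inl ?_⟩
    · unfold Rx; exact X.le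
    · unfold Ry; exact Y
    · unfold Rz; exact Z
    · unfold Rx; exact X
  | s l r ihl ihr =>
    intro x1 y1 z1 x2 y2 z2 x3 y3 z3 h nx1 ny1 nz1 nx2 ny2 nz2 nx3 ny3 nz3 w1 w2 w3 x y z h1 h2 h3
      hs hx hy hz hxyz z0 zy yx
    simp only [chk, Bool.and_eq_true, decide_eq_true_eq] at h
    obtain ⟨⟨⟨⟨mx, my⟩, mz⟩, hl⟩, hr⟩ := h
    have mxn : 0 ≤ (x1 + x2) / 2 := by omega
    have myn : 0 ≤ (y1 + y2) / 2 := by omega
    have mzn : 0 ≤ (z1 + z2) / 2 := by omega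
    have mx' : 2 * (((x1 + x2) / 2 : ℤ) : ℝ) = x1 + x2 := by exact_mod_cast mx
    have my' : 2 * (((y1 + y2) / 2 : ℤ) : ℝ) = y1 + y2 := by exact_mod_cast my
    have mz' : 2 * (((z1 + z2) / 2 : ℤ) : ℝ) = z1 + z2 := by exact_mod_cast mz
    rcases le_total w2 w1 with hw | hw
    · refine ihl _ _ _ _ _ _ _ _ _ hl nx3 ny3 nz3 nx1 ny1 nz1 mxn myn mzn w3 (w1 - w2) (2 * w2)
        x y z h3 (by linarith) (by linarith) (by linarith) ?_ ?_ ?_ hxyz z0 zy yx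
      · linear_combination hx + w2 * mx'
      · linear_combination hy + w2 * my'
      · linear_combination hz + w2 * mz'
    · refine ihr _ _ _ _ _ _ _ _ _ hr nx2 ny2 nz2 nx3 ny3 nz3 mxn myn mzn (w2 - w1) w3 (2 * w1)
        x y z (by linarith) h3 (by linarith) (by linarith) ?_ ?_ ?_ hxyz z0 zy yx
      · linear_combination hx + w1 * mx'
      · linear_combination hy + w1 * my'
      · linear_combination hz + w1 * mz'

def treeA : Tr :=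
  (.s (.s (.s (.s (.r 31 33 36) (.r 31 33 36)) (.r 31 33 36)) (.s (.r 32 34 34) (.s (.r 31 33 36)
  (.r 31 33 36)))) (.s (.s (.s (.s (.s (.r 32 32 36) (.r 25 28 47)) (.r 32 32 36)) (.s (.r 31 33 36)
  (.s (.r 20 20 60) (.r 32 32 36)))) (.s (.r 20 20 60) (.r 25 28 47))) (.s (.s (.r 31 33 36)
  (.r 31 33 36)) (.r 31 33 36))))

def treeB : Tr :=
  (.s (.s (.s (.s (.s (.r 16 32 52) (.r 25 28 47)) .v) (.s (.s (.s (.r 30 35 35) (.s (.s (.r 29 34 37)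
  (.r 16 32 52)) (.r 29 34 37))) (.r 30 35 35)) (.s (.r 31 33 36) (.s (.s (.s (.s (.r 18 26 56)
  (.r 31 33 36)) (.r 18 26 56)) (.s (.r 16 32 52) (.s (.r 31 33 36) (.r 16 32 52)))) (.r 31 33 36)))))
  (.s (.s (.s (.s (.r 25 28 47) .v) (.r 25 28 47)) (.s (.s (.s .v (.r 25 28 47)) .v) (.s .v
  (.s (.r 25 28 47) .v)))) (.s .v (.s (.r 25 28 47) .v)))) (.s .v (.s (.s .v (.s (.s (.s (.r 29 34 37)
  (.s (.s (.r 29 34 37) (.s (.s (.r 30 35 35) (.s .n (.r 30 35 35))) (.r 30 35 35))) (.r 29 34 37)))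
  (.r 30 35 35)) (.s (.s (.s (.s (.r 29 34 37) (.s .v (.r 29 34 37))) (.r 29 34 37)) (.r 16 32 52))
  (.s (.s (.s (.s (.r 16 32 52) (.r 29 34 37)) (.r 16 32 52)) (.s (.s (.s (.s .v (.r 29 34 37))
  .v) (.s .v (.s (.r 30 35 35) .v))) (.s (.r 29 34 37) (.s (.r 16 32 52) (.r 29 34 37))))) (.s
  (.r 29 34 37) (.s (.s (.r 29 34 37) (.r 16 32 52)) (.r 29 34 37))))))) .v)))

theorem chkA : chk 786432 treeA 262144 262144 262144 393216 393216 0 393216 196608 196608 = true := by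
  decide +kernel

theorem chkB : chk 786432 treeB 393216 393216 0 786432 0 0 393216 196608 196608 = true := by
  decide +kernel

/-- The numeric inequality. -/
theorem NI {c : ℝ} (hc2 : c ^ 2 = 3 * c - 1) (hc : c ≤ 0.38197) (hc0 : 0.38196 ≤ c)
    {x y z : ℝ} (hs : x + y + z = 1) (hz : 0 < z) (hzy : z ≤ y) (hyx : y ≤ x) : NIc c x y z := by
  rcases le_total x (1 / 2) with h | h
  · -- weights for (1/3,1/3,1/3), (1/2,1/2,0), (1/2,1/4,1/4)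
    refine chk_sound hc2 hc hc0 (by norm_num) treeA _ _ _ _ _ _ _ _ _ chkA
      (by norm_num) (by norm_num) (by norm_num) (by norm_num) (by norm_num) (by norm_num)
      (by norm_num) (by norm_num) (by norm_num)
      (3 - 6 * x) (2 * (y - z)) (1 - (3 - 6 * x) - 2 * (y - z)) x y z
      (by linarith) (by linarith) (by linarith) (by ring) ?_ ?_ ?_ hs hz hzy hyx
    · push_cast; linear_combination (0 : ℝ) * hs
    · push_cast; linear_combination (-393216 : ℝ) * hs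
    · push_cast; linear_combination (-393216 : ℝ) * hs
  · -- weights for (1/2,1/2,0), (1,0,0), (1/2,1/4,1/4)
    refine chk_sound hc2 hc hc0 (by norm_num) treeB _ _ _ _ _ _ _ _ _ chkB
      (by norm_num) (by norm_num) (by norm_num) (by norm_num) (by norm_num) (by norm_num)
      (by norm_num) (by norm_num) (by norm_num)
      (2 * (y - z)) (2 * x - 1) (4 * z) x y z
      (by linarith) (by linarith) (by linarith) (by linear_combination 2 * hs) ?_ ?_ ?_ hs hz hzy hyx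
    · push_cast; linear_combination (786432 : ℝ) * hs
    · push_cast; ring
    · push_cast; ring

end Pool.Agent.Helper514.Neu
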