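import Pool.Agent.Helper514.Neu.MeasC

set_option autoImplicit false

open MeasureTheory MeasureTheory.Measure Set
open scoped ENNReal NNReal Topology

namespace Pool.Agent.Helper514.Neu

abbrev Pl := EuclideanSpace ℝ (Fin 2)

theorem all6 {P : ZMod 6 → Prop} (h : P 0 ∧ P 1 ∧ P 2 ∧ P 3 ∧ P 4 ∧ P 5) (k : ZMod 6) : P k := by
  obtain ⟨h0, h1, h2, h3, h4, h5⟩ := h
  fin_cases k
  · exact h0
  · exact h1
  · exact h2
  · exact h3
  · exact h4
  · exact h5

theorem hex_of {f0 f2 : Pl} {A B : Pl →ₗ[ℝ] ℝ} (hA0 : A f0 = 0) (hA2 : A f2 = 1)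
    (hB0 : B f0 = -1) (hB2 : B f2 = 0) (hdec : ∀ y, y = (-(B y)) • f0 + A y • f2) :
    Hex (fun k : ZMod 6 => (![f0, f0 + f2, f2, -f0, -(f0 + f2), -f2] : Fin 6 → Pl) k)
      (fun k : ZMod 6 => (![A, A + B, B, -A, -(A + B), -B] : Fin 6 → (Pl →ₗ[ℝ] ℝ)) k) where
  fadd := by
    apply all6
    refine ⟨?_, ?_, ?_, ?_, ?_, ?_⟩
    · change f0 + f2 = f0 + f2; rfl
    · change f2 = f0 + f2 + -f0; abel
    · change -f0 = f2 + -(f0 + f2); abel
    · change -(f0 + f2) = -f0 + -f2; abel
    · change -f2 = -(f0 + f2) + f0; abel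
    · change f0 = -f2 + (f0 + f2); abel
  gadd := by
    apply all6
    refine ⟨?_, ?_, ?_, ?_, ?_, ?_⟩
    · intro y; change (A + B) y = A y + B y; rfl
    · intro y; change B y = (A + B) y + (-A) y
      simp only [LinearMap.add_apply, LinearMap.neg_apply]; ring
    · intro y; change (-A) y = B y + (-(A + B)) y
      simp only [LinearMap.add_apply, LinearMap.neg_apply]; ring
    · intro y; change (-(A + B)) y = (-A) y + (-B) y
      simp only [LinearMap.add_apply, LinearMap.neg_apply]; ring
    · intro y; change (-B) y = (-(A + B)) y + A y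
      simp only [LinearMap.add_apply, LinearMap.neg_apply]; ring
    · intro y; change A y = (-B) y + (A + B) y
      simp only [LinearMap.add_apply, LinearMap.neg_apply]; ring
  dec := by
    apply all6
    refine ⟨?_, ?_, ?_, ?_, ?_, ?_⟩
    · intro y; change y = (-((A + B) y)) • f0 + A y • (f0 + f2)
      conv_lhs => rw [hdec y]
      rw [LinearMap.add_apply]; module
    · intro y; change y = (-(B y)) • (f0 + f2) + (A + B) y • f2
      conv_lhs => rw [hdec y]
      rw [LinearMap.add_apply]; module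
    · intro y; change y = (-((-A) y)) • f2 + B y • (-f0)
      conv_lhs => rw [hdec y]
      rw [LinearMap.neg_apply]; module
    · intro y; change y = (-((-(A + B)) y)) • (-f0) + (-A) y • (-(f0 + f2))
      conv_lhs => rw [hdec y]
      rw [LinearMap.neg_apply, LinearMap.neg_apply, LinearMap.add_apply]; module
    · intro y; change y = (-((-B) y)) • (-(f0 + f2)) + (-(A + B)) y • (-f2)
      conv_lhs => rw [hdec y]
      rw [LinearMap.neg_apply, LinearMap.neg_apply, LinearMap.add_apply]; module
    · intro y; change y = (-(A y)) • (-f2) + (-B) y • f0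
      conv_lhs => rw [hdec y]
      rw [LinearMap.neg_apply]; module
  g0 := by
    apply all6
    refine ⟨hA0, ?_, hB2, ?_, ?_, ?_⟩
    · change (A + B) (f0 + f2) = 0
      simp only [LinearMap.add_apply, map_add, hA0, hA2, hB0, hB2]; norm_num
    · change (-A) (-f0) = 0
      simp only [LinearMap.neg_apply, map_neg, hA0]; norm_num
    · change (-(A + B)) (-(f0 + f2)) = 0
      simp only [LinearMap.add_apply, LinearMap.neg_apply, map_neg, map_add, hA0, hA2, hB0, hB2]
      norm_num
    · change (-B) (-f2) = 0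
      simp only [LinearMap.neg_apply, map_neg, hB2]; norm_num
  g1 := by
    apply all6
    refine ⟨?_, ?_, ?_, ?_, ?_, ?_⟩
    · change A (f0 + f2) = 1
      simp only [map_add, hA0, hA2]; norm_num
    · change (A + B) f2 = 1
      simp only [LinearMap.add_apply, hA2, hB2]; norm_num
    · change B (-f0) = 1
      simp only [map_neg, hB0]; norm_num
    · change (-A) (-(f0 + f2)) = 1
      simp only [LinearMap.neg_apply, map_neg, map_add, hA0, hA2]; norm_num
    · change (-(A + B)) (-f2) = 1
      simp only [LinearMap.add_apply, LinearMap.neg_apply, map_neg, hA2, hB2]; norm_num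
    · change (-B) f0 = 1
      simp only [LinearMap.neg_apply, hB0]; norm_num
  gm := by
    apply all6
    refine ⟨?_, ?_, ?_, ?_, ?_, ?_⟩
    · change (A + B) f0 = -1
      simp only [LinearMap.add_apply, hA0, hB0]; norm_num
    · change B (f0 + f2) = -1
      simp only [map_add, hB0, hB2]; norm_num
    · change (-A) f2 = -1
      simp only [LinearMap.neg_apply, hA2]
    · change (-(A + B)) (-f0) = -1
      simp only [LinearMap.add_apply, LinearMap.neg_apply, map_neg, hA0, hB0]; norm_num
    · change (-B) (-(f0 + f2)) = -1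
      simp only [LinearMap.neg_apply, map_neg, map_add, hB0, hB2]; norm_num
    · change A (-f2) = -1
      simp only [map_neg, hA2]

theorem inner_pl (x y : Pl) : inner ℝ x y = x 0 * y 0 + x 1 * y 1 := by
  rw [PiLp.inner_apply, Fin.sum_univ_two]
  simp [mul_comm]

/-- coordinate functional -/
noncomputable def lin (α β : ℝ) : Pl →ₗ[ℝ] ℝ where
  toFun y := α * y 0 + β * y 1
  map_add' x y := by simp only [PiLp.add_apply]; ring
  map_smul' r x := by simp only [PiLp.smul_apply, smul_eq_mul, RingHom.id_apply]; ring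

theorem lin_apply (α β : ℝ) (y : Pl) : lin α β y = α * y 0 + β * y 1 := rfl

theorem pl_ext {x y : Pl} (h0 : x 0 = y 0) (h1 : x 1 = y 1) : x = y := by
  ext i
  fin_cases i
  · exact h0
  · exact h1

/-- frame from two independent vectors -/
theorem hex_vec {f0 f2 : Pl} (hD : f0 0 * f2 1 - f0 1 * f2 0 ≠ 0) :
    ∃ (f : ZMod 6 → Pl) (g : ZMod 6 → (Pl →ₗ[ℝ] ℝ)), Hex f g ∧ f 0 = f0 ∧ f 2 = f2 := by
  set D := f0 0 * f2 1 - f0 1 * f2 0 with hDd
  have := hex_of (f0 := f0) (f2 := f2) (A := lin (-(f0 1) / D) (f0 0 / D))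
    (B := lin (-(f2 1) / D) (f2 0 / D))
    (by rw [lin_apply]; field_simp; ring) (by rw [lin_apply]; field_simp; rw [hDd]; ring)
    (by rw [lin_apply]; field_simp; rw [hDd]; ring) (by rw [lin_apply]; field_simp; ring)
    (by
      intro y
      apply pl_ext
      · simp only [PiLp.add_apply, PiLp.smul_apply, smul_eq_mul, lin_apply]
        field_simp; rw [hDd]; ring
      · simp only [PiLp.add_apply, PiLp.smul_apply, smul_eq_mul, lin_apply]
        field_simp; rw [hDd]; ring)
  exact ⟨_, _, this, rfl, rfl⟩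

/-- frame from two independent functionals -/
theorem hex_fun {a b : Pl} (hD : a 0 * b 1 - a 1 * b 0 ≠ 0) :
    ∃ (f : ZMod 6 → Pl) (g : ZMod 6 → (Pl →ₗ[ℝ] ℝ)), Hex f g ∧
      (∀ y, g 0 y = inner ℝ y a) ∧ (∀ y, g 2 y = inner ℝ y b) ∧
      (∀ y, g 4 y = -(inner ℝ y a + inner ℝ y b)) := by
  set D := a 0 * b 1 - a 1 * b 0 with hDd
  have := hex_of (f0 := !₂[a 1 / D, -(a 0) / D]) (f2 := !₂[b 1 / D, -(b 0) / D])
    (A := lin (a 0) (a 1)) (B := lin (b 0) (b 1))
    (by rw [lin_apply]; simp; field_simp; ring)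
    (by rw [lin_apply]; simp; field_simp; rw [hDd]; ring)
    (by rw [lin_apply]; simp; field_simp; rw [hDd]; ring)
    (by rw [lin_apply]; simp; field_simp; ring)
    (by
      intro y
      apply pl_ext
      · simp [lin_apply]
        field_simp; rw [hDd]; ring
      · simp [lin_apply]
        field_simp; rw [hDd]; ring)
  refine ⟨_, _, this, ?_, ?_, ?_⟩
  · intro y; change lin (a 0) (a 1) y = _
    rw [inner_pl, lin_apply]; ring
  · intro y; change lin (b 0) (b 1) y = _
    rw [inner_pl, lin_apply]; ring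
  · intro y; change (-(lin (a 0) (a 1) + lin (b 0) (b 1))) y = _
    rw [inner_pl, inner_pl, LinearMap.neg_apply, LinearMap.add_apply, lin_apply, lin_apply]; ring

end Pool.Agent.Helper514.Neu
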