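import Pool.Agent.Helper514.Neu.RedA

set_option autoImplicit false

open MeasureTheory MeasureTheory.Measure Set
open scoped ENNReal NNReal Topology

namespace Pool.Agent.Helper514.Neu

/-- boundary length inside a set -/
noncomputable def len (K S : Set Pl) : ℝ := (μH[1] (frontier K ∩ S)).toReal

/-- translate -/
def tr (O : Pl) (S : Set Pl) : Set Pl := (fun y => y + O) ⁻¹' S

theorem tr_frontier (O : Pl) (K : Set Pl) : frontier (tr O K) = tr O (frontier K) :=
  ((Homeomorph.addRight O).preimage_frontier K).symm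

theorem tr_interior (O : Pl) (K : Set Pl) : interior (tr O K) = tr O (interior K) :=
  ((Homeomorph.addRight O).preimage_interior K).symm

theorem tr_hausdorff (O : Pl) (S : Set Pl) : μH[1] (tr O S) = μH[1] S :=
  (IsometryEquiv.addRight O).hausdorffMeasure_preimage 1 S

theorem len_tr (K S : Set Pl) (O : Pl) : len (tr O K) (tr O S) = len K S := by
  unfold len
  rw [tr_frontier, ← tr_hausdorff O (frontier K ∩ S)]
  rfl

theorem bd_tr {K : Set Pl} (hcv : Convex ℝ K) (hcp : IsCompact K) {O : Pl}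
    (hO : O ∈ interior K) : Bd (tr O K) where
  cv := hcv.translate_preimage_left O
  cp := by
    have : tr O K = (Homeomorph.addRight O).symm '' K := by
      rw [Homeomorph.image_symm]; rfl
    rw [this]
    exact hcp.image (Homeomorph.addRight O).symm.continuous
  zi := by
    rw [tr_interior]
    change (0 : Pl) + O ∈ interior K
    rw [zero_add]; exact hO

section

variable {K : Set Pl}

theorem fin_top (hcv : Convex ℝ K) (hcp : IsCompact K) {O : Pl} (hO : O ∈ interior K) :
    μH[1] (frontier K) < ∞ := by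
  obtain ⟨f, g, hx, -⟩ := hex_vec (f0 := !₂[1, 0]) (f2 := !₂[0, 1]) (by simp)
  have := hx.fin (bd_tr hcv hcp hO)
  rwa [tr_frontier, tr_hausdorff] at this

theorem len_fin (hf : μH[1] (frontier K) < ∞) (S : Set Pl) : μH[1] (frontier K ∩ S) ≠ ∞ :=
  ((measure_mono inter_subset_left).trans_lt hf).ne

theorem len_nonneg (S : Set Pl) : 0 ≤ len K S := ENNReal.toReal_nonneg

theorem len_mono (hf : μH[1] (frontier K) < ∞) {S T : Set Pl} (h : frontier K ∩ S ⊆ T) :
    len K S ≤ len K T :=
  ENNReal.toReal_mono (len_fin hf T) (measure_mono (fun _ hx => ⟨hx.1, h hx⟩))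

theorem len_union (hf : μH[1] (frontier K) < ∞) (S T : Set Pl) :
    len K (S ∪ T) ≤ len K S + len K T := by
  unfold len
  rw [← ENNReal.toReal_add (len_fin hf _) (len_fin hf _), inter_union_distrib_left]
  exact ENNReal.toReal_mono (ENNReal.add_ne_top.2 ⟨len_fin hf _, len_fin hf _⟩)
    (measure_union_le _ _)

theorem len_compl (hf : μH[1] (frontier K) < ∞) {S : Set Pl} (hS : MeasurableSet S) :
    len K S + len K Sᶜ = len K univ := by
  unfold len
  rw [← ENNReal.toReal_add (len_fin hf _) (len_fin hf _), inter_univ,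
    ← measure_inter_add_sdiff (frontier K) hS]
  rfl

/-- the core theorem at an arbitrary interior point -/
theorem core_at (hcv : Convex ℝ K) (hcp : IsCompact K) {O : Pl} (hO : O ∈ interior K)
    {c : ℝ} (hc2 : c ^ 2 = 3 * c - 1) (hc : c ≤ 0.38197) (hc0 : 0.38196 ≤ c)
    {v1 v2 v3 : Pl} {w1 w2 w3 : ℝ} (h1 : 0 < w1) (h2 : 0 < w2) (h3 : 0 < w3)
    (hs : w1 • v1 + w2 • v2 + w3 • v3 = 0) (hD : v1 0 * v2 1 - v1 1 * v2 0 ≠ 0) :
    c * len K univ < len K {y | 0 ≤ inner ℝ (y - O) v1} ∨
    c * len K univ < len K {y | 0 ≤ inner ℝ (y - O) v2} ∨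
    c * len K univ < len K {y | 0 ≤ inner ℝ (y - O) v3} := by
  obtain ⟨f, g, hx, g0, g2, g4⟩ := hex_fun (a := w1 • v1) (b := w2 • v2) (by
    simp only [PiLp.smul_apply, smul_eq_mul]
    intro h
    apply hD
    have : w1 * w2 * (v1 0 * v2 1 - v1 1 * v2 0) = 0 := by linarith
    rcases mul_eq_zero.1 this with h' | h'
    · exact absurd h' (mul_pos h1 h2).ne'
    · exact h')
  have key := hx.core0 (bd_tr hcv hcp hO) hc2 hc hc0
  have e0 : {y | 0 ≤ g 0 y} = tr O {y | 0 ≤ inner ℝ (y - O) v1} := by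
    ext y
    change 0 ≤ g 0 y ↔ 0 ≤ inner ℝ (y + O - O) v1
    rw [g0, add_sub_cancel_right, inner_smul_right, mul_nonneg_iff_of_pos_left h1]
  have e2 : {y | 0 ≤ g 2 y} = tr O {y | 0 ≤ inner ℝ (y - O) v2} := by
    ext y
    change 0 ≤ g 2 y ↔ 0 ≤ inner ℝ (y + O - O) v2
    rw [g2, add_sub_cancel_right, inner_smul_right, mul_nonneg_iff_of_pos_left h2]
  have e4 : {y | 0 ≤ g 4 y} = tr O {y | 0 ≤ inner ℝ (y - O) v3} := by
    ext y
    change 0 ≤ g 4 y ↔ 0 ≤ inner ℝ (y + O - O) v3
    have : w3 • v3 = -(w1 • v1 + w2 • v2) := by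
      rw [eq_neg_iff_add_eq_zero, ← hs]; abel
    rw [g4, add_sub_cancel_right, ← inner_add_right, ← inner_neg_right, ← this, inner_smul_right,
      mul_nonneg_iff_of_pos_left h3]
  rw [e0, e2, e4] at key
  change c * _ < len (tr O K) (tr O _) ∨ c * _ < len (tr O K) (tr O _) ∨
    c * _ < len (tr O K) (tr O _) at key
  rw [len_tr, len_tr, len_tr, tr_frontier, tr_hausdorff] at key
  have : len K univ = (μH[1] (frontier K)).toReal := by unfold len; rw [inter_univ]
  rw [this]
  exact key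

theorem len_pos (hcv : Convex ℝ K) (hcp : IsCompact K) {O : Pl} (hO : O ∈ interior K) :
    0 < len K univ := by
  obtain ⟨f, g, hx, -⟩ := hex_vec (f0 := !₂[1, 0]) (f2 := !₂[0, 1]) (by simp)
  have hb := bd_tr hcv hcp hO
  have := hx.chord hb
  rw [tr_frontier, tr_hausdorff] at this
  have e : len K univ = (μH[1] (frontier K)).toReal := by unfold len; rw [inter_univ]
  rw [e]
  refine lt_of_lt_of_le ?_ this
  have hp0 := hb.pos (hx.fne 0)
  have hp2 := hb.pos (hx.fne 2)
  have : 0 < ‖(gauge (tr O K) (f 0))⁻¹ • f 0 - (gauge (tr O K) (f 2))⁻¹ • f 2‖ := by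
    rw [norm_pos_iff]
    intro h0
    have h1 := congrArg (g 0) h0
    have g02 : g 0 (f 2) = 1 := by
      have h2 := hx.gadd 0 (f 2)
      have h3 := hx.gm 1
      have h4 := hx.g0 2
      have h5 := hx.gm 1
      rw [show (1 : ZMod 6) + 1 = 2 from rfl] at h5
      have h6 := hx.fadd 0
      rw [show (0 : ZMod 6) + 1 = 1 from rfl, show (0 : ZMod 6) + 2 = 2 from rfl] at h6
      have h7 := hx.g1 0
      rw [show (0 : ZMod 6) + 1 = 1 from rfl, h6, map_add, hx.g0 0, zero_add] at h7
      exact h7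
    rw [map_sub, map_smul, map_smul, hx.g0 0, g02, map_zero, smul_eq_mul, smul_eq_mul, mul_zero,
      mul_one, zero_sub, neg_eq_zero, inv_eq_zero] at h1
    exact hp2.ne' h1
  linarith

/-- lines through interior points are null -/
theorem len_line (hcv : Convex ℝ K) (hcp : IsCompact K) {O : Pl} (hO : O ∈ interior K)
    {w : Pl} (hw : w ≠ 0) : len K {y | inner ℝ (y - O) w = 0} = 0 := by
  rw [← len_tr K _ O]
  unfold len
  have hn := null_line (bd_tr hcv hcp hO) (!₂[-(w 1), w 0] : Pl)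
  have : μH[1] (frontier (tr O K) ∩ tr O {y | inner ℝ (y - O) w = 0}) = 0 := by
    refine measure_mono_null ?_ hn
    rintro y ⟨hy, h0⟩
    refine ⟨hy, ?_⟩
    change inner ℝ (y + O - O) w = 0 at h0
    rw [add_sub_cancel_right, inner_pl] at h0
    have hw2 : 0 < w 0 ^ 2 + w 1 ^ 2 := by
      by_contra hcon
      push Not at hcon
      apply hw
      have q0 : w 0 = 0 := by nlinarith [sq_nonneg (w 0), sq_nonneg (w 1)]
      have q1 : w 1 = 0 := by nlinarith [sq_nonneg (w 0), sq_nonneg (w 1)]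
      exact pl_ext (by rw [q0]; rfl) (by rw [q1]; rfl)
    refine ⟨(y 1 * w 0 - y 0 * w 1) / (w 0 ^ 2 + w 1 ^ 2), ?_⟩
    apply pl_ext
    · simp only [PiLp.smul_apply, smul_eq_mul, Matrix.cons_val_zero]
      field_simp
      linear_combination (w 0) * h0
    · simp only [PiLp.smul_apply, smul_eq_mul, Matrix.cons_val_one, Matrix.cons_val_zero]
      field_simp
      linear_combination (w 1) * h0
  rw [this]; rfl

end

end Pool.Agent.Helper514.Neu
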