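import Pool.Agent.Helper514.Neu.RedB

set_option autoImplicit false

open MeasureTheory MeasureTheory.Measure Set
open scoped ENNReal NNReal Topology

namespace Pool.Agent.Helper514.Neu

variable {K : Set Pl}

/-- a line carries at most half of the boundary -/
theorem len_edge (hcv : Convex ℝ K) (hcp : IsCompact K) {O : Pl} (hO : O ∈ interior K)
    {w : Pl} (hw : w ≠ 0) (t : ℝ) : len K {y | inner ℝ y w = t} ≤ len K univ / 2 := by
  by_cases hx : ∃ x ∈ interior K, inner ℝ x w = t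
  · obtain ⟨x, hx, hxt⟩ := hx
    have h1 := len_line hcv hcp hx hw
    have e : {y : Pl | inner ℝ (y - x) w = 0} = {y | inner ℝ y w = t} := by
      ext y
      simp only [mem_setOf_eq, inner_sub_left, hxt]
      constructor <;> intro h <;> linarith
    rw [e] at h1
    rw [h1]
    have := len_pos hcv hcp hO
    linarith
  push Not at hx
  have hw2 : 0 < w 0 ^ 2 + w 1 ^ 2 := by
    by_contra hcon
    push Not at hcon
    apply hw
    have q0 : w 0 = 0 := by nlinarith [sq_nonneg (w 0), sq_nonneg (w 1)]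
    have q1 : w 1 = 0 := by nlinarith [sq_nonneg (w 0), sq_nonneg (w 1)]
    exact pl_ext (by rw [q0]; rfl) (by rw [q1]; rfl)
  set Q : Set Pl := K ∩ {y | inner ℝ y w = t} with hQ
  have hcont : Continuous (fun y : Pl => inner ℝ y w) := by fun_prop
  have hQc : IsCompact Q := hcp.inter_right (isClosed_eq hcont continuous_const)
  rcases Q.eq_empty_or_nonempty with hQe | hQn
  · have : len K {y | inner ℝ y w = t} = 0 := by
      unfold len
      have : frontier K ∩ {y | inner ℝ y w = t} = ∅ := by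
        rw [eq_empty_iff_forall_notMem] at hQe ⊢
        rintro y ⟨hy, ht⟩
        exact hQe y ⟨hcp.isClosed.frontier_subset hy, ht⟩
      rw [this]; simp
    rw [this]
    have := len_pos hcv hcp hO
    linarith
  set lam : Pl → ℝ := fun y => y 1 * w 0 - y 0 * w 1 with hlam
  have hlc : Continuous lam := by fun_prop
  obtain ⟨a, haQ, ha⟩ := hQc.exists_isMinOn hQn hlc.continuousOn
  obtain ⟨b, hbQ, hb⟩ := hQc.exists_isMaxOn hQn hlc.continuousOn
  have hsub : Q ⊆ segment ℝ a b := by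
    intro y hy
    have h1 : lam a ≤ lam y := ha hy
    have h2 : lam y ≤ lam b := hb hy
    have ey : y 0 * w 0 + y 1 * w 1 = t := by rw [← inner_pl]; exact hy.2
    have ea : a 0 * w 0 + a 1 * w 1 = t := by rw [← inner_pl]; exact haQ.2
    have eb : b 0 * w 0 + b 1 * w 1 = t := by rw [← inner_pl]; exact hbQ.2
    -- coordinates from t and lam
    have c0 : ∀ x : Pl, x 0 * w 0 + x 1 * w 1 = t →
        x 0 * (w 0 ^ 2 + w 1 ^ 2) = t * w 0 - lam x * w 1 := by
      intro x hx; simp only [hlam]; linear_combination (w 0) * hx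
    have c1 : ∀ x : Pl, x 0 * w 0 + x 1 * w 1 = t →
        x 1 * (w 0 ^ 2 + w 1 ^ 2) = t * w 1 + lam x * w 0 := by
      intro x hx; simp only [hlam]; linear_combination (w 1) * hx
    rcases (h1.trans h2).eq_or_lt with h3 | h3
    · have hya : y = a := by
        have : lam y = lam a := by linarith
        apply pl_ext
        · apply mul_right_cancel₀ hw2.ne'
          rw [c0 y ey, c0 a ea, this]
        · apply mul_right_cancel₀ hw2.ne'
          rw [c1 y ey, c1 a ea, this]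
      rw [hya]; exact left_mem_segment _ _ _
    · set θ := (lam y - lam a) / (lam b - lam a) with hθ
      have hd : 0 < lam b - lam a := by linarith
      have hθe : lam y = (1 - θ) * lam a + θ * lam b := by rw [hθ]; field_simp; ring
      refine ⟨1 - θ, θ, ?_, div_nonneg (by linarith) hd.le, by ring, ?_⟩
      · have : θ ≤ 1 := by rw [hθ, div_le_one hd]; linarith
        linarith
      · apply pl_ext
        · simp only [PiLp.add_apply, PiLp.smul_apply, smul_eq_mul]
          apply mul_right_cancel₀ hw2.ne'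
          rw [c0 y ey, hθe]
          linear_combination (1 - θ) * c0 a ea + θ * c0 b eb
        · simp only [PiLp.add_apply, PiLp.smul_apply, smul_eq_mul]
          apply mul_right_cancel₀ hw2.ne'
          rw [c1 y ey, hθe]
          linear_combination (1 - θ) * c1 a ea + θ * c1 b eb
  have hle : len K {y | inner ℝ y w = t} ≤ ‖a - b‖ := by
    unfold len
    have h1 : μH[1] (frontier K ∩ {y | inner ℝ y w = t}) ≤ ENNReal.ofReal ‖a - b‖ := by
      rw [← dist_eq_norm, ← edist_dist, ← hausdorffMeasure_segment]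
      exact measure_mono (fun y hy => hsub ⟨hcp.isClosed.frontier_subset hy.1, hy.2⟩)
    exact ENNReal.toReal_le_of_le_ofReal (norm_nonneg _) h1
  refine hle.trans ?_
  by_cases hab : a = b
  · rw [hab, sub_self, norm_zero]
    have := len_pos hcv hcp hO
    linarith
  have hfr : ∀ x ∈ Q, x ∈ frontier K := by
    intro x hxQ
    rw [frontier, hcp.isClosed.closure_eq]
    exact ⟨hxQ.1, fun h => hx x h hxQ.2⟩
  have hbd := bd_tr hcv hcp hO
  have hOt : inner ℝ O w ≠ t := hx O hO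
  obtain ⟨f, g, hx', e0, e2⟩ := hex_vec (f0 := a - O) (f2 := b - O) (by
    intro hD
    apply hab
    simp only [PiLp.sub_apply] at hD
    have ea : a 0 * w 0 + a 1 * w 1 = t := by rw [← inner_pl]; exact haQ.2
    have eb : b 0 * w 0 + b 1 * w 1 = t := by rw [← inner_pl]; exact hbQ.2
    rw [inner_pl] at hOt
    have hτ : t - (O 0 * w 0 + O 1 * w 1) ≠ 0 := fun h => hOt (by linarith)
    apply pl_ext
    · apply mul_right_cancel₀ hτ
      linear_combination (b 0 - a 0) * ea + w 1 * hD + (a 0 - O 0) * (ea - eb) 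
    · apply mul_right_cancel₀ hτ
      linear_combination (b 1 - a 1) * ea - w 0 * hD + (a 1 - O 1) * (ea - eb))
  have hch := hx'.chord hbd
  have g0 : gauge (tr O K) (a - O) = 1 := by
    rw [← hbd.fr, tr_frontier]
    change a - O + O ∈ frontier K
    rw [sub_add_cancel]; exact hfr a haQ
  have g2 : gauge (tr O K) (b - O) = 1 := by
    rw [← hbd.fr, tr_frontier]
    change b - O + O ∈ frontier K
    rw [sub_add_cancel]; exact hfr b hbQ
  rw [e0, e2, g0, g2, inv_one, one_smul, one_smul, sub_sub_sub_cancel_right, tr_frontier,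
    tr_hausdorff] at hch
  have e : len K univ = (μH[1] (frontier K)).toReal := by unfold len; rw [inter_univ]
  rw [e]
  linarith

/-- matrix lemma -/
theorem mat3 {a1 a2 a3 b12 b13 b21 b23 b31 b32 : ℝ} (ha1 : 0 ≤ a1) (ha2 : 0 ≤ a2) (ha3 : 0 ≤ a3)
    (h12 : 0 < b12) (h13 : 0 < b13) (h21 : 0 < b21) (h23 : 0 < b23) (h31 : 0 < b31)
    (h32 : 0 < b32)
    (hN : ∀ l1 l2 l3 : ℝ, 0 ≤ l1 → 0 ≤ l2 → 0 ≤ l3 → 0 < l1 + l2 + l3 →
      ¬ (0 < -a1 * l1 + b12 * l2 + b13 * l3 ∧ 0 < b21 * l1 + -a2 * l2 + b23 * l3 ∧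
        0 < b31 * l1 + b32 * l2 + -a3 * l3)) :
    ∃ l1 l2 l3 : ℝ, 0 ≤ l1 ∧ 0 ≤ l2 ∧ 0 ≤ l3 ∧ 0 < l1 + l2 + l3 ∧
      -a1 * l1 + b12 * l2 + b13 * l3 ≤ 0 ∧ b21 * l1 + -a2 * l2 + b23 * l3 ≤ 0 ∧
        b31 * l1 + b32 * l2 + -a3 * l3 ≤ 0 := by
  have m1 : 0 ≤ a2 * a3 - b23 * b32 := by
    by_contra hcon
    push Not at hcon
    apply hN 0 (b23 + a3) (b32 + a2) le_rfl (by linarith) (by linarith) (by linarith)
    refine ⟨?_, ?_, ?_⟩
    · have := mul_pos h12 (by linarith : 0 < b23 + a3)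
      have := mul_pos h13 (by linarith : 0 < b32 + a2)
      linarith
    · linarith
    · linarith
  have m2 : 0 < b21 * a3 + b23 * b31 := by
    have := mul_nonneg h21.le ha3
    have := mul_pos h23 h31
    linarith
  have m3 : 0 < b31 * a2 + b21 * b32 := by
    have := mul_nonneg h31.le ha2
    have := mul_pos h21 h32
    linarith
  set μ1 := a2 * a3 - b23 * b32 with hμ1
  set μ2 := b21 * a3 + b23 * b31 with hμ2
  set μ3 := b31 * a2 + b21 * b32 with hμ3
  have r2 : b21 * μ1 + -a2 * μ2 + b23 * μ3 = 0 := by rw [hμ1, hμ2, hμ3]; ring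
  have r3 : b31 * μ1 + b32 * μ2 + -a3 * μ3 = 0 := by rw [hμ1, hμ2, hμ3]; ring
  have r1 : -a1 * μ1 + b12 * μ2 + b13 * μ3 ≤ 0 := by
    by_contra hcon
    push Not at hcon
    set R := -a1 * μ1 + b12 * μ2 + b13 * μ3 with hR
    have he : 0 < R / (2 * (a1 + 1)) := by positivity
    apply hN (μ1 + R / (2 * (a1 + 1))) μ2 μ3 (by linarith) m2.le m3.le (by linarith)
    refine ⟨?_, ?_, ?_⟩
    · have e : -a1 * (μ1 + R / (2 * (a1 + 1))) + b12 * μ2 + b13 * μ3 =
          R * (a1 + 2) / (2 * (a1 + 1)) := by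
        have : -a1 * (μ1 + R / (2 * (a1 + 1))) + b12 * μ2 + b13 * μ3 =
          R - a1 * (R / (2 * (a1 + 1))) := by rw [hR]; ring
        rw [this]; field_simp; ring
      rw [e]; positivity
    · have := mul_pos h21 he
      linarith
    · have := mul_pos h31 he
      linarith
  exact ⟨μ1, μ2, μ3, m1, m2.le, m3.le, by linarith, r1, r2.le, r3.le⟩

/-- sign patterns force a positive relation -/
theorem rel3 {Δ1 Δ2 Δ3 v1 v2 v3 : Pl} (x11 : inner ℝ Δ1 v1 < 0) (x12 : 0 < inner ℝ Δ1 v2)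
    (x13 : 0 < inner ℝ Δ1 v3) (x21 : 0 < inner ℝ Δ2 v1) (x22 : inner ℝ Δ2 v2 < 0)
    (x23 : 0 < inner ℝ Δ2 v3) (x31 : 0 < inner ℝ Δ3 v1) (x32 : 0 < inner ℝ Δ3 v2)
    (x33 : inner ℝ Δ3 v3 < 0) :
    ∃ w1 w2 w3 : ℝ, 0 < w1 ∧ 0 < w2 ∧ 0 < w3 ∧ w1 • v1 + w2 • v2 + w3 • v3 = 0 ∧
        v1 0 * v2 1 - v1 1 * v2 0 ≠ 0 := by
  have bc : ∀ x y u v : Pl, inner ℝ x u * inner ℝ y v - inner ℝ x v * inner ℝ y u =
      (x 0 * y 1 - x 1 * y 0) * (u 0 * v 1 - u 1 * v 0) := by
    intro x y u v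
    simp only [inner_pl]; ring
  set d3 := v1 0 * v2 1 - v1 1 * v2 0 with hd3
  set d1 := v2 0 * v3 1 - v2 1 * v3 0 with hd1
  set d2 := v3 0 * v1 1 - v3 1 * v1 0 with hd2
  have n3 : d3 ≠ 0 := by
    intro h0
    have h1 := bc Δ1 Δ3 v1 v2
    rw [← hd3, h0, mul_zero] at h1
    linarith [mul_neg_of_neg_of_pos x11 x32, mul_pos x12 x31]
  have n1 : d1 ≠ 0 := by
    intro h0
    have h1 := bc Δ2 Δ1 v2 v3
    rw [← hd1, h0, mul_zero] at h1
    linarith [mul_neg_of_neg_of_pos x22 x13, mul_pos x23 x12]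
  have n2 : d2 ≠ 0 := by
    intro h0
    have h1 := bc Δ3 Δ2 v3 v1
    rw [← hd2, h0, mul_zero] at h1
    linarith [mul_neg_of_neg_of_pos x33 x21, mul_pos x31 x23]
  have rel : d1 • v1 + d2 • v2 + d3 • v3 = 0 := by
    apply pl_ext
    · simp only [PiLp.add_apply, PiLp.smul_apply, smul_eq_mul, PiLp.zero_apply, hd1, hd2, hd3]
      ring
    · simp only [PiLp.add_apply, PiLp.smul_apply, smul_eq_mul, PiLp.zero_apply, hd1, hd2, hd3]
      ring
  have reli : ∀ x : Pl, d1 * inner ℝ x v1 + d2 * inner ℝ x v2 + d3 * inner ℝ x v3 = 0 := by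
    intro x
    have := congrArg (fun v => inner ℝ x v) rel
    simp only [inner_add_right, inner_smul_right, inner_zero_right] at this
    exact this
  have R1 := reli Δ1
  have R2 := reli Δ2
  have R3 := reli Δ3
  rcases lt_or_gt_of_ne n1 with s1 | s1 <;> rcases lt_or_gt_of_ne n2 with s2 | s2 <;>
    rcases lt_or_gt_of_ne n3 with s3 | s3
  · refine ⟨-d1, -d2, -d3, by linarith, by linarith, by linarith, ?_, n3⟩
    have : (-d1) • v1 + (-d2) • v2 + (-d3) • v3 = -(d1 • v1 + d2 • v2 + d3 • v3) := by module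
    rw [this, rel, neg_zero]
  · exfalso
    have := mul_neg_of_neg_of_pos s1 x31
    have := mul_neg_of_neg_of_pos s2 x32
    have := mul_neg_of_pos_of_neg s3 x33
    linarith
  · exfalso
    have := mul_neg_of_neg_of_pos s1 x21
    have := mul_neg_of_pos_of_neg s2 x22
    have := mul_neg_of_neg_of_pos s3 x23
    linarith
  · exfalso
    have := mul_pos_of_neg_of_neg s1 x11
    have := mul_pos s2 x12
    have := mul_pos s3 x13
    linarith
  · exfalso
    have := mul_neg_of_pos_of_neg s1 x11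
    have := mul_neg_of_neg_of_pos s2 x12
    have := mul_neg_of_neg_of_pos s3 x13
    linarith
  · exfalso
    have := mul_pos s1 x21
    have := mul_pos_of_neg_of_neg s2 x22
    have := mul_pos s3 x23
    linarith
  · exfalso
    have := mul_pos s1 x31
    have := mul_pos s2 x32
    have := mul_pos_of_neg_of_neg s3 x33
    linarith
  · exact ⟨d1, d2, d3, s1, s2, s3, rel, n3⟩

/-- open half planes pairwise but not triply meeting inside a convex set -/
theorem triple {U : Set Pl} (hU : Convex ℝ U) {v1 v2 v3 : Pl} {t1 t2 t3 : ℝ} {q1 q2 q3 : Pl}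
    (hq1 : q1 ∈ U) (hq2 : q2 ∈ U) (hq3 : q3 ∈ U)
    (h12 : t1 < inner ℝ q2 v1) (h13 : t1 < inner ℝ q3 v1)
    (h21 : t2 < inner ℝ q1 v2) (h23 : t2 < inner ℝ q3 v2)
    (h31 : t3 < inner ℝ q1 v3) (h32 : t3 < inner ℝ q2 v3)
    (hN : ∀ x ∈ U, ¬ (t1 < inner ℝ x v1 ∧ t2 < inner ℝ x v2 ∧ t3 < inner ℝ x v3)) :
    ∃ O ∈ U, inner ℝ O v1 ≤ t1 ∧ inner ℝ O v2 ≤ t2 ∧ inner ℝ O v3 ≤ t3 ∧
      ∃ w1 w2 w3 : ℝ, 0 < w1 ∧ 0 < w2 ∧ 0 < w3 ∧ w1 • v1 + w2 • v2 + w3 • v3 = 0 ∧
        v1 0 * v2 1 - v1 1 * v2 0 ≠ 0 := by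
  have h11 : inner ℝ q1 v1 ≤ t1 := by
    by_contra hcon
    push Not at hcon
    exact hN q1 hq1 ⟨hcon, h21, h31⟩
  have h22 : inner ℝ q2 v2 ≤ t2 := by
    by_contra hcon
    push Not at hcon
    exact hN q2 hq2 ⟨h12, hcon, h32⟩
  have h33 : inner ℝ q3 v3 ≤ t3 := by
    by_contra hcon
    push Not at hcon
    exact hN q3 hq3 ⟨h13, h23, hcon⟩
  have hcomb : ∀ l1 l2 l3 : ℝ, 0 ≤ l1 → 0 ≤ l2 → 0 ≤ l3 → 0 < l1 + l2 + l3 →
      ∃ x ∈ U, ∀ (v : Pl) (t : ℝ), (l1 + l2 + l3) * (inner ℝ x v - t) =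
        (inner ℝ q1 v - t) * l1 + (inner ℝ q2 v - t) * l2 + (inner ℝ q3 v - t) * l3 := by
    intro l1 l2 l3 k1 k2 k3 hS
    set S := l1 + l2 + l3 with hSd
    refine ⟨(l1 / S) • q1 + (l2 / S) • q2 + (l3 / S) • q3, ?_, ?_⟩
    · have := hU.sum_mem (t := Finset.univ) (w := ![l1 / S, l2 / S, l3 / S]) (z := ![q1, q2, q3])
        (by
          intro i _
          fin_cases i
          · exact div_nonneg k1 hS.le
          · exact div_nonneg k2 hS.le
          · exact div_nonneg k3 hS.le)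
        (by
          rw [Fin.sum_univ_three]
          change l1 / S + l2 / S + l3 / S = 1
          rw [← add_div, ← add_div, ← hSd, div_self hS.ne'])
        (by
          intro i _
          fin_cases i
          · exact hq1
          · exact hq2
          · exact hq3)
      rw [Fin.sum_univ_three] at this
      exact this
    · intro v t
      simp only [inner_add_left, inner_smul_left, RCLike.conj_to_real]
      field_simp
      rw [hSd]; ring
  -- the common point
  have hO : ∃ O ∈ U, inner ℝ O v1 ≤ t1 ∧ inner ℝ O v2 ≤ t2 ∧ inner ℝ O v3 ≤ t3 := by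
    obtain ⟨l1, l2, l3, k1, k2, k3, hS, r1, r2, r3⟩ := mat3
      (a1 := -(inner ℝ q1 v1 - t1)) (a2 := -(inner ℝ q2 v2 - t2)) (a3 := -(inner ℝ q3 v3 - t3))
      (b12 := inner ℝ q2 v1 - t1) (b13 := inner ℝ q3 v1 - t1) (b21 := inner ℝ q1 v2 - t2)
      (b23 := inner ℝ q3 v2 - t2) (b31 := inner ℝ q1 v3 - t3) (b32 := inner ℝ q2 v3 - t3)
      (by linarith) (by linarith) (by linarith) (by linarith) (by linarith) (by linarith)
      (by linarith) (by linarith) (by linarith)
      (by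
        intro l1 l2 l3 k1 k2 k3 hS
        rintro ⟨e1, e2, e3⟩
        obtain ⟨x, hx, hxe⟩ := hcomb l1 l2 l3 k1 k2 k3 hS
        refine hN x hx ⟨?_, ?_, ?_⟩
        · have := hxe v1 t1
          rw [neg_neg] at e1
          rw [← this] at e1
          linarith [(pos_iff_pos_of_mul_pos e1).1 hS]
        · have := hxe v2 t2
          rw [neg_neg] at e2
          rw [← this] at e2
          linarith [(pos_iff_pos_of_mul_pos e2).1 hS]
        · have := hxe v3 t3
          rw [neg_neg] at e3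
          rw [← this] at e3
          linarith [(pos_iff_pos_of_mul_pos e3).1 hS])
    obtain ⟨x, hx, hxe⟩ := hcomb l1 l2 l3 k1 k2 k3 hS
    rw [neg_neg, ← hxe] at r1 r2 r3
    refine ⟨x, hx, ?_, ?_, ?_⟩
    · by_contra hcon
      push Not at hcon
      linarith [mul_pos hS (sub_pos.2 hcon)]
    · by_contra hcon
      push Not at hcon
      linarith [mul_pos hS (sub_pos.2 hcon)]
    · by_contra hcon
      push Not at hcon
      linarith [mul_pos hS (sub_pos.2 hcon)]
  obtain ⟨O, hOU, o1, o2, o3⟩ := hO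
  refine ⟨O, hOU, o1, o2, o3, ?_⟩
  -- points z
  have hz : ∀ (p q : Pl) (u v w : Pl) (r s t : ℝ), p ∈ U → q ∈ U →
      inner ℝ p u ≤ r → r < inner ℝ q u → s < inner ℝ p v → inner ℝ q v ≤ s →
      t < inner ℝ p w → t < inner ℝ q w →
      ∃ z ∈ U, inner ℝ z u - r = inner ℝ z v - s ∧ t < inner ℝ z w := by
    intro p q u v w r s t hp hq e1 e2 e3 e4 e5 e6
    set A := (inner ℝ p v - s) - (inner ℝ p u - r) with hA
    set B := (inner ℝ q u - r) - (inner ℝ q v - s) with hB
    have hA0 : 0 < A := by linarith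
    have hB0 : 0 < B := by linarith
    refine ⟨(B / (A + B)) • p + (A / (A + B)) • q, hU hp hq (by positivity) (by positivity)
      (by field_simp; ring), ?_, ?_⟩
    · simp only [inner_add_left, inner_smul_left, RCLike.conj_to_real]
      have hAB : A + B ≠ 0 := by positivity
      have e : B * inner ℝ p u + A * inner ℝ q u - (A + B) * r =
        B * inner ℝ p v + A * inner ℝ q v - (A + B) * s := by
        rw [hA, hB]; ring
      have e' : (B * inner ℝ p u + A * inner ℝ q u - (A + B) * r) / (A + B) =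
        (B * inner ℝ p v + A * inner ℝ q v - (A + B) * s) / (A + B) := by rw [e]
      calc B / (A + B) * inner ℝ p u + A / (A + B) * inner ℝ q u - r =
          (B * inner ℝ p u + A * inner ℝ q u - (A + B) * r) / (A + B) := by field_simp
        _ = (B * inner ℝ p v + A * inner ℝ q v - (A + B) * s) / (A + B) := e'
        _ = B / (A + B) * inner ℝ p v + A / (A + B) * inner ℝ q v - s := by field_simp
    · simp only [inner_add_left, inner_smul_left, RCLike.conj_to_real]
      have hAB : 0 < A + B := by positivity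
      have k1 := mul_lt_mul_of_pos_left e5 (by positivity : 0 < B / (A + B))
      have k2 := mul_lt_mul_of_pos_left e6 (by positivity : 0 < A / (A + B))
      have k3 : B / (A + B) * t + A / (A + B) * t = t := by field_simp; ring
      linarith
  obtain ⟨z2, hz2, e2, f2⟩ := hz q1 q3 v1 v3 v2 t1 t3 t2 hq1 hq3 h11 h13 h31 h33 h21 h23
  obtain ⟨z3, hz3, e3, f3⟩ := hz q1 q2 v1 v2 v3 t1 t2 t3 hq1 hq2 h11 h12 h21 h22 h31 h32
  obtain ⟨z1, hz1, e1, f1⟩ := hz q2 q3 v2 v3 v1 t2 t3 t1 hq2 hq3 h22 h23 h32 h33 h12 h13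
  have z21 : inner ℝ z2 v1 ≤ t1 := by
    by_contra hcon
    push Not at hcon
    exact hN z2 hz2 ⟨hcon, f2, by linarith⟩
  have z23 : inner ℝ z2 v3 ≤ t3 := by linarith
  have z31 : inner ℝ z3 v1 ≤ t1 := by
    by_contra hcon
    push Not at hcon
    exact hN z3 hz3 ⟨hcon, by linarith, f3⟩
  have z32 : inner ℝ z3 v2 ≤ t2 := by linarith
  have z12 : inner ℝ z1 v2 ≤ t2 := by
    by_contra hcon
    push Not at hcon
    exact hN z1 hz1 ⟨f1, hcon, by linarith⟩
  have z13 : inner ℝ z1 v3 ≤ t3 := by linarith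
  -- difference vectors
  have x11 : inner ℝ (q1 - z1) v1 < 0 := by rw [inner_sub_left]; linarith
  have x12 : 0 < inner ℝ (q1 - z1) v2 := by rw [inner_sub_left]; linarith
  have x13 : 0 < inner ℝ (q1 - z1) v3 := by rw [inner_sub_left]; linarith
  have x21 : 0 < inner ℝ (q2 - z2) v1 := by rw [inner_sub_left]; linarith
  have x22 : inner ℝ (q2 - z2) v2 < 0 := by rw [inner_sub_left]; linarith
  have x23 : 0 < inner ℝ (q2 - z2) v3 := by rw [inner_sub_left]; linarith
  have x31 : 0 < inner ℝ (q3 - z3) v1 := by rw [inner_sub_left]; linarith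
  have x32 : 0 < inner ℝ (q3 - z3) v2 := by rw [inner_sub_left]; linarith
  have x33 : inner ℝ (q3 - z3) v3 < 0 := by rw [inner_sub_left]; linarith
  exact rel3 x11 x12 x13 x21 x22 x23 x31 x32 x33

end Pool.Agent.Helper514.Neu
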