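import Pool.Agent.Helper514.Neu.RedC

set_option autoImplicit false

open MeasureTheory MeasureTheory.Measure Set Filter
open scoped ENNReal NNReal Topology

namespace Pool.Agent.Helper514.Neu

variable {K : Set Pl}

theorem cont_inner_right (v : Pl) : Continuous (fun y : Pl => inner ℝ y v) := by fun_prop

theorem meas_half (v : Pl) (t : ℝ) : MeasurableSet {y : Pl | t ≤ inner ℝ y v} :=
  (isClosed_le continuous_const (cont_inner_right v)).measurableSet

/-- heavy closed half planes: complement is light -/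
theorem len_lt_half (hf : μH[1] (frontier K) < ∞) (v : Pl) (t : ℝ) :
    len K {y : Pl | t ≤ inner ℝ y v} + len K {y : Pl | inner ℝ y v < t} = len K univ := by
  have := len_compl hf (meas_half v t)
  have e : {y : Pl | t ≤ inner ℝ y v}ᶜ = {y : Pl | inner ℝ y v < t} := by
    ext y; simp
  rw [e] at this
  exact this

theorem K_sub (hcv : Convex ℝ K) {O : Pl} (hO : O ∈ interior K) {C : Set Pl} (hC : IsClosed C)
    (h : interior K ⊆ C) : closure K ⊆ C := by
  rw [← hcv.closure_interior_eq_closure_of_nonempty_interior ⟨O, hO⟩]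
  exact closure_minimal h hC

/-- a heavy closed half plane meets the interior in its interior -/
theorem heavy_one (hcv : Convex ℝ K) (hcp : IsCompact K) {O : Pl} (hO : O ∈ interior K)
    {c : ℝ} (hc : c ≤ 0.38197) {v : Pl} (hv : v ≠ 0) {t : ℝ}
    (hh : (1 - c) * len K univ ≤ len K {y | t ≤ inner ℝ y v}) :
    ∃ q ∈ interior K, t < inner ℝ q v := by
  by_contra hcon
  push Not at hcon
  have h1 : closure K ⊆ {y | inner ℝ y v ≤ t} :=
    K_sub hcv hO (isClosed_le (cont_inner_right v) continuous_const) hcon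
  have hf := fin_top hcv hcp hO
  have h2 : len K {y | t ≤ inner ℝ y v} ≤ len K {y | inner ℝ y v = t} := by
    apply len_mono hf
    rintro y ⟨hy, ht⟩
    exact le_antisymm (h1 (frontier_subset_closure hy)) ht
  have h3 := len_edge hcv hcp hO hv t
  have h4 := len_pos hcv hcp hO
  nlinarith

theorem line_null (hcv : Convex ℝ K) (hcp : IsCompact K) {x : Pl} (hx : x ∈ interior K)
    {v : Pl} (hv : v ≠ 0) {t : ℝ} (ht : inner ℝ x v = t) :
    len K {y | inner ℝ y v = t} = 0 := by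
  have := len_line hcv hcp hx hv
  have e : {y : Pl | inner ℝ (y - x) v = 0} = {y | inner ℝ y v = t} := by
    ext y
    change inner ℝ (y - x) v = 0 ↔ inner ℝ y v = t
    rw [inner_sub_left, ht, sub_eq_zero]
  rwa [e] at this

/-- two heavy closed half planes meet in the interior -/
theorem heavy_two (hcv : Convex ℝ K) (hcp : IsCompact K) {O : Pl} (hO : O ∈ interior K)
    {c : ℝ} (hc : c ≤ 0.38197) {v1 v2 : Pl} (hv1 : v1 ≠ 0) (hv2 : v2 ≠ 0) {t1 t2 : ℝ}
    (hh1 : (1 - c) * len K univ ≤ len K {y | t1 ≤ inner ℝ y v1})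
    (hh2 : (1 - c) * len K univ ≤ len K {y | t2 ≤ inner ℝ y v2}) :
    ∃ q ∈ interior K, t1 < inner ℝ q v1 ∧ t2 < inner ℝ q v2 := by
  by_contra hcon
  push Not at hcon
  obtain ⟨q1, hq1, h1⟩ := heavy_one hcv hcp hO hc hv1 hh1
  obtain ⟨q2, hq2, h2⟩ := heavy_one hcv hcp hO hc hv2 hh2
  have hf := fin_top hcv hcp hO
  have hL := len_pos hcv hcp hO
  have h12 := hcon q1 hq1 h1
  have h21 : inner ℝ q2 v1 ≤ t1 := by
    by_contra h
    push Not at h
    linarith [hcon q2 hq2 h]
  have hpt : ∀ (p q v : Pl) (t : ℝ), p ∈ interior K → q ∈ interior K → t < inner ℝ p v →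
      inner ℝ q v ≤ t → ∃ x ∈ interior K, inner ℝ x v = t := by
    intro p q v t hp hq e1 e2
    set θ := (inner ℝ p v - t) / (inner ℝ p v - inner ℝ q v) with hθ
    have hd : 0 < inner ℝ p v - inner ℝ q v := by linarith
    refine ⟨(1 - θ) • p + θ • q, ?_, ?_⟩
    · apply hcv.interior hp hq
      · have : θ ≤ 1 := by rw [hθ, div_le_one hd]; linarith
        linarith
      · exact div_nonneg (by linarith) hd.le
      · ring
    · simp only [inner_add_left, inner_smul_left, RCLike.conj_to_real]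
      rw [hθ]; field_simp; ring
  obtain ⟨x1, hx1, e1⟩ := hpt q1 q2 v1 t1 hq1 hq2 h1 h21
  obtain ⟨x2, hx2, e2⟩ := hpt q2 q1 v2 t2 hq2 hq1 h2 h12
  have n1 := line_null hcv hcp hx1 hv1 e1
  have n2 := line_null hcv hcp hx2 hv2 e2
  have l1 := len_lt_half hf v1 t1
  have l2 := len_lt_half hf v2 t2
  have hcov : len K univ ≤ len K (({y | inner ℝ y v1 < t1} ∪ {y | inner ℝ y v1 = t1}) ∪
      ({y | inner ℝ y v2 < t2} ∪ {y | inner ℝ y v2 = t2})) := by
    apply len_mono hf
    rintro y ⟨hy, -⟩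
    have hcl : IsClosed ({y : Pl | inner ℝ y v1 ≤ t1} ∪ {y : Pl | inner ℝ y v2 ≤ t2}) :=
      (isClosed_le (cont_inner_right v1) continuous_const).union
        (isClosed_le (cont_inner_right v2) continuous_const)
    have := K_sub hcv hO hcl (by
      intro q hq
      by_cases h : t1 < inner ℝ q v1
      · right; exact hcon q hq h
      · left; exact not_lt.1 h) (frontier_subset_closure hy)
    rcases this with h | h
    · left
      rcases (show inner ℝ y v1 ≤ t1 from h).lt_or_eq with h | h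
      · left; exact h
      · right; exact h
    · right
      rcases (show inner ℝ y v2 ≤ t2 from h).lt_or_eq with h | h
      · left; exact h
      · right; exact h
  have u0 := len_union hf ({y | inner ℝ y v1 < t1} ∪ {y | inner ℝ y v1 = t1})
      ({y | inner ℝ y v2 < t2} ∪ {y | inner ℝ y v2 = t2})
  have u1 := len_union hf {y | inner ℝ y v1 < t1} {y | inner ℝ y v1 = t1}
  have u2 := len_union hf {y | inner ℝ y v2 < t2} {y | inner ℝ y v2 = t2}
  nlinarith

/-- three heavy closed half planes meet in the interior -/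
theorem heavy_three (hcv : Convex ℝ K) (hcp : IsCompact K) {O : Pl} (hO : O ∈ interior K)
    {c : ℝ} (hc2 : c ^ 2 = 3 * c - 1) (hc : c ≤ 0.38197) (hc0 : 0.38196 ≤ c)
    {v1 v2 v3 : Pl} (hv1 : v1 ≠ 0) (hv2 : v2 ≠ 0) (hv3 : v3 ≠ 0) {t1 t2 t3 : ℝ}
    (hh1 : (1 - c) * len K univ ≤ len K {y | t1 ≤ inner ℝ y v1})
    (hh2 : (1 - c) * len K univ ≤ len K {y | t2 ≤ inner ℝ y v2})
    (hh3 : (1 - c) * len K univ ≤ len K {y | t3 ≤ inner ℝ y v3}) :
    ∃ q ∈ interior K, t1 < inner ℝ q v1 ∧ t2 < inner ℝ q v2 ∧ t3 < inner ℝ q v3 := by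
  by_contra hcon
  push Not at hcon
  have hf := fin_top hcv hcp hO
  obtain ⟨q3, hq3, a1, a2⟩ := heavy_two hcv hcp hO hc hv1 hv2 hh1 hh2
  obtain ⟨q2, hq2, b1, b2⟩ := heavy_two hcv hcp hO hc hv1 hv3 hh1 hh3
  obtain ⟨q1, hq1, c1, c2⟩ := heavy_two hcv hcp hO hc hv2 hv3 hh2 hh3
  obtain ⟨x, hx, x1, x2, x3, w1, w2, w3, hw1, hw2, hw3, hs, hD⟩ := triple hcv.interior hq1 hq2 hq3
    b1 a1 c1 a2 c2 b2 (fun x hx h => by
      have := hcon x hx h.1 h.2.1
      linarith [h.2.2])
  have key := core_at hcv hcp hx hc2 hc hc0 (v1 := -v1) (v2 := -v2) (v3 := -v3) hw1 hw2 hw3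
    (by
      have : w1 • -v1 + w2 • -v2 + w3 • -v3 = -(w1 • v1 + w2 • v2 + w3 • v3) := by module
      rw [this, hs, neg_zero])
    (by
      simp only [PiLp.neg_apply]
      intro h; apply hD; linarith)
  have fin : ∀ (v : Pl) (t : ℝ), v ≠ 0 → inner ℝ x v ≤ t →
      (1 - c) * len K univ ≤ len K {y | t ≤ inner ℝ y v} →
      ¬ (c * len K univ < len K {y | 0 ≤ inner ℝ (y - x) (-v)}) := by
    intro v t hv hxt hh hlt
    have e1 := len_lt_half hf v t
    have e2 := len_line hcv hcp hx hv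
    have e3 : len K {y | 0 ≤ inner ℝ (y - x) (-v)} ≤
        len K ({y | inner ℝ y v < t} ∪ {y | inner ℝ (y - x) v = 0}) := by
      apply len_mono hf
      rintro y ⟨-, hy⟩
      have hy' : 0 ≤ inner ℝ (y - x) (-v) := hy
      rw [inner_neg_right] at hy'
      rcases (show inner ℝ (y - x) v ≤ 0 by linarith).lt_or_eq with h | h
      · left
        rw [inner_sub_left] at h
        change inner ℝ y v < t
        linarith
      · right; exact h
    have e4 := len_union hf {y | inner ℝ y v < t} {y | inner ℝ (y - x) v = 0}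
    linarith
  rcases key with h | h | h
  · exact fin v1 t1 hv1 x1 hh1 h
  · exact fin v2 t2 hv2 x2 hh2 h
  · exact fin v3 t3 hv3 x3 hh3 h

/-- continuity from above -/
theorem len_limit (hf : μH[1] (frontier K) < ∞) {a : ℝ} {v : Pl} {t : ℝ}
    (h : ∀ δ > 0, a ≤ len K {y | t - δ ≤ inner ℝ y v}) : a ≤ len K {y | t ≤ inner ℝ y v} := by
  have hT : Tendsto (fun n : ℕ => μH[1] (frontier K ∩ {y : Pl | t - 1 / ((n : ℝ) + 1) ≤ inner ℝ y v}))
      atTop (𝓝 (μH[1] (⋂ n : ℕ, frontier K ∩ {y : Pl | t - 1 / ((n : ℝ) + 1) ≤ inner ℝ y v}))) := by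
    apply tendsto_measure_iInter_atTop
    · intro n
      exact (isClosed_frontier.measurableSet.inter (meas_half v _)).nullMeasurableSet
    · intro n m hnm y hy
      refine ⟨hy.1, ?_⟩
      have h1 : t - 1 / ((m : ℝ) + 1) ≤ inner ℝ y v := hy.2
      have h2 : 1 / ((m : ℝ) + 1) ≤ 1 / ((n : ℝ) + 1) := by
        apply one_div_le_one_div_of_le (by positivity)
        have : (n : ℝ) ≤ m := by exact_mod_cast hnm
        linarith
      change t - 1 / ((n : ℝ) + 1) ≤ inner ℝ y v
      linarith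
    · exact ⟨0, len_fin hf _⟩
  have hI : (⋂ n : ℕ, frontier K ∩ {y : Pl | t - 1 / ((n : ℝ) + 1) ≤ inner ℝ y v}) =
      frontier K ∩ {y | t ≤ inner ℝ y v} := by
    ext y
    simp only [mem_iInter, mem_inter_iff, mem_ofPred_eq]
    constructor
    · intro hy
      refine ⟨(hy 0).1, ?_⟩
      have h1 : Tendsto (fun n : ℕ => t - 1 / ((n : ℝ) + 1)) atTop (𝓝 (t - 0)) :=
        tendsto_const_nhds.sub tendsto_one_div_add_atTop_nhds_zero_nat
      rw [sub_zero] at h1
      exact le_of_tendsto h1 (Eventually.of_forall fun n => (hy n).2)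
    · rintro ⟨h1, h2⟩ n
      refine ⟨h1, ?_⟩
      have : 0 < 1 / ((n : ℝ) + 1) := by positivity
      linarith
  rw [hI] at hT
  have hT2 := (ENNReal.tendsto_toReal (len_fin hf {y | t ≤ inner ℝ y v})).comp hT
  exact ge_of_tendsto hT2 (Eventually.of_forall fun n => h _ (by positivity))

/-- heavy half planes -/
def Heavy (K : Set Pl) (c R : ℝ) : Set (Pl × ℝ) :=
  {p | p.1 ∈ Metric.sphere (0 : Pl) 1 ∧ p.2 ∈ Icc (-R) R ∧
    (1 - c) * len K univ ≤ len K {y | p.2 ≤ inner ℝ y p.1}}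

theorem heavy_compact (hcp : IsCompact K) (hf : μH[1] (frontier K) < ∞) (c R : ℝ) :
    IsCompact (Heavy K c R) := by
  obtain ⟨M, hM⟩ := hcp.isBounded.exists_norm_le
  apply ((isCompact_sphere (0 : Pl) 1).prod (isCompact_Icc (a := -R) (b := R))).of_isClosed_subset
  · apply IsSeqClosed.isClosed
    intro x p hx hxp
    have h1 : Tendsto (fun n => (x n).1) atTop (𝓝 p.1) := (continuous_fst.tendsto p).comp hxp
    have h2 : Tendsto (fun n => (x n).2) atTop (𝓝 p.2) := (continuous_snd.tendsto p).comp hxp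
    refine ⟨?_, ?_, ?_⟩
    · exact Metric.isClosed_sphere.mem_of_tendsto h1 (Eventually.of_forall fun n => (hx n).1)
    · exact isClosed_Icc.mem_of_tendsto h2 (Eventually.of_forall fun n => (hx n).2.1)
    · apply len_limit hf
      intro δ hδ
      have hev : ∀ᶠ n in atTop, ‖(x n).1 - p.1‖ * (|M| + 1) + |(x n).2 - p.2| < δ := by
        have h3 : Tendsto (fun n => ‖(x n).1 - p.1‖ * (|M| + 1) + |(x n).2 - p.2|) atTop
            (𝓝 (‖p.1 - p.1‖ * (|M| + 1) + |p.2 - p.2|)) :=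
          (((h1.sub_const p.1).norm).mul_const _).add ((h2.sub_const p.2).abs)
        rw [sub_self, sub_self, norm_zero, abs_zero, zero_mul, zero_add] at h3
        exact h3.eventually_lt_const hδ
      obtain ⟨n, hn⟩ := hev.exists
      refine (hx n).2.2.trans (len_mono hf ?_)
      rintro y ⟨hy, hyn⟩
      have hyn' : (x n).2 ≤ inner ℝ y (x n).1 := hyn
      change p.2 - δ ≤ inner ℝ y p.1
      have hyM : ‖y‖ ≤ |M| + 1 := by
        have := hM y (hcp.isClosed.frontier_subset hy)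
        linarith [le_abs_self M]
      have e1 : inner ℝ y (x n).1 - inner ℝ y p.1 ≤ ‖(x n).1 - p.1‖ * (|M| + 1) := by
        rw [← inner_sub_right]
        refine (real_inner_le_norm _ _).trans ?_
        rw [mul_comm]
        exact mul_le_mul_of_nonneg_left hyM (norm_nonneg _)
      have e2 := neg_abs_le ((x n).2 - p.2)
      linarith
  · rintro p ⟨h1, h2, -⟩
    exact ⟨h1, h2⟩

/-- Good interior point -/
theorem exists_good (hcv : Convex ℝ K) (hcp : IsCompact K) {O : Pl} (hO : O ∈ interior K)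
    {c : ℝ} (hc2 : c ^ 2 = 3 * c - 1) (hc : c ≤ 0.38197) (hc0 : 0.38196 ≤ c) :
    ∃ x ∈ interior K, ∀ w : Pl, w ≠ 0 → c * len K univ < len K {y | 0 ≤ inner ℝ (y - x) w} := by
  classical
  by_contra hcon
  push Not at hcon
  have hf := fin_top hcv hcp hO
  obtain ⟨M, hM⟩ := hcp.isBounded.exists_norm_le
  -- each interior point lies on the boundary of a heavy half plane
  have hhv : ∀ x ∈ interior K, ∃ p ∈ Heavy K c M, inner ℝ x p.1 ≤ p.2 := by
    intro x hx
    obtain ⟨w, hw, hle⟩ := hcon x hx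
    have hnw : 0 < ‖w‖ := norm_pos_iff.2 hw
    set v : Pl := -(‖w‖⁻¹ • w) with hv
    have hv1 : ‖v‖ = 1 := by
      rw [hv, norm_neg, norm_smul, norm_inv, norm_norm, inv_mul_cancel₀ hnw.ne']
    refine ⟨(v, inner ℝ x v), ⟨?_, ?_, ?_⟩, le_rfl⟩
    · rw [mem_sphere_zero_iff_norm]; exact hv1
    · have h1 := abs_real_inner_le_norm x v
      rw [hv1, mul_one] at h1
      exact abs_le.1 (h1.trans (hM x (interior_subset hx)))
    · change (1 - c) * len K univ ≤ len K {y | inner ℝ x v ≤ inner ℝ y v}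
      have e1 : len K univ ≤ len K ({y | 0 ≤ inner ℝ (y - x) w} ∪
          {y | inner ℝ x v ≤ inner ℝ y v}) := by
        apply len_mono hf
        rintro y -
        by_cases h : 0 ≤ inner ℝ (y - x) w
        · left; exact h
        · right
          push Not at h
          change inner ℝ x v ≤ inner ℝ y v
          rw [← sub_nonneg, ← inner_sub_left, hv, inner_neg_right, inner_smul_right]
          have := mul_neg_of_pos_of_neg (inv_pos.2 hnw) h
          linarith
      have e2 := len_union hf {y | 0 ≤ inner ℝ (y - x) w} {y | inner ℝ x v ≤ inner ℝ y v}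
      linarith
  -- Helly
  have hhelly : ∀ δ > 0, ∃ p ∈ (Heavy K c M) ×ˢ ((Heavy K c M) ×ˢ (Heavy K c M)),
      ∀ x ∈ K, ¬ (p.1.2 + δ ≤ inner ℝ x p.1.1 ∧ p.2.1.2 + δ ≤ inner ℝ x p.2.1.1 ∧
        p.2.2.2 + δ ≤ inner ℝ x p.2.2.1) := by
    intro δ hδ
    by_contra hcon2
    push Not at hcon2
    have hH := Convex.helly_theorem_compact' (𝕜 := ℝ)
      (F := fun p : Heavy K c M => K ∩ {x : Pl | p.1.2 + δ ≤ inner ℝ x p.1.1})
      (by
        intro p
        apply hcv.inter
        intro x hx y hy a b ha hb hab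
        have hx' : p.1.2 + δ ≤ inner ℝ x p.1.1 := hx
        have hy' : p.1.2 + δ ≤ inner ℝ y p.1.1 := hy
        change p.1.2 + δ ≤ inner ℝ (a • x + b • y) p.1.1
        rw [inner_add_left, inner_smul_left, inner_smul_left, RCLike.conj_to_real,
          RCLike.conj_to_real]
        have k1 := mul_le_mul_of_nonneg_left hx' ha
        have k2 := mul_le_mul_of_nonneg_left hy' hb
        have k3 : a * (p.1.2 + δ) + b * (p.1.2 + δ) = p.1.2 + δ := by
          rw [← add_mul, hab, one_mul]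
        linarith)
      (by
        intro p
        exact hcp.inter_right (isClosed_le continuous_const (cont_inner_right _)))
      (by
        intro I hI
        rw [finrank_euclideanSpace_fin] at hI
        have hne : ∀ p1 p2 p3 : Heavy K c M, ∃ x ∈ K, p1.1.2 + δ ≤ inner ℝ x p1.1.1 ∧
            p2.1.2 + δ ≤ inner ℝ x p2.1.1 ∧ p3.1.2 + δ ≤ inner ℝ x p3.1.1 := by
          intro p1 p2 p3
          exact hcon2 (p1.1, (p2.1, p3.1)) ⟨p1.2, p2.2, p3.2⟩
        have hsub : ∀ p1 p2 p3 : Heavy K c M, (∀ i ∈ I, i = p1 ∨ i = p2 ∨ i = p3) →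
            (⋂ i ∈ I, K ∩ {x : Pl | i.1.2 + δ ≤ inner ℝ x i.1.1}).Nonempty := by
          intro p1 p2 p3 hI3
          obtain ⟨x, hxK, h1, h2, h3⟩ := hne p1 p2 p3
          refine ⟨x, mem_iInter₂.2 ?_⟩
          intro i hi
          rcases hI3 i hi with h | h | h
          · rw [h]; exact ⟨hxK, h1⟩
          · rw [h]; exact ⟨hxK, h2⟩
          · rw [h]; exact ⟨hxK, h3⟩
        have hcases : I.card = 0 ∨ I.card = 1 ∨ I.card = 2 ∨ I.card = 3 := by omega
        rcases hcases with h | h | h | h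
        · rw [Finset.card_eq_zero] at h
          rw [h]; simp
        · obtain ⟨p1, h⟩ := Finset.card_eq_one.1 h
          exact hsub p1 p1 p1 (by rw [h]; simp)
        · obtain ⟨p1, p2, -, h⟩ := Finset.card_eq_two.1 h
          exact hsub p1 p2 p2 (by rw [h]; simp)
        · obtain ⟨p1, p2, p3, -, -, -, h⟩ := Finset.card_eq_three.1 h
          exact hsub p1 p2 p3 (by rw [h]; simp))
    obtain ⟨x, hx⟩ := hH
    rw [mem_iInter] at hx
    obtain ⟨p0, hp0, -⟩ := hhv O hO
    have hxK : x ∈ K := (hx ⟨p0, hp0⟩).1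
    have hxc : x ∈ closure (interior K) := by
      rw [hcv.closure_interior_eq_closure_of_nonempty_interior ⟨O, hO⟩]
      exact subset_closure hxK
    obtain ⟨x', hx', hd⟩ := Metric.mem_closure_iff.1 hxc δ hδ
    obtain ⟨p, hp, hle⟩ := hhv x' hx'
    have h1 : p.2 + δ ≤ inner ℝ x p.1 := (hx ⟨p, hp⟩).2
    have h2 : inner ℝ (x - x') p.1 ≤ ‖x - x'‖ := by
      have := real_inner_le_norm (x - x') p.1
      rwa [mem_sphere_zero_iff_norm.1 hp.1, mul_one] at this
    rw [inner_sub_left] at h2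
    rw [dist_eq_norm] at hd
    linarith
  choose! P hP1 hP2 using hhelly
  have hcomp : IsCompact ((Heavy K c M) ×ˢ ((Heavy K c M) ×ˢ (Heavy K c M))) :=
    (heavy_compact hcp hf c M).prod ((heavy_compact hcp hf c M).prod (heavy_compact hcp hf c M))
  have hδ : ∀ n : ℕ, (0 : ℝ) < 1 / ((n : ℝ) + 1) := fun n => by positivity
  obtain ⟨p, hp, φ, hφ, hlim⟩ := hcomp.tendsto_subseq
    (x := fun n : ℕ => P (1 / ((n : ℝ) + 1))) (fun n => hP1 _ (hδ n))
  have hne : ∀ q ∈ Heavy K c M, q.1 ≠ 0 := by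
    intro q hq h0
    have := mem_sphere_zero_iff_norm.1 hq.1
    rw [h0, norm_zero] at this
    norm_num at this
  obtain ⟨x, hx, x1, x2, x3⟩ := heavy_three hcv hcp hO hc2 hc hc0 (hne _ hp.1) (hne _ hp.2.1)
    (hne _ hp.2.2) hp.1.2.2 hp.2.1.2.2 hp.2.2.2.2
  have hlimδ : Tendsto (fun n : ℕ => 1 / ((φ n : ℝ) + 1)) atTop (𝓝 0) :=
    tendsto_one_div_add_atTop_nhds_zero_nat.comp hφ.tendsto_atTop
  have hg : ∀ F : ((Pl × ℝ) × ((Pl × ℝ) × (Pl × ℝ))) → Pl × ℝ, Continuous F →
      (F p).2 < inner ℝ x (F p).1 →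
      ∀ᶠ n in atTop, (F (P (1 / ((φ n : ℝ) + 1)))).2 + 1 / ((φ n : ℝ) + 1) ≤
        inner ℝ x (F (P (1 / ((φ n : ℝ) + 1)))).1 := by
    intro F hF hlt
    have t0 : Tendsto (fun n => F (P (1 / ((φ n : ℝ) + 1)))) atTop (𝓝 (F p)) :=
      (hF.tendsto p).comp hlim
    have t1 : Tendsto (fun n => (F (P (1 / ((φ n : ℝ) + 1)))).2 + 1 / ((φ n : ℝ) + 1)) atTop
        (𝓝 ((F p).2 + 0)) := ((continuous_snd.tendsto _).comp t0).add hlimδ
    have t2 : Tendsto (fun n => inner ℝ x (F (P (1 / ((φ n : ℝ) + 1)))).1) atTop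
        (𝓝 (inner ℝ x (F p).1)) := by
      have : Continuous (fun v : Pl => inner ℝ x v) := by fun_prop
      exact (this.tendsto _).comp ((continuous_fst.tendsto _).comp t0)
    rw [add_zero] at t1
    exact (t1.eventually_lt t2 hlt).mono fun n h => h.le
  have g1 := hg (fun q => q.1) continuous_fst x1
  have g2 := hg (fun q => q.2.1) (continuous_fst.comp continuous_snd) x2
  have g3 := hg (fun q => q.2.2) (continuous_snd.comp continuous_snd) x3
  obtain ⟨n, h1, h2, h3⟩ := (g1.and (g2.and g3)).exists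
  exact hP2 _ (hδ (φ n)) x (interior_subset hx) ⟨h1, h2, h3⟩

/-- final statement -/
theorem neumann (hcv : Convex ℝ K) (hcp : IsCompact K) (hne : (interior K).Nonempty) :
    ∃ x ∈ interior K, ∀ v : Pl, v ≠ 0 →
      μH[1] (frontier K ∩ {y : Pl | 0 ≤ inner ℝ (y - x) v}) <
        ENNReal.ofReal ((Real.sqrt 5 + 1) / 2) *
          μH[1] (frontier K ∩ {y : Pl | inner ℝ (y - x) v ≤ 0}) := by
  obtain ⟨O, hO⟩ := hne
  have s1 : √5 ^ 2 = 5 := Real.sq_sqrt (by norm_num)
  have s2 : √5 ≤ 2.23608 := by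
    rw [Real.sqrt_le_left (by norm_num)]; norm_num
  have s3 : 2.23606 ≤ √5 := by
    apply Real.le_sqrt_of_sq_le; norm_num
  set c : ℝ := (3 - √5) / 2 with hcd
  have hc2 : c ^ 2 = 3 * c - 1 := by rw [hcd]; nlinarith
  have hc : c ≤ 0.38197 := by rw [hcd]; linarith
  have hc0 : 0.38196 ≤ c := by rw [hcd]; linarith
  obtain ⟨x, hx, hgood⟩ := exists_good hcv hcp hO hc2 hc hc0
  refine ⟨x, hx, ?_⟩
  intro v hv
  have hf := fin_top hcv hcp hO
  have hb := hgood (-v) (neg_ne_zero.2 hv)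
  have eb : {y : Pl | 0 ≤ inner ℝ (y - x) (-v)} = {y : Pl | inner ℝ (y - x) v ≤ 0} := by
    ext y
    change 0 ≤ inner ℝ (y - x) (-v) ↔ inner ℝ (y - x) v ≤ 0
    rw [inner_neg_right]
    constructor <;> intro h <;> linarith
  rw [eb] at hb
  have hsum : len K {y : Pl | 0 ≤ inner ℝ (y - x) v} + len K {y : Pl | inner ℝ (y - x) v ≤ 0} =
      len K univ := by
    have hm : MeasurableSet {y : Pl | 0 ≤ inner ℝ (y - x) v} :=
      (isClosed_le continuous_const (by fun_prop)).measurableSet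
    have h1 := len_compl hf hm
    have h2 := len_line hcv hcp hx hv
    have h3 : len K {y : Pl | inner ℝ (y - x) v ≤ 0} ≤
        len K ({y : Pl | 0 ≤ inner ℝ (y - x) v}ᶜ ∪ {y | inner ℝ (y - x) v = 0}) := by
      apply len_mono hf
      rintro y ⟨-, hy⟩
      rcases (show inner ℝ (y - x) v ≤ 0 from hy).lt_or_eq with h | h
      · left
        change ¬ (0 ≤ inner ℝ (y - x) v)
        linarith
      · right; exact h
    have h4 := len_union hf {y : Pl | 0 ≤ inner ℝ (y - x) v}ᶜ {y | inner ℝ (y - x) v = 0}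
    have h5 : len K {y : Pl | 0 ≤ inner ℝ (y - x) v}ᶜ ≤ len K {y : Pl | inner ℝ (y - x) v ≤ 0} := by
      apply len_mono hf
      rintro y ⟨-, hy⟩
      have : ¬ (0 ≤ inner ℝ (y - x) v) := hy
      change inner ℝ (y - x) v ≤ 0
      linarith
    linarith
  have hreal : len K {y : Pl | 0 ≤ inner ℝ (y - x) v} <
      ((√5 + 1) / 2) * len K {y : Pl | inner ℝ (y - x) v ≤ 0} := by
    have e1 : (√5 + 1) / 2 = 2 - c := by rw [hcd]; ring
    rw [e1]
    have e2 : (3 - c) * (c * len K univ) = len K univ := by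
      linear_combination (-(len K univ)) * hc2
    have e3 := mul_lt_mul_of_pos_left hb (by linarith : 0 < 3 - c)
    linarith
  have hA : μH[1] (frontier K ∩ {y : Pl | 0 ≤ inner ℝ (y - x) v}) =
      ENNReal.ofReal (len K {y : Pl | 0 ≤ inner ℝ (y - x) v}) :=
    (ENNReal.ofReal_toReal (len_fin hf _)).symm
  have hB : μH[1] (frontier K ∩ {y : Pl | inner ℝ (y - x) v ≤ 0}) =
      ENNReal.ofReal (len K {y : Pl | inner ℝ (y - x) v ≤ 0}) :=
    (ENNReal.ofReal_toReal (len_fin hf _)).symm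
  rw [hA, hB, ← ENNReal.ofReal_mul (by positivity)]
  exact (ENNReal.ofReal_lt_ofReal_iff_of_nonneg (len_nonneg _)).2 hreal

end Pool.Agent.Helper514.Neu
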